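import Pool.Agent.Lib.H72F.GadMem

/-!
# CHUNK Ah: the arcs starting in an element `h`

Method: see `GadRed.lean`.
-/

set_option autoImplicit false

namespace Pool.Agent.H72F

variable {F : List (List (ℕ × Bool))} {n : ℕ}

private theorem cross_pr (x y u v : ℕ) : Cross (pr x y) (pr u v) ↔
    (x < u ∧ u < y ∧ (v < x ∨ y < v)) ∨ (y < u ∧ u < x ∧ (v < y ∨ x < v)) ∨
      (x < v ∧ v < y ∧ (u < x ∨ y < u)) ∨ (y < v ∧ v < x ∧ (u < y ∨ x < u)) := by
  unfold Cross pr
  simp only
  rcases le_total x y with h | h <;> rcases le_total u v with h' | h' <;>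
    simp only [min_eq_left, min_eq_right, max_eq_left, max_eq_right, h, h'] <;> omega

/-- comparison of two zones -/
private theorem zone_cmp (m i i' : ℕ) :
    (i < i' ∧ i * Zw m + (11 * (2 * m + 2) + 4 * m) ≤ i' * Zw m) ∨
    (i = i' ∧ i * Zw m = i' * Zw m) ∨
      (i' < i ∧ i' * Zw m + (11 * (2 * m + 2) + 4 * m) ≤ i * Zw m) := by
  rcases lt_trichotomy i i' with h | h | h
  · exact Or.inl ⟨h, zone_le m h⟩
  · exact Or.inr (Or.inl ⟨h, by rw [h]⟩)
  · exact Or.inr (Or.inr ⟨h, zone_le m h⟩)

private theorem prv_cases (n i : ℕ) :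
    (i = 0 ∧ prv n i = n - 1) ∨ (0 < i ∧ prv n i + 1 = i) := by
  unfold prv
  split <;> omega

theorem arc_h (hn : 2 ≤ n) {i j : ℕ} (hi : i < n) (hj : j < F.length) :
    ∀ e ∈ (gels F n).toFinset,
      (Cross (pr (gp F n (.h i j)) (ga F (.h i j))) (pr (gp F n e) (gb F n e)) ↔
        arcSpec F n (.h i j) e) := by
  intro e' he'
  rw [List.mem_toFinset, mem_gels] at he'
  cases e' with
  | v i' k' =>
    simp only [gin] at he'
    simp only [gp, ga, gb, pos, zpos, cross_pr, arcSpec]
    have hc1 := zone_cmp F.length i (prv n i)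
    have hc2 := zone_cmp F.length i i'
    have hc3 := zone_cmp F.length (prv n i) i'
    have hz : (i = 0 ∧ prv n i = n - 1) ∨ (0 < i ∧ prv n i + 1 = i) := prv_cases n i
    have hg := gap_spec F i j
    generalize prv n i = z at *
    generalize i * Zw F.length = x0 at *
    generalize z * Zw F.length = x1 at *
    generalize i' * Zw F.length = x2 at *
    constructor <;> intro hh <;> omega
  | y i' k' =>
    simp only [gin] at he'
    simp only [gp, ga, gb, pos, zpos, cross_pr, arcSpec]
    have hc1 := zone_cmp F.length i (prv n i)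
    have hc2 := zone_cmp F.length i i'
    have hc3 := zone_cmp F.length (prv n i) i'
    have hz : (i = 0 ∧ prv n i = n - 1) ∨ (0 < i ∧ prv n i + 1 = i) := prv_cases n i
    have hg := gap_spec F i j
    generalize prv n i = z at *
    generalize i * Zw F.length = x0 at *
    generalize z * Zw F.length = x1 at *
    generalize i' * Zw F.length = x2 at *
    exact ⟨fun hh => by omega, fun hh => hh.elim⟩
  | u i' k' =>
    simp only [gin] at he'
    simp only [gp, ga, gb, pos, zpos, cross_pr, arcSpec]
    have hc1 := zone_cmp F.length i (prv n i)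
    have hc2 := zone_cmp F.length i i'
    have hc3 := zone_cmp F.length (prv n i) i'
    have hz : (i = 0 ∧ prv n i = n - 1) ∨ (0 < i ∧ prv n i + 1 = i) := prv_cases n i
    have hg := gap_spec F i j
    generalize prv n i = z at *
    generalize i * Zw F.length = x0 at *
    generalize z * Zw F.length = x1 at *
    generalize i' * Zw F.length = x2 at *
    constructor <;> intro hh <;> omega
  | g i' j' =>
    simp only [gin] at he'
    simp only [gp, ga, gb, pos, zpos, cross_pr, arcSpec]
    have hc1 := zone_cmp F.length i (prv n i)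
    have hc2 := zone_cmp F.length i i'
    have hc3 := zone_cmp F.length (prv n i) i'
    have hz : (i = 0 ∧ prv n i = n - 1) ∨ (0 < i ∧ prv n i + 1 = i) := prv_cases n i
    have hg := gap_spec F i j
    have hs' := slot_spec F i' j'
    have he1 : i' = i → slot F i' j' = slot F i j' := fun h => by rw [h]
    generalize prv n i = z at *
    generalize i * Zw F.length = x0 at *
    generalize z * Zw F.length = x1 at *
    generalize i' * Zw F.length = x2 at *
    constructor <;> intro hh <;> omega
  | h i' j' =>
    simp only [gin] at he'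
    simp only [gp, ga, gb, pos, zpos, cross_pr, arcSpec]
    have hc1 := zone_cmp F.length i (prv n i)
    have hc2 := zone_cmp F.length i i'
    have hc3 := zone_cmp F.length i (prv n i')
    have hc4 := zone_cmp F.length (prv n i) i'
    have hc5 := zone_cmp F.length (prv n i) (prv n i')
    have hc6 := zone_cmp F.length i' (prv n i')
    have hz : (i = 0 ∧ prv n i = n - 1) ∨ (0 < i ∧ prv n i + 1 = i) := prv_cases n i
    have hg := gap_spec F i j
    have hz' : (i' = 0 ∧ prv n i' = n - 1) ∨ (0 < i' ∧ prv n i' + 1 = i') := prv_cases n i'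
    have hg' := gap_spec F i' j'
    generalize prv n i = z at *
    generalize prv n i' = z' at *
    generalize i * Zw F.length = x0 at *
    generalize z * Zw F.length = x1 at *
    generalize i' * Zw F.length = x2 at *
    generalize z' * Zw F.length = x3 at *
    exact ⟨fun hh => by omega, fun hh => hh.elim⟩

end Pool.Agent.H72F
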