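import Pool.Agent.Lib.H72F.GadSys
import Pool.Agent.Lib.H72F.ArcV
import Pool.Agent.Lib.H72F.ArcY
import Pool.Agent.Lib.H72F.ArcU
import Pool.Agent.Lib.H72F.ArcG
import Pool.Agent.Lib.H72F.ArcH

/-!
# The arcs of the gadget
-/

set_option autoImplicit false

namespace Pool.Agent.H72F

variable {F : List (List (ℕ × Bool))} {n : ℕ}

theorem arc_iff (hn : 2 ≤ n) {e e' : El} (he : gin F n e) (he' : gin F n e') :
    (gsys F n hn).Arc e e' ↔ arcSpec F n e e' := by
  have he2 : e' ∈ (gels F n).toFinset := List.mem_toFinset.2 (mem_gels.2 he')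
  cases e with
  | v i k => exact arc_v hn he.1 he.2.1 he.2.2 e' he2
  | y i k => exact arc_y hn he.1 he.2.1 he.2.2 e' he2
  | u i k => exact arc_u hn he.1 he.2.1 he.2.2 e' he2
  | g i j => exact arc_g hn he.1 he.2 e' he2
  | h i j => exact arc_h hn he.1 he.2 e' he2

end Pool.Agent.H72F
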