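import Pool.Agent.Lib.H72F.Defs

/-!
# CHUNK F1: first properties of flips; the flip graph
-/

set_option autoImplicit false

namespace Pool.Agent.H72F

variable {n : ℕ} {T T' T'' : Finset (ℕ × ℕ)}

private theorem f1_side {S : Finset (ℕ × ℕ)} {x y : ℕ} {e : ℕ × ℕ} (h : IsSide n S x y)
    (hS : ∀ d ∈ S, ¬ Cross d e) (h2 : e.2 < n) : ¬ Cross (x, y) e := by
  rcases h with h | h | ⟨h, h'⟩
  · exact hS _ h
  · unfold Cross
    simp only
    omega
  · unfold Cross
    simp only
    omega

private theorem f1_side_transfer {x y : ℕ} {r s : ℕ × ℕ} (h : IsSide n T x y) (hr : (x, y) ≠ r) :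
    IsSide n (insert s (T.erase r)) x y := by
  rcases h with h | h | h
  · exact Or.inl (Finset.mem_insert_of_mem (Finset.mem_erase.2 ⟨hr, h⟩))
  · exact Or.inr (Or.inl h)
  · exact Or.inr (Or.inr h)

private theorem f1_cross_symm {d e : ℕ × ℕ} (h : Cross d e) : Cross e d := Or.symm h

private theorem f1_not_cross_self (d : ℕ × ℕ) : ¬ Cross d d := by
  unfold Cross; omega

/-- general exchange: `r` is replaced by `s` and both cross, everything else which crosses `s`
is `r` and everything which crosses `r` and no side is `s`. -/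
private theorem f1_exchange (hT : IsTri n T) {r s : ℕ × ℕ} (_hr : r ∈ T) (hs : IsDiag n s)
    (hrs : Cross r s) (h1 : ∀ t ∈ T, Cross t s → t = r)
    (h2 : ∀ e, IsDiag n e → (∀ d ∈ insert s (T.erase r), ¬ Cross d e) → Cross r e → e = s) :
    IsTri n (insert s (T.erase r)) := by
  obtain ⟨hT1, hT2, hT3⟩ := hT
  refine ⟨?_, ?_, ?_⟩
  · intro d hd
    rcases Finset.mem_insert.1 hd with h | h
    · rw [h]; exact hs
    · exact hT1 d (Finset.mem_of_mem_erase h)
  · intro d hd e he
    rcases Finset.mem_insert.1 hd with h | h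
    · rcases Finset.mem_insert.1 he with h' | h'
      · rw [h, h']; exact f1_not_cross_self _
      · rw [h]
        intro hc
        exact (Finset.ne_of_mem_erase h') (h1 e (Finset.mem_of_mem_erase h') (f1_cross_symm hc))
    · rcases Finset.mem_insert.1 he with h' | h'
      · rw [h']
        intro hc
        exact (Finset.ne_of_mem_erase h) (h1 d (Finset.mem_of_mem_erase h) hc)
      · exact hT2 d (Finset.mem_of_mem_erase h) e (Finset.mem_of_mem_erase h')
  · intro e he hec
    by_cases hre : Cross r e
    · rw [h2 e he hec hre]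
      exact Finset.mem_insert_self _ _
    · have heT : e ∈ T := by
        refine hT3 e he ?_
        intro d hd
        by_cases hdr : d = r
        · rw [hdr]; exact hre
        · exact hec d (Finset.mem_insert_of_mem (Finset.mem_erase.2 ⟨hdr, hd⟩))
      have her : e ≠ r := by
        intro h
        exact hec s (Finset.mem_insert_self _ _) (by rw [h]; exact f1_cross_symm hrs)
      exact Finset.mem_insert_of_mem (Finset.mem_erase.2 ⟨her, heT⟩)

/-- A flip of a triangulation is a triangulation. Proof: let `(a, c)` be replaced by `(b, d)` (the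
other case is the same). A segment `t ∈ T` crossing `(b, d)` crosses one of the four sides unless
`t = (a, c)` (endpoints strictly between `b` and `d`: if it is not `c` then `t` crosses `(b, c)` or
`(c, d)`, since the other endpoint is outside `[b, d]`; similarly for `a`). Maximality: if `e` crosses
nothing in `T'`, then it does not cross the sides; if `e` does not cross `(a, c)` then `e ∈ T`,
`e ≠ (a, c)` as `(a, c)` crosses `(b, d)`; if it does cross `(a, c)` then `e = (b, d)`. (Sides of the
polygon are never crossed by diagonals.) -/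
theorem Flip.isTri (h : Flip n T T') (hT : IsTri n T) : IsTri n T' := by
  obtain ⟨a, b, c, d, hab, hbc, hcd, hdn, sab, sbc, scd, sad, hcase⟩ := h
  rcases hcase with ⟨hm, rfl⟩ | ⟨hm, rfl⟩
  · refine f1_exchange hT hm ⟨by simp only; omega, hdn, by simp only; omega⟩ ?_ ?_ ?_
    · unfold Cross; simp only; omega
    · rintro ⟨u, v⟩ ht hc
      obtain ⟨-, hv, -⟩ := hT.1 _ ht
      have hS : ∀ d ∈ T, ¬ Cross d (u, v) := fun d hd => hT.2.1 d hd _ ht
      have c1 := f1_side sab hS hv
      have c2 := f1_side sbc hS hv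
      have c3 := f1_side scd hS hv
      have c4 := f1_side sad hS hv
      unfold Cross at hc c1 c2 c3 c4
      simp only at hc c1 c2 c3 c4 hv
      rw [Prod.mk.injEq]
      omega
    · rintro ⟨u, v⟩ he hS hc
      have hv : (u, v).2 < n := he.2.1
      have c1 := f1_side (f1_side_transfer (s := (b, d)) sab (r := (a, c))
        (by rw [ne_eq, Prod.mk.injEq]; omega)) hS hv
      have c2 := f1_side (f1_side_transfer (s := (b, d)) sbc (r := (a, c))
        (by rw [ne_eq, Prod.mk.injEq]; omega)) hS hv
      have c3 := f1_side (f1_side_transfer (s := (b, d)) scd (r := (a, c))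
        (by rw [ne_eq, Prod.mk.injEq]; omega)) hS hv
      have c4 := f1_side (f1_side_transfer (s := (b, d)) sad (r := (a, c))
        (by rw [ne_eq, Prod.mk.injEq]; omega)) hS hv
      unfold Cross at hc c1 c2 c3 c4
      simp only at hc c1 c2 c3 c4 hv
      rw [Prod.mk.injEq]
      omega
  · refine f1_exchange hT hm ⟨by simp only; omega, by simp only; omega, by simp only; omega⟩
      ?_ ?_ ?_
    · unfold Cross; simp only; omega
    · rintro ⟨u, v⟩ ht hc
      obtain ⟨-, hv, -⟩ := hT.1 _ ht
      have hS : ∀ d ∈ T, ¬ Cross d (u, v) := fun d hd => hT.2.1 d hd _ ht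
      have c1 := f1_side sab hS hv
      have c2 := f1_side sbc hS hv
      have c3 := f1_side scd hS hv
      have c4 := f1_side sad hS hv
      unfold Cross at hc c1 c2 c3 c4
      simp only at hc c1 c2 c3 c4 hv
      rw [Prod.mk.injEq]
      omega
    · rintro ⟨u, v⟩ he hS hc
      have hv : (u, v).2 < n := he.2.1
      have c1 := f1_side (f1_side_transfer (s := (a, c)) sab (r := (b, d))
        (by rw [ne_eq, Prod.mk.injEq]; omega)) hS hv
      have c2 := f1_side (f1_side_transfer (s := (a, c)) sbc (r := (b, d))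
        (by rw [ne_eq, Prod.mk.injEq]; omega)) hS hv
      have c3 := f1_side (f1_side_transfer (s := (a, c)) scd (r := (b, d))
        (by rw [ne_eq, Prod.mk.injEq]; omega)) hS hv
      have c4 := f1_side (f1_side_transfer (s := (a, c)) sad (r := (b, d))
        (by rw [ne_eq, Prod.mk.injEq]; omega)) hS hv
      unfold Cross at hc c1 c2 c3 c4
      simp only at hc c1 c2 c3 c4 hv
      rw [Prod.mk.injEq]
      omega

private theorem f1_swap_back {r s : ℕ × ℕ} (hr : r ∈ T) (hs : s ∉ T) (hrs : r ≠ s) :
    T = insert r ((insert s (T.erase r)).erase s) := by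
  ext x
  simp only [Finset.mem_insert, Finset.mem_erase]
  constructor
  · intro hx
    by_cases h : x = r
    · exact Or.inl h
    · right
      refine ⟨?_, Or.inr ⟨h, hx⟩⟩
      rintro rfl
      exact hs hx
  · rintro (rfl | ⟨h1, h2 | ⟨_, h2⟩⟩)
    · exact hr
    · exact absurd h2 h1
    · exact h2

theorem Flip.symm (h : Flip n T T') (hT : IsTri n T) : Flip n T' T := by
  obtain ⟨a, b, c, d, hab, hbc, hcd, hdn, sab, sbc, scd, sad, hcase⟩ := h
  rcases hcase with ⟨hm, rfl⟩ | ⟨hm, rfl⟩
  · refine ⟨a, b, c, d, hab, hbc, hcd, hdn, ?_, ?_, ?_, ?_, Or.inr ⟨?_, ?_⟩⟩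
    · exact f1_side_transfer sab (by rw [ne_eq, Prod.mk.injEq]; omega)
    · exact f1_side_transfer sbc (by rw [ne_eq, Prod.mk.injEq]; omega)
    · exact f1_side_transfer scd (by rw [ne_eq, Prod.mk.injEq]; omega)
    · exact f1_side_transfer sad (by rw [ne_eq, Prod.mk.injEq]; omega)
    · exact Finset.mem_insert_self _ _
    · refine f1_swap_back hm ?_ (by rw [ne_eq, Prod.mk.injEq]; omega)
      intro hbd
      refine hT.2.1 _ hm _ hbd ?_
      unfold Cross; simp only; omega
  · refine ⟨a, b, c, d, hab, hbc, hcd, hdn, ?_, ?_, ?_, ?_, Or.inl ⟨?_, ?_⟩⟩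
    · exact f1_side_transfer sab (by rw [ne_eq, Prod.mk.injEq]; omega)
    · exact f1_side_transfer sbc (by rw [ne_eq, Prod.mk.injEq]; omega)
    · exact f1_side_transfer scd (by rw [ne_eq, Prod.mk.injEq]; omega)
    · exact f1_side_transfer sad (by rw [ne_eq, Prod.mk.injEq]; omega)
    · exact Finset.mem_insert_self _ _
    · refine f1_swap_back hm ?_ (by rw [ne_eq, Prod.mk.injEq]; omega)
      intro hbd
      refine hT.2.1 _ hm _ hbd ?_
      unfold Cross; simp only; omega

/-- what is removed and what is inserted by a flip -/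
theorem Flip.exists_exchange (h : Flip n T T') (hT : IsTri n T) :
    ∃ x y : ℕ × ℕ, x ∈ T ∧ y ∉ T ∧ Cross x y ∧ T' = insert y (T.erase x) := by
  obtain ⟨a, b, c, d, hab, hbc, hcd, hdn, sab, sbc, scd, sad, hcase⟩ := h
  rcases hcase with ⟨hm, rfl⟩ | ⟨hm, rfl⟩
  · have hc : Cross (a, c) (b, d) := by unfold Cross; simp only; omega
    exact ⟨(a, c), (b, d), hm, fun h => hT.2.1 _ hm _ h hc, hc, rfl⟩
  · have hc : Cross (b, d) (a, c) := by unfold Cross; simp only; omega
    exact ⟨(b, d), (a, c), hm, fun h => hT.2.1 _ hm _ h hc, hc, rfl⟩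

theorem Flip.ne (h : Flip n T T') (hT : IsTri n T) : T ≠ T' := by
  obtain ⟨x, y, _, hy, _, he⟩ := Flip.exists_exchange h hT
  intro h'
  apply hy
  rw [h', he]
  exact Finset.mem_insert_self _ _

/-- The flip graph of the convex `n`-gon: the vertices are the triangulations, two of them are
adjacent if they differ by a flip. -/
def flipGraph (n : ℕ) : SimpleGraph {T : Finset (ℕ × ℕ) // IsTri n T} where
  Adj T T' := Flip n T.1 T'.1
  symm := ⟨fun T _ h => Flip.symm h T.2⟩
  loopless := ⟨fun T h => Flip.ne h T.2 rfl⟩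

theorem Steps.refl (hT : IsTri n T) : Steps n 0 T T :=
  ⟨fun _ => T, rfl, rfl, fun _ _ => hT, fun i hi => absurd hi (Nat.not_lt_zero i)⟩

theorem Steps.trans {L L' : ℕ} (h : Steps n L T T') (h' : Steps n L' T' T'') :
    Steps n (L + L') T T'' := by
  obtain ⟨f, f0, fL, ft, fs⟩ := h
  obtain ⟨g, g0, gL, gt, gs⟩ := h'
  refine ⟨fun i => if i ≤ L then f i else g (i - L), ?_, ?_, ?_, ?_⟩
  · simp [f0]
  · by_cases hL : L' = 0
    · subst hL
      simp only [add_zero, le_refl, if_true]
      rw [fL, ← gL, g0]
    · have : ¬ L + L' ≤ L := by omega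
      simp only [this, if_false]
      rw [Nat.add_sub_cancel_left, gL]
  · intro i hi
    by_cases h : i ≤ L
    · simp only [h, if_true]; exact ft i h
    · simp only [h, if_false]; exact gt _ (by omega)
  · intro i hi
    by_cases h : i + 1 ≤ L
    · have h' : i ≤ L := by omega
      simp only [h, h', if_true]; exact fs i h
    · by_cases h' : i ≤ L
      · have e : i = L := by omega
        subst e
        simp only [h, le_refl, if_true, if_false]
        rw [fL, ← g0]
        have := gs 0 (by omega)
        have e2 : i + 1 - i = 0 + 1 := by omega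
        rw [e2]
        exact this
      · simp only [h, h', if_false]
        have := gs (i - L) (by omega)
        have e2 : i + 1 - L = i - L + 1 := by omega
        rw [e2]
        exact this

theorem Steps.symm {L : ℕ} (h : Steps n L T T') : Steps n L T' T := by
  obtain ⟨f, f0, fL, ft, fs⟩ := h
  refine ⟨fun i => f (L - i), ?_, ?_, ?_, ?_⟩
  · simpa using fL
  · simpa using f0
  · intro i hi
    exact ft _ (by omega)
  · intro i hi
    have h1 := fs (L - (i + 1)) (by omega)
    have h2 := Flip.symm h1 (ft _ (by omega))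
    have e : L - (i + 1) + 1 = L - i := by omega
    rw [e] at h2
    exact h2

theorem Steps.single (hT : IsTri n T) (h : Flip n T T') : Steps n 1 T T' := by
  refine ⟨fun i => if i = 0 then T else T', by simp, by simp, ?_, ?_⟩
  · intro i _
    by_cases hi : i = 0
    · simp only [hi, if_true]; exact hT
    · simp only [hi, if_false]; exact h.isTri hT
  · intro i hi
    have : i = 0 := by omega
    subst this
    simpa using h

theorem Steps.isTri_left {L : ℕ} (h : Steps n L T T') : IsTri n T := by
  obtain ⟨f, f0, fL, ft, fs⟩ := h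
  rw [← f0]
  exact ft 0 (Nat.zero_le _)

theorem Steps.isTri_right {L : ℕ} (h : Steps n L T T') : IsTri n T' := by
  obtain ⟨f, f0, fL, ft, fs⟩ := h
  rw [← fL]
  exact ft L le_rfl

/-- a path of flips bounds the distance -/
theorem Steps.dist_le {L : ℕ} (h : Steps n L T T') (hT : IsTri n T) (hT' : IsTri n T') :
    (flipGraph n).Reachable ⟨T, hT⟩ ⟨T', hT'⟩ ∧ (flipGraph n).dist ⟨T, hT⟩ ⟨T', hT'⟩ ≤ L := by
  obtain ⟨f, f0, fL, ft, fs⟩ := h
  subst f0
  subst fL
  have key : ∀ k (hk : k ≤ L), ∃ p : (flipGraph n).Walk ⟨f 0, hT⟩ ⟨f k, ft k hk⟩,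
      p.length = k := by
    intro k
    induction k with
    | zero => intro hk; exact ⟨SimpleGraph.Walk.nil, rfl⟩
    | succ k ih =>
      intro hk
      obtain ⟨p, hp⟩ := ih (by omega)
      have hadj : (flipGraph n).Adj ⟨f k, ft k (by omega)⟩ ⟨f (k + 1), ft (k + 1) hk⟩ :=
        fs k (by omega)
      exact ⟨p.concat hadj, by rw [SimpleGraph.Walk.length_concat, hp]⟩
  obtain ⟨p, hp⟩ := key L le_rfl
  exact ⟨⟨p⟩, (SimpleGraph.dist_le p).trans hp.le⟩

/-- the distance is the length of some path of flips -/
theorem exists_steps_dist (hT : IsTri n T) (hT' : IsTri n T')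
    (h : (flipGraph n).Reachable ⟨T, hT⟩ ⟨T', hT'⟩) :
    Steps n ((flipGraph n).dist ⟨T, hT⟩ ⟨T', hT'⟩) T T' := by
  have key : ∀ (u v : {T : Finset (ℕ × ℕ) // IsTri n T}) (p : (flipGraph n).Walk u v),
      Steps n p.length u.1 v.1 := by
    intro u v p
    induction p with
    | nil => exact Steps.refl (Subtype.property _)
    | cons h p ih =>
      have := Steps.trans (Steps.single (Subtype.property _) h) ih
      rw [SimpleGraph.Walk.length_cons, add_comm]
      exact this
  obtain ⟨p, hp⟩ := h.exists_walk_length_eq_dist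
  rw [← hp]
  exact key _ _ p

end Pool.Agent.H72F
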