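import Pool.Agent.Lib.H72F.Defs

/-!
# CHUNK F2: number of diagonals, extension to a triangulation
-/

set_option autoImplicit false

namespace Pool.Agent.H72F

private theorem f2_cross_symm {d e : ℕ × ℕ} (h : Cross d e) : Cross e d := Or.symm h

private theorem f2_not_cross_self (d : ℕ × ℕ) : ¬ Cross d d := by
  unfold Cross; omega

/-- Pairwise non-crossing segments (possibly sides of the polygon) are contained in a
triangulation: extend the set of those which are diagonals to a maximal one. -/
theorem exists_tri {n : ℕ} {C : Finset (ℕ × ℕ)} (h1 : ∀ d ∈ C, d.1 < d.2 ∧ d.2 < n)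
    (h2 : ∀ d ∈ C, ∀ e ∈ C, ¬ Cross d e) :
    ∃ T, IsTri n T ∧ ∀ d ∈ C, IsSide n T d.1 d.2 := by
  classical
  set D : Finset (ℕ × ℕ) := (Finset.range n ×ˢ Finset.range n).filter (IsDiag n) with hD
  have hDmem : ∀ d, IsDiag n d → d ∈ D := by
    intro d hd
    have hd' := hd
    obtain ⟨a, b, _⟩ := hd
    simp only [hD, Finset.mem_filter, Finset.mem_product, Finset.mem_range]
    exact ⟨⟨by omega, by omega⟩, hd'⟩
  set Fam : Finset (Finset (ℕ × ℕ)) := D.powerset.filter (fun S =>
    (C.filter (IsDiag n) ⊆ S) ∧ ∀ d ∈ S, ∀ e ∈ S, ¬ Cross d e) with hFam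
  have hne : Fam.Nonempty := by
    refine ⟨C.filter (IsDiag n), ?_⟩
    simp only [hFam, Finset.mem_filter, Finset.mem_powerset]
    refine ⟨?_, subset_rfl, ?_⟩
    · intro d hd
      exact hDmem d (Finset.mem_filter.1 hd).2
    · rintro d ⟨hd, _⟩ e ⟨he, _⟩
      exact h2 d hd e he
  obtain ⟨T, hTF, hTmax⟩ := Finset.exists_max_image Fam Finset.card hne
  simp only [hFam, Finset.mem_filter, Finset.mem_powerset] at hTF
  obtain ⟨hTD, hCT, hTc⟩ := hTF
  refine ⟨T, ⟨?_, hTc, ?_⟩, ?_⟩
  · intro d hd
    exact (Finset.mem_filter.1 (hTD hd)).2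
  · intro e he hec
    by_contra heT
    have hin : insert e T ∈ Fam := by
      simp only [hFam, Finset.mem_filter, Finset.mem_powerset]
      refine ⟨?_, ?_, ?_⟩
      · intro d hd
        rcases Finset.mem_insert.1 hd with rfl | hd
        · exact hDmem _ he
        · exact hTD hd
      · exact hCT.trans (Finset.subset_insert _ _)
      · intro d hd d' hd'
        rcases Finset.mem_insert.1 hd with h3 | h3
        · rcases Finset.mem_insert.1 hd' with h4 | h4
          · rw [h3, h4]
            exact f2_not_cross_self _
          · rw [h3]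
            exact fun h => hec d' h4 (f2_cross_symm h)
        · rcases Finset.mem_insert.1 hd' with h4 | h4
          · rw [h4]
            exact hec d h3
          · exact hTc d h3 d' h4
    have := hTmax _ hin
    rw [Finset.card_insert_of_notMem heT] at this
    omega
  · intro d hd
    obtain ⟨a, b⟩ := h1 d hd
    by_cases hdd : IsDiag n d
    · exact Or.inl (hCT (Finset.mem_filter.2 ⟨hd, hdd⟩))
    · right
      unfold IsDiag at hdd
      by_cases hc : d.2 = d.1 + 1
      · exact Or.inl hc
      · right
        by_contra hc'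
        exact hdd ⟨by omega, b, hc'⟩

/-- nothing in `T` crosses a side -/
private theorem f2_side_not_cross {n : ℕ} {T : Finset (ℕ × ℕ)} (hT : IsTri n T) {x y : ℕ}
    (h : IsSide n T x y) {d : ℕ × ℕ} (hd : d ∈ T) : ¬ Cross d (x, y) := by
  rcases h with h | h | ⟨h, h'⟩
  · exact hT.2.1 d hd _ h
  · unfold Cross
    simp only
    omega
  · obtain ⟨_, hd2, _⟩ := hT.1 d hd
    unfold Cross
    simp only
    omega

/-- The inner third vertex: in a triangulation, below every segment `(x, y)`, `x + 2 ≤ y`, which is
in `T` or the side `(0, n-1)`, there is a triangle `x < z < y`. Proof: let `z < y` be maximal with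
`IsSide n T x z` (`z = x + 1` is possible). If `(z, y)` were not a side or in `T`, by maximality of `T`
something in `T` would cross `(z, y)` (as it is a diagonal); take the crossing segment `(u, v)` ... it
has one endpoint in `(z, y)` and the other one in `[x, z)` (nothing crosses `(x, y)`), hence the
endpoint is `x` (nothing crosses `(x, z)`), contradiction to the choice of `z`. -/
theorem exists_third {n : ℕ} {T : Finset (ℕ × ℕ)} (hT : IsTri n T) {x y : ℕ} (hxy : x + 2 ≤ y)
    (hy : y < n) (h : IsSide n T x y) :
    ∃ z, x < z ∧ z < y ∧ IsSide n T x z ∧ IsSide n T z y := by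
  classical
  obtain ⟨z, hz, hzmax⟩ := Finset.exists_max_image
    ((Finset.Ioo x y).filter (fun z => IsSide n T x z)) id
    ⟨x + 1, by
      simp only [Finset.mem_filter, Finset.mem_Ioo]
      exact ⟨⟨by omega, by omega⟩, Or.inr (Or.inl rfl)⟩⟩
  simp only [Finset.mem_filter, Finset.mem_Ioo, id] at hz hzmax
  obtain ⟨⟨hxz, hzy⟩, hs⟩ := hz
  refine ⟨z, hxz, hzy, hs, ?_⟩
  by_cases hc : y = z + 1
  · exact Or.inr (Or.inl hc)
  · left
    refine hT.2.2 (z, y) ⟨by simp only; omega, hy, by simp only; omega⟩ ?_
    rintro ⟨u, v⟩ huv hcr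
    have hA := f2_side_not_cross hT h huv
    have hB := f2_side_not_cross hT hs huv
    obtain ⟨hd1, hd2, _⟩ := hT.1 _ huv
    unfold Cross at hcr hA hB
    simp only at hcr hA hB hd1 hd2
    rcases hcr with hcr | hcr
    · by_cases hux : u = x
      · subst hux
        have := hzmax v ⟨⟨by omega, by omega⟩, Or.inl huv⟩
        omega
      · omega
    · omega

private theorem f2_count {n : ℕ} {T : Finset (ℕ × ℕ)} (hT : IsTri n T) : ∀ k x y : ℕ, y - x ≤ k →
    x < y → y < n → IsSide n T x y →
    (T.filter (fun d => x ≤ d.1 ∧ d.2 ≤ y ∧ d ≠ (x, y))).card = y - x - 2 := by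
  classical
  intro k
  induction k with
  | zero => intro x y h1 h2; omega
  | succ k ih =>
    intro x y hk hxy hyn hs
    by_cases h2 : y = x + 1
    · have : T.filter (fun d => x ≤ d.1 ∧ d.2 ≤ y ∧ d ≠ (x, y)) = ∅ := by
        rw [Finset.filter_eq_empty_iff]
        rintro d hd ⟨h3, h4, _⟩
        obtain ⟨h5, _, _⟩ := hT.1 d hd
        omega
      rw [this, Finset.card_empty]
      omega
    · obtain ⟨z, hxz, hzy, s1, s2⟩ := exists_third hT (by omega) hyn hs
      have e1 := ih x z (by omega) hxz (by omega) s1
      have e2 := ih z y (by omega) hzy hyn s2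
      -- the parts including the segment itself
      have f1 : (T.filter (fun d => x ≤ d.1 ∧ d.2 ≤ z)).card = z - x - 1 := by
        by_cases hc : z = x + 1
        · have : T.filter (fun d => x ≤ d.1 ∧ d.2 ≤ z) = ∅ := by
            rw [Finset.filter_eq_empty_iff]
            rintro d hd ⟨h3, h4⟩
            obtain ⟨h5, _, _⟩ := hT.1 d hd
            omega
          rw [this, Finset.card_empty]
          omega
        · have hm : (x, z) ∈ T := by
            rcases s1 with s1 | s1 | s1
            · exact s1
            · exact absurd s1 hc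
            · omega
          have : T.filter (fun d => x ≤ d.1 ∧ d.2 ≤ z) =
              insert (x, z) (T.filter (fun d => x ≤ d.1 ∧ d.2 ≤ z ∧ d ≠ (x, z))) := by
            ext d
            simp only [Finset.mem_filter, Finset.mem_insert]
            constructor
            · rintro ⟨h3, h4, h5⟩
              by_cases hd : d = (x, z)
              · exact Or.inl hd
              · exact Or.inr ⟨h3, h4, h5, hd⟩
            · rintro (rfl | ⟨h3, h4, h5, _⟩)
              · exact ⟨hm, le_rfl, le_rfl⟩
              · exact ⟨h3, h4, h5⟩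
          rw [this, Finset.card_insert_of_notMem (by simp), e1]
          omega
      have f2 : (T.filter (fun d => z ≤ d.1 ∧ d.2 ≤ y)).card = y - z - 1 := by
        by_cases hc : y = z + 1
        · have : T.filter (fun d => z ≤ d.1 ∧ d.2 ≤ y) = ∅ := by
            rw [Finset.filter_eq_empty_iff]
            rintro d hd ⟨h3, h4⟩
            obtain ⟨h5, _, _⟩ := hT.1 d hd
            omega
          rw [this, Finset.card_empty]
          omega
        · have hm : (z, y) ∈ T := by
            rcases s2 with s2 | s2 | s2
            · exact s2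
            · exact absurd s2 hc
            · omega
          have : T.filter (fun d => z ≤ d.1 ∧ d.2 ≤ y) =
              insert (z, y) (T.filter (fun d => z ≤ d.1 ∧ d.2 ≤ y ∧ d ≠ (z, y))) := by
            ext d
            simp only [Finset.mem_filter, Finset.mem_insert]
            constructor
            · rintro ⟨h3, h4, h5⟩
              by_cases hd : d = (z, y)
              · exact Or.inl hd
              · exact Or.inr ⟨h3, h4, h5, hd⟩
            · rintro (rfl | ⟨h3, h4, h5, _⟩)
              · exact ⟨hm, le_rfl, le_rfl⟩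
              · exact ⟨h3, h4, h5⟩
          rw [this, Finset.card_insert_of_notMem (by simp), e2]
          omega
      have hsplit : T.filter (fun d => x ≤ d.1 ∧ d.2 ≤ y ∧ d ≠ (x, y)) =
          T.filter (fun d => x ≤ d.1 ∧ d.2 ≤ z) ∪ T.filter (fun d => z ≤ d.1 ∧ d.2 ≤ y) := by
        ext ⟨u, v⟩
        simp only [Finset.mem_filter, Finset.mem_union, ne_eq, Prod.mk.injEq, not_and]
        constructor
        · rintro ⟨h3, h4, h5, h6⟩
          have hA := f2_side_not_cross hT s1 h3
          have hB := f2_side_not_cross hT s2 h3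
          unfold Cross at hA hB
          simp only at hA hB
          by_cases c1 : v ≤ z
          · exact Or.inl ⟨h3, h4, c1⟩
          · by_cases c2 : z ≤ u
            · exact Or.inr ⟨h3, c2, h5⟩
            · exfalso
              by_cases c3 : u = x
              · have := h6 c3
                omega
              · omega
        · rintro (⟨h3, h4, h5⟩ | ⟨h3, h4, h5⟩)
          · exact ⟨h3, h4, by omega, by intro _; omega⟩
          · exact ⟨h3, by omega, h5, by intro _; omega⟩
      rw [hsplit, Finset.card_union_of_disjoint, f1, f2]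
      · omega
      · rw [Finset.disjoint_left]
        rintro d hd hd'
        obtain ⟨h3, h4, h5⟩ := Finset.mem_filter.1 hd
        obtain ⟨_, h6, h7⟩ := Finset.mem_filter.1 hd'
        obtain ⟨h8, _, _⟩ := hT.1 d h3
        omega

/-- A triangulation of the `n`-gon has `n - 3` diagonals. Proof: by strong induction on `y - x`, if
`IsSide n T x y`, then the number of `(u, v) ∈ T` with `x ≤ u`, `v ≤ y`, `(u, v) ≠ (x, y)` is
`y - x - 2` (truncated), by `exists_third`. -/
theorem IsTri.card {n : ℕ} {T : Finset (ℕ × ℕ)} (hn : 3 ≤ n) (hT : IsTri n T) :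
    T.card + 3 = n := by
  classical
  have h := f2_count hT (n - 1) 0 (n - 1) (by omega) (by omega) (by omega)
    (Or.inr (Or.inr ⟨rfl, by omega⟩))
  have e : T.filter (fun d => 0 ≤ d.1 ∧ d.2 ≤ n - 1 ∧ d ≠ (0, n - 1)) = T := by
    rw [Finset.filter_eq_self]
    rintro ⟨u, v⟩ hd
    obtain ⟨h1, h2, h3⟩ := hT.1 _ hd
    simp only at h1 h2 h3
    refine ⟨Nat.zero_le _, by simp only; omega, ?_⟩
    simp only [ne_eq, Prod.mk.injEq, not_and]
    intro _
    omega
  rw [e] at h
  omega

end Pool.Agent.H72F
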