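import Mathlib

/-!
# Triangulations of a convex polygon, flips, the flip graph

The vertices of the polygon are `0, …, n-1`. A diagonal is a pair `(x, y)` with `x < y`.
-/

set_option autoImplicit false

namespace Pool.Agent.H72F

/-- `(x, y)` is a diagonal of the convex polygon with vertices `0, …, n - 1` -/
def IsDiag (n : ℕ) (d : ℕ × ℕ) : Prop := d.1 + 2 ≤ d.2 ∧ d.2 < n ∧ ¬ (d.1 = 0 ∧ d.2 + 1 = n)

/-- the segments `d` and `e` (smaller endpoint first) cross -/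
def Cross (d e : ℕ × ℕ) : Prop :=
  (d.1 < e.1 ∧ e.1 < d.2 ∧ d.2 < e.2) ∨ (e.1 < d.1 ∧ d.1 < e.2 ∧ e.2 < d.2)

instance (d e : ℕ × ℕ) : Decidable (Cross d e) := by unfold Cross; infer_instance

instance (n : ℕ) (d : ℕ × ℕ) : Decidable (IsDiag n d) := by unfold IsDiag; infer_instance

/-- A triangulation: a maximal set of pairwise non-crossing diagonals. -/
def IsTri (n : ℕ) (T : Finset (ℕ × ℕ)) : Prop :=
  (∀ d ∈ T, IsDiag n d) ∧ (∀ d ∈ T, ∀ e ∈ T, ¬ Cross d e) ∧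
    ∀ e, IsDiag n e → (∀ d ∈ T, ¬ Cross d e) → e ∈ T

/-- the segment from `x` to `y` (`x < y`) is in `T` or a side of the polygon -/
def IsSide (n : ℕ) (T : Finset (ℕ × ℕ)) (x y : ℕ) : Prop :=
  (x, y) ∈ T ∨ y = x + 1 ∨ (x = 0 ∧ y + 1 = n)

/-- `T'` arises from `T` by a flip: for a quadrilateral `a < b < c < d` whose four sides are in `T`
or sides of the polygon, one diagonal of the quadrilateral is replaced by the other one. -/
def Flip (n : ℕ) (T T' : Finset (ℕ × ℕ)) : Prop :=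
  ∃ a b c d : ℕ, a < b ∧ b < c ∧ c < d ∧ d < n ∧
    IsSide n T a b ∧ IsSide n T b c ∧ IsSide n T c d ∧ IsSide n T a d ∧
    (((a, c) ∈ T ∧ T' = insert (b, d) (T.erase (a, c))) ∨
      ((b, d) ∈ T ∧ T' = insert (a, c) (T.erase (b, d))))

/-- paths of flips -/
def Steps (n : ℕ) (L : ℕ) (T T' : Finset (ℕ × ℕ)) : Prop :=
  ∃ f : ℕ → Finset (ℕ × ℕ), f 0 = T ∧ f L = T' ∧ (∀ i ≤ L, IsTri n (f i)) ∧
    ∀ i < L, Flip n (f i) (f (i + 1))

end Pool.Agent.H72F
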