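import Pool.Agent.Lib.H72F.Basic

/-!
# CHUNK F4: switching a fan from one apex to another one
-/

set_option autoImplicit false

namespace Pool.Agent.H72F

/-- the segment with the endpoints `x` and `y`, smaller endpoint first -/
def pr (x y : ℕ) : ℕ × ℕ := (min x y, max x y)

/-- `IsSide` for unordered endpoints -/
def IsS (n : ℕ) (T : Finset (ℕ × ℕ)) (x y : ℕ) : Prop := IsSide n T (pr x y).1 (pr x y).2

/-- The cyclic order is: the chain `s, s+1, …, s+r`, then `a`, then `b`. -/
def CycOrd (s r a b : ℕ) : Prop :=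
  (s + r < a ∧ a < b) ∨ (b < s ∧ s + r < a) ∨ (a < b ∧ b < s)

private lemma pr_lt {x y : ℕ} (h : x < y) : pr x y = (x, y) := by
  simp [pr, h.le]

private lemma pr_gt {x y : ℕ} (h : y < x) : pr x y = (y, x) := by
  simp [pr, h.le]

private lemma pr_eq_pr {x y u v : ℕ} (h : pr x y = pr u v) : (x = u ∧ y = v) ∨ (x = v ∧ y = u) := by
  simp only [pr, Prod.mk.injEq] at h
  omega

private lemma IsS.keep {n x y : ℕ} {T : Finset (ℕ × ℕ)} {e f : ℕ × ℕ} (h : IsS n T x y)
    (he : pr x y ≠ e) : IsS n (insert f (T.erase e)) x y := by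
  rcases h with h | h | h
  · exact Or.inl (Finset.mem_insert_of_mem (Finset.mem_erase.mpr ⟨he, h⟩))
  · exact Or.inr (Or.inl h)
  · exact Or.inr (Or.inr h)

private lemma IsS.new {n x y : ℕ} {T : Finset (ℕ × ℕ)} : IsS n (insert (pr x y) T) x y :=
  Or.inl (Finset.mem_insert_self _ _)

private lemma ord_ne {s r a b i : ℕ} (ho : CycOrd s r a b) (hi : i ≤ r) :
    a ≠ b ∧ a ≠ s + i ∧ b ≠ s + i := by
  unfold CycOrd at ho
  omega

/-- the diagonal from `a` is a true diagonal -/
private lemma mem_a {n s r a b i : ℕ} {T : Finset (ℕ × ℕ)} (hs : s + r < n)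
    (ha : a < n) (hb : b < n) (ho : CycOrd s r a b) (hi : i < r) (h : IsS n T a (s + i)) :
    pr a (s + i) ∈ T := by
  unfold CycOrd at ho
  rcases h with h | h | h
  · exact h
  · exfalso
    simp only [pr] at h
    omega
  · exfalso
    simp only [pr] at h
    omega

/-- the diagonal from `b` is a true diagonal -/
private lemma mem_b {n s r a b i : ℕ} {T : Finset (ℕ × ℕ)} (hs : s + r < n)
    (ha : a < n) (hb : b < n) (ho : CycOrd s r a b) (hi : i < r) (h : IsS n T b (s + (i + 1))) :
    pr b (s + (i + 1)) ∈ T := by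
  unfold CycOrd at ho
  rcases h with h | h | h
  · exact h
  · exfalso
    simp only [pr] at h
    omega
  · exfalso
    simp only [pr] at h
    omega

private lemma quad {n s r a b i : ℕ} {T : Finset (ℕ × ℕ)} (hs : s + r < n)
    (ha : a < n) (hb : b < n) (ho : CycOrd s r a b) (hi : i < r)
    (h1 : IsS n T a (s + (i + 1))) (h2 : IsS n T a b) (h3 : IsS n T b (s + i)) :
    (pr a (s + i) ∈ T → Flip n T (insert (pr b (s + (i + 1))) (T.erase (pr a (s + i))))) ∧
    (pr b (s + (i + 1)) ∈ T →
      Flip n T (insert (pr a (s + i)) (T.erase (pr b (s + (i + 1)))))) := by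
  have hxy : IsSide n T (s + i) (s + (i + 1)) := Or.inr (Or.inl (by omega))
  unfold IsS at h1 h2 h3
  rcases ho with ho | ho | ho
  · have e1 : pr a (s + (i + 1)) = (s + (i + 1), a) := pr_gt (by omega)
    have e2 : pr a b = (a, b) := pr_lt (by omega)
    have e3 : pr b (s + i) = (s + i, b) := pr_gt (by omega)
    have e4 : pr a (s + i) = (s + i, a) := pr_gt (by omega)
    have e5 : pr b (s + (i + 1)) = (s + (i + 1), b) := pr_gt (by omega)
    rw [e1] at h1
    rw [e2] at h2
    rw [e3] at h3
    rw [e4, e5]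
    exact ⟨fun h => ⟨s + i, s + (i + 1), a, b, by omega, by omega, by omega, hb, hxy, h1, h2, h3,
        Or.inl ⟨h, rfl⟩⟩,
      fun h => ⟨s + i, s + (i + 1), a, b, by omega, by omega, by omega, hb, hxy, h1, h2, h3,
        Or.inr ⟨h, rfl⟩⟩⟩
  · have e1 : pr a (s + (i + 1)) = (s + (i + 1), a) := pr_gt (by omega)
    have e2 : pr a b = (b, a) := pr_gt (by omega)
    have e3 : pr b (s + i) = (b, s + i) := pr_lt (by omega)
    have e4 : pr a (s + i) = (s + i, a) := pr_gt (by omega)
    have e5 : pr b (s + (i + 1)) = (b, s + (i + 1)) := pr_lt (by omega)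
    rw [e1] at h1
    rw [e2] at h2
    rw [e3] at h3
    rw [e4, e5]
    exact ⟨fun h => ⟨b, s + i, s + (i + 1), a, by omega, by omega, by omega, ha, h3, hxy, h1, h2,
        Or.inr ⟨h, rfl⟩⟩,
      fun h => ⟨b, s + i, s + (i + 1), a, by omega, by omega, by omega, ha, h3, hxy, h1, h2,
        Or.inl ⟨h, rfl⟩⟩⟩
  · have e1 : pr a (s + (i + 1)) = (a, s + (i + 1)) := pr_lt (by omega)
    have e2 : pr a b = (a, b) := pr_lt (by omega)
    have e3 : pr b (s + i) = (b, s + i) := pr_lt (by omega)
    have e4 : pr a (s + i) = (a, s + i) := pr_lt (by omega)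
    have e5 : pr b (s + (i + 1)) = (b, s + (i + 1)) := pr_lt (by omega)
    rw [e1] at h1
    rw [e2] at h2
    rw [e3] at h3
    rw [e4, e5]
    exact ⟨fun h => ⟨a, b, s + i, s + (i + 1), by omega, by omega, by omega, by omega, h2, h3, hxy,
        h1, Or.inl ⟨h, rfl⟩⟩,
      fun h => ⟨a, b, s + i, s + (i + 1), by omega, by omega, by omega, by omega, h2, h3, hxy,
        h1, Or.inr ⟨h, rfl⟩⟩⟩

/-- Switching the fan over the chain `s, …, s+r` from the apex `a` to the apex `b`, by `r` flips.
The flips are `pr a (s+i) → pr b (s+i+1)` for `i = 0, …, r-1`; the quadrilateral is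
`s+i, s+i+1, a, b`. All other elements of `T` are kept. -/
theorem fan_switch {n s r a b : ℕ} {T : Finset (ℕ × ℕ)} (hT : IsTri n T) (hs : s + r < n)
    (ha : a < n) (hb : b < n) (ho : CycOrd s r a b) (h1 : ∀ i ≤ r, IsS n T a (s + i))
    (h2 : IsS n T a b) (h3 : IsS n T b s) :
    ∃ T', Steps n r T T' ∧ (∀ i ≤ r, IsS n T' b (s + i)) ∧ IsS n T' a b ∧ IsS n T' a (s + r) ∧
      ∀ d ∈ T, (∀ i < r, d ≠ pr a (s + i)) → d ∈ T' := by
  have key : ∀ m ≤ r, ∃ T', Steps n m T T' ∧ (∀ i ≤ m, IsS n T' b (s + i)) ∧ IsS n T' a b ∧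
      (∀ i, m ≤ i → i ≤ r → IsS n T' a (s + i)) ∧
      ∀ d ∈ T, (∀ i < m, d ≠ pr a (s + i)) → d ∈ T' := by
    intro m
    induction m with
    | zero =>
      intro _
      refine ⟨T, Steps.refl hT, ?_, h2, fun i _ hi => h1 i hi, fun d hd _ => hd⟩
      intro i hi
      obtain rfl : i = 0 := by omega
      simpa using h3
    | succ m ih =>
      intro hm
      obtain ⟨T', hst, hb', hab, ha', hk⟩ := ih (by omega)
      have hmem := mem_a hs ha hb ho (show m < r by omega) (ha' m le_rfl (by omega))
      have hfl := (quad hs ha hb ho (show m < r by omega) (ha' (m + 1) (by omega) hm) hab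
        (hb' m le_rfl)).1 hmem
      refine ⟨_, hst.trans (Steps.single hst.isTri_right hfl), ?_, ?_, ?_, ?_⟩
      · intro i hi
        rcases Nat.lt_or_ge i (m + 1) with h | h
        · refine (hb' i (by omega)).keep fun he => ?_
          have := pr_eq_pr he
          have := ord_ne ho (show m ≤ r by omega)
          omega
        · obtain rfl : i = m + 1 := by omega
          exact IsS.new
      · refine hab.keep fun he => ?_
        have := pr_eq_pr he
        have := ord_ne ho (show m ≤ r by omega)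
        omega
      · intro i hi hir
        refine (ha' i (by omega) hir).keep fun he => ?_
        have := pr_eq_pr he
        have := ord_ne ho (show m ≤ r by omega)
        omega
      · intro d hd hne
        refine Finset.mem_insert_of_mem (Finset.mem_erase.mpr ⟨hne m (by omega), ?_⟩)
        exact hk d hd fun i hi => hne i (by omega)
  obtain ⟨T', hst, hb', hab, ha', hk⟩ := key r le_rfl
  exact ⟨T', hst, hb', hab, ha' r le_rfl le_rfl, hk⟩

/-- Switching back: from the apex `b` to the apex `a`. -/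
theorem fan_switch_back {n s r a b : ℕ} {T : Finset (ℕ × ℕ)} (hT : IsTri n T) (hs : s + r < n)
    (ha : a < n) (hb : b < n) (ho : CycOrd s r a b) (h1 : ∀ i ≤ r, IsS n T b (s + i))
    (h2 : IsS n T a b) (h3 : IsS n T a (s + r)) :
    ∃ T', Steps n r T T' ∧ (∀ i ≤ r, IsS n T' a (s + i)) ∧ IsS n T' a b ∧ IsS n T' b s ∧
      ∀ d ∈ T, (∀ i < r, d ≠ pr b (s + (i + 1))) → d ∈ T' := by
  have key : ∀ j m, m + j = r → ∃ T', Steps n j T T' ∧ (∀ i, m ≤ i → i ≤ r → IsS n T' a (s + i)) ∧
      IsS n T' a b ∧ (∀ i ≤ m, IsS n T' b (s + i)) ∧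
      ∀ d ∈ T, (∀ i, m ≤ i → i < r → d ≠ pr b (s + (i + 1))) → d ∈ T' := by
    intro j
    induction j with
    | zero =>
      intro m hm
      refine ⟨T, Steps.refl hT, ?_, h2, fun i hi => h1 i (by omega), fun d hd _ => hd⟩
      intro i hi hir
      obtain rfl : i = r := by omega
      exact h3
    | succ j ih =>
      intro m hm
      obtain ⟨T', hst, ha', hab, hb', hk⟩ := ih (m + 1) (by omega)
      have hmem := mem_b hs ha hb ho (show m < r by omega) (hb' (m + 1) le_rfl)
      have hfl := (quad hs ha hb ho (show m < r by omega) (ha' (m + 1) le_rfl (by omega)) hab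
        (hb' m (by omega))).2 hmem
      refine ⟨_, hst.trans (Steps.single hst.isTri_right hfl), ?_, ?_, ?_, ?_⟩
      · intro i hi hir
        rcases Nat.lt_or_ge m i with h | h
        · refine (ha' i (by omega) hir).keep fun he => ?_
          have := pr_eq_pr he
          have := ord_ne ho (show m + 1 ≤ r by omega)
          omega
        · obtain rfl : i = m := by omega
          exact IsS.new
      · refine hab.keep fun he => ?_
        have := pr_eq_pr he
        have := ord_ne ho (show m + 1 ≤ r by omega)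
        omega
      · intro i hi
        refine (hb' i (by omega)).keep fun he => ?_
        have := pr_eq_pr he
        have := ord_ne ho (show m + 1 ≤ r by omega)
        omega
      · intro d hd hne
        refine Finset.mem_insert_of_mem (Finset.mem_erase.mpr ⟨hne m le_rfl (by omega), ?_⟩)
        exact hk d hd fun i hi hir => hne i (by omega) hir
  obtain ⟨T', hst, ha', hab, hb', hk⟩ := key r 0 (by omega)
  refine ⟨T', hst, fun i hi => ha' i (Nat.zero_le _) hi, hab, by simpa using hb' 0 le_rfl, ?_⟩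
  intro d hd hne
  exact hk d hd fun i _ hir => hne i hir

end Pool.Agent.H72F
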