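import Pool.Agent.Lib.H72F.Geo

/-!
# CHUNK S1b: geometry of the blow-up, the fans
-/

set_option autoImplicit false

namespace Pool.Agent.H72F.Sys

variable {ι : Type} [DecidableEq ι] (S : Sys ι) (M : ℕ)

theorem pr_comm (x y : ℕ) : pr x y = pr y x := by
  unfold pr
  rw [min_comm, max_comm]

/-- position of a single vertex relative to the chain of `p i` -/
theorem outside {i : ι} (hi : i ∈ S.els) {x : ℕ} (hx : S.p i ≠ x) :
    S.start M x < S.start M (S.p i) ∨ S.start M (S.p i) + (M * S.w i + 1) < S.start M x := by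
  have h1 := S.size_p M hi
  rcases Nat.lt_or_gt_of_ne hx with h | h
  · right
    exact S.start_lt M h (by omega)
  · left
    have := S.start_lt M h (s := 0) (by have := S.size_pos M x; omega)
    omega

theorem chain_lt {i : ι} (hi : i ∈ S.els) : S.start M (S.p i) + (M * S.w i + 1) < S.nn M :=
  S.vertex_lt M (S.p_lt i hi) (by rw [S.size_p M hi]; omega)

theorem single_lt {x : ℕ} (hx : x < S.K) : S.start M x < S.nn M := by
  have := S.vertex_lt M hx (s := 0) (by have := S.size_pos M x; omega)
  omega

/-- a segment from a single vertex to an interior vertex of a chain is a diagonal -/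
theorem seg_isDiag {i : ι} (hi : i ∈ S.els) {x : ℕ} (hx : S.p i ≠ x) (hxK : x < S.K) {t : ℕ}
    (ht : t < M * S.w i) : IsDiag (S.nn M) (pr (S.start M x) (S.start M (S.p i) + (t + 1))) := by
  have h1 := S.chain_lt M hi
  have h2 := S.single_lt M hxK
  unfold IsDiag pr
  simp only
  rcases S.outside M hi hx with h | h
  · rw [min_eq_left (by omega), max_eq_right (by omega)]
    omega
  · rw [min_eq_right (by omega), max_eq_left (by omega)]
    omega

/-- the elements of the fans are diagonals (an interior vertex of the chain is adjacent only to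
vertices of the chain) -/
theorem fanA_isDiag {i : ι} (hi : i ∈ S.els) : ∀ d ∈ S.fanA M i, IsDiag (S.nn M) d := by
  intro d hd
  unfold fanA at hd
  rw [Finset.mem_image] at hd
  obtain ⟨t, ht, rfl⟩ := hd
  exact S.seg_isDiag M hi (S.p_ne_a i hi i hi) (S.a_lt i hi) (Finset.mem_range.mp ht)

theorem fanB_isDiag {i : ι} (hi : i ∈ S.els) : ∀ d ∈ S.fanB M i, IsDiag (S.nn M) d := by
  intro d hd
  unfold fanB at hd
  rw [Finset.mem_image] at hd
  obtain ⟨t, ht, rfl⟩ := hd
  exact S.seg_isDiag M hi (S.p_ne_b i hi i hi) (S.b_lt i hi) (Finset.mem_range.mp ht)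

theorem fanH_isDiag {i : ι} (hi : i ∈ S.els) : ∀ d ∈ S.fanH M i, IsDiag (S.nn M) d := by
  intro d hd
  unfold fanH at hd
  rw [Finset.mem_image] at hd
  obtain ⟨t, ht, rfl⟩ := hd
  rw [Finset.mem_range] at ht
  have h1 := S.chain_lt M hi
  have h2 := S.nn_eq M
  have h3 := S.four_le
  have h4 : M * S.w i ≤ M * S.wt S.els := by
    apply Nat.mul_le_mul_left
    unfold wt
    exact Finset.single_le_sum (f := S.w) (fun _ _ => Nat.zero_le _) hi
  unfold IsDiag
  simp only
  omega

/-- segments with a common endpoint do not cross -/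
theorem not_cross_pr (a x y : ℕ) : ¬ Cross (pr a x) (pr a y) := by
  unfold Cross pr
  simp only
  rcases Nat.le_total a x with h | h <;> rcases Nat.le_total a y with h' | h'
  all_goals
    first
      | rw [min_eq_left (by omega : a ≤ x), max_eq_right (by omega : a ≤ x)]
      | rw [min_eq_right (by omega : x ≤ a), max_eq_left (by omega : x ≤ a)]
    first
      | rw [min_eq_left (by omega : a ≤ y), max_eq_right (by omega : a ≤ y)]
      | rw [min_eq_right (by omega : y ≤ a), max_eq_left (by omega : y ≤ a)]
    omega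

theorem chain_size {i : ι} (hi : i ∈ S.els) {t : ℕ} (ht : t < M * S.w i) : t + 1 < S.size M (S.p i) := by
  rw [S.size_p M hi]; omega

/-- red fans do not cross each other; blue fans do not cross each other -/
theorem fanA_fanA {i j : ι} (hi : i ∈ S.els) (hj : j ∈ S.els) :
    ∀ d ∈ S.fanA M i, ∀ e ∈ S.fanA M j, ¬ Cross d e := by
  intro d hd e he
  unfold fanA at hd he
  rw [Finset.mem_image] at hd he
  obtain ⟨t, ht, rfl⟩ := hd
  obtain ⟨u, hu, rfl⟩ := he
  rw [Finset.mem_range] at ht hu
  by_cases hij : i = j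
  · subst hij
    exact not_cross_pr _ _ _
  · have h0 : ∀ x : ℕ, S.start M x = S.start M x + 0 := fun x => rfl
    rw [h0 (S.a i), h0 (S.a j), S.cross_iff M (fun h => S.p_ne_a i hi i hi h.symm) (fun h => S.p_ne_a j hj j hj h.symm)
      (fun h => hij (S.a_inj i hi j hj h)) (fun h => S.p_ne_a j hj i hi h.symm) (S.p_ne_a i hi j hj)
      (fun h => hij (S.p_inj i hi j hj h)) (by rw [S.size_a M hi]; omega) (S.chain_size M hi ht)
      (by rw [S.size_a M hj]; omega) (S.chain_size M hj hu), pr_comm (S.a i), pr_comm (S.a j)]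
    exact S.red i hi j hj

theorem fanB_fanB {i j : ι} (hi : i ∈ S.els) (hj : j ∈ S.els) :
    ∀ d ∈ S.fanB M i, ∀ e ∈ S.fanB M j, ¬ Cross d e := by
  intro d hd e he
  unfold fanB at hd he
  rw [Finset.mem_image] at hd he
  obtain ⟨t, ht, rfl⟩ := hd
  obtain ⟨u, hu, rfl⟩ := he
  rw [Finset.mem_range] at ht hu
  by_cases hij : i = j
  · subst hij
    exact not_cross_pr _ _ _
  · have h0 : ∀ x : ℕ, S.start M x = S.start M x + 0 := fun x => rfl
    rw [h0 (S.b i), h0 (S.b j), S.cross_iff M (fun h => S.p_ne_b i hi i hi h.symm) (fun h => S.p_ne_b j hj j hj h.symm)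
      (fun h => hij (S.b_inj i hi j hj h)) (fun h => S.p_ne_b j hj i hi h.symm) (S.p_ne_b i hi j hj)
      (fun h => hij (S.p_inj i hi j hj h)) (by rw [S.size_b M hi]; omega) (S.chain_size M hi ht)
      (by rw [S.size_b M hj]; omega) (S.chain_size M hj hu), pr_comm (S.b i), pr_comm (S.b j)]
    exact S.blue i hi j hj

/-- red fans against blue fans: all or nothing, for different elements -/
theorem fanA_fanB {i j : ι} (hi : i ∈ S.els) (hj : j ∈ S.els) (hij : i ≠ j) {d e : ℕ × ℕ}
    (hd : d ∈ S.fanA M i) (he : e ∈ S.fanB M j) : Cross d e ↔ S.Arc i j := by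
  unfold fanA at hd
  unfold fanB at he
  rw [Finset.mem_image] at hd he
  obtain ⟨t, ht, rfl⟩ := hd
  obtain ⟨u, hu, rfl⟩ := he
  rw [Finset.mem_range] at ht hu
  have h0 : ∀ x : ℕ, S.start M x = S.start M x + 0 := fun x => rfl
  rw [h0 (S.a i), h0 (S.b j), S.cross_iff M (fun h => S.p_ne_a i hi i hi h.symm) (fun h => S.p_ne_b j hj j hj h.symm)
    (S.a_ne_b i hi j hj) (fun h => S.p_ne_a j hj i hi h.symm) (S.p_ne_b i hi j hj)
    (fun h => hij (S.p_inj i hi j hj h)) (by rw [S.size_a M hi]; omega) (S.chain_size M hi ht)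
    (by rw [S.size_b M hj]; omega) (S.chain_size M hj hu), pr_comm (S.a i), pr_comm (S.b j)]
  exact Iff.rfl

theorem vertex_ne {x y s t : ℕ} (h : x ≠ y) (hs : s < S.size M x) (ht : t < S.size M y) :
    S.start M x + s ≠ S.start M y + t := by
  obtain ⟨h1, h2⟩ := S.vertex_order M h hs ht
  rcases Nat.lt_or_gt_of_ne h with h3 | h3
  · have := h1.mp h3; omega
  · have := h2.mp h3; omega

theorem pr_eq_cases {x y u v : ℕ} (h : pr x y = pr u v) : (x = u ∧ y = v) ∨ (x = v ∧ y = u) := by
  unfold pr at h
  rw [Prod.mk.injEq] at h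
  omega

theorem fanA_disj {i j : ι} (hi : i ∈ S.els) (hj : j ∈ S.els) (hij : i ≠ j) :
    Disjoint (S.fanA M i) (S.fanA M j) := by
  rw [Finset.disjoint_left]
  intro d hd he
  unfold fanA at hd he
  rw [Finset.mem_image] at hd he
  obtain ⟨t, ht, rfl⟩ := hd
  obtain ⟨u, hu, h⟩ := he
  rw [Finset.mem_range] at ht hu
  rcases pr_eq_cases h with ⟨h1, _⟩ | ⟨h1, _⟩
  · exact S.vertex_ne M (s := 0) (t := 0) (fun h => hij (S.a_inj i hi j hj h.symm))
      (by rw [S.size_a M hj]; omega) (by rw [S.size_a M hi]; omega) h1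
  · exact S.vertex_ne M (s := 0) (t := t + 1) (fun h => S.p_ne_a i hi j hj h.symm)
      (by rw [S.size_a M hj]; omega) (S.chain_size M hi ht) h1

theorem fanB_disj {i j : ι} (hi : i ∈ S.els) (hj : j ∈ S.els) (hij : i ≠ j) :
    Disjoint (S.fanB M i) (S.fanB M j) := by
  rw [Finset.disjoint_left]
  intro d hd he
  unfold fanB at hd he
  rw [Finset.mem_image] at hd he
  obtain ⟨t, ht, rfl⟩ := hd
  obtain ⟨u, hu, h⟩ := he
  rw [Finset.mem_range] at ht hu
  rcases pr_eq_cases h with ⟨h1, _⟩ | ⟨h1, _⟩
  · exact S.vertex_ne M (s := 0) (t := 0) (fun h => hij (S.b_inj i hi j hj h.symm))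
      (by rw [S.size_b M hj]; omega) (by rw [S.size_b M hi]; omega) h1
  · exact S.vertex_ne M (s := 0) (t := t + 1) (fun h => S.p_ne_b i hi j hj h.symm)
      (by rw [S.size_b M hj]; omega) (S.chain_size M hi ht) h1

/-- Two fans over the same chain: crossing is determined by the order of the vertices of the
chain. -/
theorem two_fans {i : ι} (hi : i ∈ S.els) :
    (∀ t u, t < u → u < M * S.w i → Cross (pr (S.start M (S.a i)) (S.start M (S.p i) + (t + 1)))
      (pr (S.start M (S.b i)) (S.start M (S.p i) + (u + 1)))) ∨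
    (∀ t u, u < t → t < M * S.w i → Cross (pr (S.start M (S.a i)) (S.start M (S.p i) + (t + 1)))
      (pr (S.start M (S.b i)) (S.start M (S.p i) + (u + 1)))) := by
  have hA := S.outside M hi (S.p_ne_a i hi i hi)
  have hB := S.outside M hi (S.p_ne_b i hi i hi)
  have hAB : S.start M (S.a i) ≠ S.start M (S.b i) :=
    S.vertex_ne M (s := 0) (t := 0) (S.a_ne_b i hi i hi) (by rw [S.size_a M hi]; omega)
      (by rw [S.size_b M hi]; omega)
  set A := S.start M (S.a i)
  set B := S.start M (S.b i)
  set P := S.start M (S.p i)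
  set n := M * S.w i
  have hl : ∀ X t, X < P → pr X (P + (t + 1)) = (X, P + (t + 1)) := by
    intro X t h
    unfold pr
    rw [min_eq_left (by omega), max_eq_right (by omega)]
  have hr : ∀ X t, P + (n + 1) < X → t < n → pr X (P + (t + 1)) = (P + (t + 1), X) := by
    intro X t h ht
    unfold pr
    rw [min_eq_right (by omega), max_eq_left (by omega)]
  unfold Cross
  rcases hA with hA | hA <;> rcases hB with hB | hB
  · rcases Nat.lt_or_gt_of_ne hAB with h | h
    · left
      intro t u htu hu
      rw [hl A t hA, hl B u hB]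
      simp only
      omega
    · right
      intro t u htu hu
      rw [hl A t hA, hl B u hB]
      simp only
      omega
  · right
    intro t u htu hu
    rw [hl A t hA, hr B u hB (by omega)]
    simp only
    omega
  · left
    intro t u htu hu
    rw [hr A t hA (by omega), hl B u hB]
    simp only
    omega
  · rcases Nat.lt_or_gt_of_ne hAB with h | h
    · left
      intro t u htu hu
      rw [hr A t hA (by omega), hr B u hB (by omega)]
      simp only
      omega
    · right
      intro t u htu hu
      rw [hr A t hA (by omega), hr B u hB (by omega)]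
      simp only
      omega

/-- all but at most one element of the red fan of `i` cross an element of the blue fan of `i`
(`pr a (q+t)` crosses `pr b (q+t+1)` or, depending on the orientation, `pr b (q+t-1)`) -/
theorem card_fanA_cross {i : ι} (hi : i ∈ S.els) :
    M * S.w i ≤ ((S.fanA M i).filter fun d => ∃ e ∈ S.fanB M i, Cross d e).card + 1 := by
  have key : M * S.w i - 1 ≤ ((S.fanA M i).filter fun d => ∃ e ∈ S.fanB M i, Cross d e).card := by
    rw [← Finset.card_range (M * S.w i - 1)]
    rcases S.two_fans M hi with h | h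
    · apply Finset.card_le_card_of_injOn (fun t => pr (S.start M (S.a i)) (S.start M (S.p i) + (t + 1)))
      · intro t ht
        rw [Finset.mem_coe, Finset.mem_range] at ht
        rw [Finset.mem_coe, Finset.mem_filter]
        refine ⟨Finset.mem_image.mpr ⟨t, Finset.mem_range.mpr (by omega), rfl⟩, _,
          Finset.mem_image.mpr ⟨t + 1, Finset.mem_range.mpr (by omega), rfl⟩, h t (t + 1) (by omega) (by omega)⟩
      · intro t _ t' _ he
        have := pr_inj he
        omega
    · apply Finset.card_le_card_of_injOn (fun t => pr (S.start M (S.a i)) (S.start M (S.p i) + (t + 1 + 1)))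
      · intro t ht
        rw [Finset.mem_coe, Finset.mem_range] at ht
        rw [Finset.mem_coe, Finset.mem_filter]
        refine ⟨Finset.mem_image.mpr ⟨t + 1, Finset.mem_range.mpr (by omega), rfl⟩, _,
          Finset.mem_image.mpr ⟨t, Finset.mem_range.mpr (by omega), rfl⟩, h (t + 1) t (by omega) (by omega)⟩
      · intro t _ t' _ he
        have := pr_inj he
        omega
  omega

theorem card_fanB_cross {i : ι} (hi : i ∈ S.els) :
    M * S.w i ≤ ((S.fanB M i).filter fun e => ∃ d ∈ S.fanA M i, Cross d e).card + 1 := by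
  have key : M * S.w i - 1 ≤ ((S.fanB M i).filter fun e => ∃ d ∈ S.fanA M i, Cross d e).card := by
    rw [← Finset.card_range (M * S.w i - 1)]
    rcases S.two_fans M hi with h | h
    · apply Finset.card_le_card_of_injOn (fun t => pr (S.start M (S.b i)) (S.start M (S.p i) + (t + 1 + 1)))
      · intro t ht
        rw [Finset.mem_coe, Finset.mem_range] at ht
        rw [Finset.mem_coe, Finset.mem_filter]
        refine ⟨Finset.mem_image.mpr ⟨t + 1, Finset.mem_range.mpr (by omega), rfl⟩, _,
          Finset.mem_image.mpr ⟨t, Finset.mem_range.mpr (by omega), rfl⟩, h t (t + 1) (by omega) (by omega)⟩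
      · intro t _ t' _ he
        have := pr_inj he
        omega
    · apply Finset.card_le_card_of_injOn (fun t => pr (S.start M (S.b i)) (S.start M (S.p i) + (t + 1)))
      · intro t ht
        rw [Finset.mem_coe, Finset.mem_range] at ht
        rw [Finset.mem_coe, Finset.mem_filter]
        refine ⟨Finset.mem_image.mpr ⟨t, Finset.mem_range.mpr (by omega), rfl⟩, _,
          Finset.mem_image.mpr ⟨t + 1, Finset.mem_range.mpr (by omega), rfl⟩, h (t + 1) t (by omega) (by omega)⟩
      · intro t _ t' _ he
        have := pr_inj he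
        omega
  omega

end Pool.Agent.H72F.Sys
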