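import Pool.Agent.Lib.H72F.Quads
import Pool.Agent.Lib.H72F.Geo2

/-!
# CHUNK I2b: lists of the fans
-/

set_option autoImplicit false

namespace Pool.Agent.H72F

variable {F : List (List (ℕ × Bool))} {n : ℕ}

/-- the list of the red fan of an element -/
def I2bA (S : Sys El) (M : ℕ) (e : El) : List (ℕ × ℕ) :=
  (List.range (M * S.w e)).map fun t => pr (S.start M (S.a e)) (S.start M (S.p e) + (t + 1))

/-- the list of the blue fan of an element -/
def I2bB (S : Sys El) (M : ℕ) (e : El) : List (ℕ × ℕ) :=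
  (List.range (M * S.w e)).map fun t => pr (S.start M (S.b e)) (S.start M (S.p e) + (t + 1))

theorem I2b_mem_A (S : Sys El) (M : ℕ) (e : El) (d : ℕ × ℕ) : d ∈ I2bA S M e ↔ d ∈ S.fanA M e := by
  simp only [I2bA, Sys.fanA, List.mem_map, List.mem_range, Finset.mem_image, Finset.mem_range]

theorem I2b_mem_B (S : Sys El) (M : ℕ) (e : El) (d : ℕ × ℕ) : d ∈ I2bB S M e ↔ d ∈ S.fanB M e := by
  simp only [I2bB, Sys.fanB, List.mem_map, List.mem_range, Finset.mem_image, Finset.mem_range]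

theorem I2b_nodup_A (S : Sys El) (M : ℕ) (e : El) : (I2bA S M e).Nodup := by
  refine List.Nodup.map ?_ List.nodup_range
  intro t t' h
  have := Sys.pr_inj h
  omega

theorem I2b_nodup_B (S : Sys El) (M : ℕ) (e : El) : (I2bB S M e).Nodup := by
  refine List.Nodup.map ?_ List.nodup_range
  intro t t' h
  have := Sys.pr_inj h
  omega

theorem I2b_redL (hn : 2 ≤ n) (M : ℕ) :
    redL (quads F n) M = (gels F n).flatMap fun e => I2bA (gsys F n hn) M e := by
  unfold redL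
  simp only [startL_eq hn]
  rw [quads_eq, List.flatMap_map]
  rfl

theorem I2b_blueL (hn : 2 ≤ n) (M : ℕ) :
    blueL (quads F n) M = (gels F n).flatMap fun e => I2bB (gsys F n hn) M e := by
  unfold blueL
  simp only [startL_eq hn]
  rw [quads_eq, List.flatMap_map]
  rfl

theorem I2b_flat {l : List El} (hl : l.Nodup) {f : El → List (ℕ × ℕ)} (hf : ∀ e, (f e).Nodup)
    (hd : ∀ e ∈ l, ∀ e' ∈ l, e ≠ e' → ∀ d ∈ f e, d ∉ f e') : (l.flatMap f).Nodup := by
  rw [List.nodup_flatMap]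
  refine ⟨fun e _ => hf e, ?_⟩
  refine List.Pairwise.imp_of_mem ?_ hl
  intro e e' he he' hne
  show List.Disjoint (f e) (f e')
  intro d h1 h2
  exact hd e he e' he' hne d h1 h2

theorem redL_nodup (hn : 2 ≤ n) (M : ℕ) : (redL (quads F n) M).Nodup := by
  rw [I2b_redL hn]
  refine I2b_flat nodup_gels (fun e => I2b_nodup_A _ _ _) ?_
  intro e he e' he' hne d h1 h2
  rw [I2b_mem_A] at h1 h2
  exact Finset.disjoint_left.1 ((gsys F n hn).fanA_disj M (List.mem_toFinset.2 he)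
    (List.mem_toFinset.2 he') hne) h1 h2

theorem blueL_nodup (hn : 2 ≤ n) (M : ℕ) : (blueL (quads F n) M).Nodup := by
  rw [I2b_blueL hn]
  refine I2b_flat nodup_gels (fun e => I2b_nodup_B _ _ _) ?_
  intro e he e' he' hne d h1 h2
  rw [I2b_mem_B] at h1 h2
  exact Finset.disjoint_left.1 ((gsys F n hn).fanB_disj M (List.mem_toFinset.2 he)
    (List.mem_toFinset.2 he') hne) h1 h2

theorem mem_redL (hn : 2 ≤ n) (M : ℕ) (d : ℕ × ℕ) :
    d ∈ redL (quads F n) M ↔ ∃ e ∈ (gsys F n hn).els, d ∈ (gsys F n hn).fanA M e := by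
  rw [I2b_redL hn, List.mem_flatMap]
  constructor
  · rintro ⟨e, he, h⟩
    exact ⟨e, List.mem_toFinset.2 he, (I2b_mem_A _ _ _ _).1 h⟩
  · rintro ⟨e, he, h⟩
    exact ⟨e, List.mem_toFinset.1 he, (I2b_mem_A _ _ _ _).2 h⟩

theorem mem_blueL (hn : 2 ≤ n) (M : ℕ) (d : ℕ × ℕ) :
    d ∈ blueL (quads F n) M ↔ ∃ e ∈ (gsys F n hn).els, d ∈ (gsys F n hn).fanB M e := by
  rw [I2b_blueL hn, List.mem_flatMap]
  constructor
  · rintro ⟨e, he, h⟩
    exact ⟨e, List.mem_toFinset.2 he, (I2b_mem_B _ _ _ _).1 h⟩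
  · rintro ⟨e, he, h⟩
    exact ⟨e, List.mem_toFinset.1 he, (I2b_mem_B _ _ _ _).2 h⟩

end Pool.Agent.H72F
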