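import Pool.Agent.Lib.H72F.Main

/-!
# CONVEX FLIP DISTANCE is NP-hard, even with a large additive gap
-/

set_option autoImplicit false

namespace Pool.Agent.H72F.Final

open Turing Pool.Agent.PolyTime Pool.Agent.Lib.CookLevin Pool.Agent.H72F

/-- **Main theorem.** CONVEX FLIP DISTANCE is NP-hard, and so is approximating the flip distance of
two triangulations of a convex `n`-gon within an additive error of `n ^ (c / (c + 1))`, for every
fixed `c`. (The flip graph is connected, so `dist` is the flip distance.) -/
theorem result :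
    NPHard ConvexFlipLang ∧
    (∀ n, 3 ≤ n → (flipGraph n).Connected) ∧
    ∀ (c : ℕ) (L : Word → Prop), InNP L → ∃ f : Word → Word,
      Nonempty (TM2ComputableInPolyTime (id : Word → List Bool) (id : Word → List Bool) f) ∧
      ∀ x, ∃ n k, 3 ≤ n ∧ ∃ (T T' : Tri n) (l l' : List (ℕ × ℕ)), Rep T l ∧ Rep T' l' ∧
        f x = enc n k l l' ∧ (L x → (flipGraph n).dist T T' ≤ k) ∧
        (¬ L x → n ^ c < ((flipGraph n).dist T T' - k) ^ (c + 1)) :=
  ⟨npHard_convexFlip, fun _ hn => flipGraph_connected hn, fun c _ hL => gap_hard c hL⟩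

end Pool.Agent.H72F.Final
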