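import Pool.Agent.Lib.H72F.Sys

/-!
# The gadget: definitions

`F` is a formula in conjunctive normal form with `m = F.length` clauses and variables smaller than `n`.
-/

set_option autoImplicit false

namespace Pool.Agent.H72F

/-- the elements of the gadget -/
inductive El : Type
  | v (i k : ℕ)
  | y (i k : ℕ)
  | u (i k : ℕ)
  | g (i j : ℕ)
  | h (i j : ℕ)
  deriving DecidableEq

/-- width of a zone -/
def Zw (m : ℕ) : ℕ := 11 * (2 * m + 2) + 4 * m

def pos (m i k r : ℕ) : ℕ := i * Zw m + (11 * k + r)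

def zpos (m i j r : ℕ) : ℕ := i * Zw m + (11 * (2 * m + 2) + 4 * (m - 1 - j) + r)

/-- 1 if the literal `(i, s)` occurs in the clause number `j`, otherwise 0 -/
def bit (F : List (List (ℕ × Bool))) (i j : ℕ) (s : Bool) : ℕ :=
  if (i, s) ∈ F.getD j [] then 1 else 0

def slot (F : List (List (ℕ × Bool))) (i j : ℕ) : ℕ := 2 * j + 1 + bit F i j true

def gap (F : List (List (ℕ × Bool))) (i j : ℕ) : ℕ := 2 * j + 2 - bit F i j false

/-- the zone before `i`, cyclically -/
def prv (n i : ℕ) : ℕ := if i = 0 then n - 1 else i - 1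

/-- the points of the elements -/
def gp (F : List (List (ℕ × Bool))) (n : ℕ) : El → ℕ
  | .v i k => pos F.length i k 2
  | .y i k => pos F.length i k 10
  | .u i k => pos F.length i k 5
  | .g i j => zpos F.length i j 0
  | .h i j => zpos F.length (prv n i) j 3

/-- the red ends -/
def ga (F : List (List (ℕ × Bool))) : El → ℕ
  | .v i k => pos F.length i k 9
  | .y i k => pos F.length i k 1
  | .u i k => pos F.length i k 8
  | .g i j => zpos F.length i j 2
  | .h i j => pos F.length i (gap F i j) 0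

/-- the blue ends -/
def gb (F : List (List (ℕ × Bool))) (n : ℕ) : El → ℕ
  | .v i k => pos F.length i (k - 1) 6
  | .y i k => pos F.length i k 7
  | .u i k => pos F.length i (k + 1) 3
  | .g i j => pos F.length i (slot F i j) 4
  | .h i j => zpos F.length (prv n i) j 1

/-- the weights -/
def gw (F : List (List (ℕ × Bool))) : El → ℕ
  | .v _ k => if k = 1 then 1 else 2
  | .y _ _ => 2
  | .u _ k => if k = 2 * F.length then 1 else 2
  | .g _ _ => 1
  | .h _ _ => 1

/-- the list of the elements -/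
def gels (F : List (List (ℕ × Bool))) (n : ℕ) : List El :=
  (List.range n).flatMap fun i =>
    ((List.range (2 * F.length)).flatMap fun k => [.v i (k + 1), .y i (k + 1), .u i (k + 1)]) ++
      (List.range F.length).flatMap fun j => [.g i j, .h i j]

/-- which elements there are -/
def gin (F : List (List (ℕ × Bool))) (n : ℕ) : El → Prop
  | .v i k => i < n ∧ 1 ≤ k ∧ k ≤ 2 * F.length
  | .y i k => i < n ∧ 1 ≤ k ∧ k ≤ 2 * F.length
  | .u i k => i < n ∧ 1 ≤ k ∧ k ≤ 2 * F.length
  | .g i j => i < n ∧ j < F.length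
  | .h i j => i < n ∧ j < F.length

/-- the arcs -/
def arcSpec (F : List (List (ℕ × Bool))) (n : ℕ) : El → El → Prop
  | .v i k, .v i' k' => i' = i ∧ k' = k + 1
  | .v i k, .y i' k' => i' = i ∧ k' = k
  | .v i k, .u i' k' => i' = i ∧ (k' = k ∨ k' + 1 = k)
  | .v i k, .g i' j => i' = i ∧ slot F i j = k
  | .v _ _, .h _ _ => False
  | .y i k, .v i' k' => i' = i ∧ (k' = k ∨ k' = k + 1)
  | .y _ _, .y _ _ => False
  | .y i k, .u i' k' => i' = i ∧ (k' = k ∨ k' + 1 = k)
  | .y i k, .g i' j => i' = i ∧ slot F i j = k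
  | .y _ _, .h _ _ => False
  | .u i k, .v i' k' => i' = i ∧ k' = k + 1
  | .u i k, .y i' k' => i' = i ∧ k' = k
  | .u _ _, .u _ _ => False
  | .u _ _, .g _ _ => False
  | .u _ _, .h _ _ => False
  | .g _ _, .v _ _ => False
  | .g _ _, .y _ _ => False
  | .g _ _, .u _ _ => False
  | .g _ _, .g _ _ => False
  | .g i j, .h i' j' => prv n i' = i ∧ j' = j
  | .h i j, .v i' k' => i' = i ∧ k' = gap F i j
  | .h _ _, .y _ _ => False
  | .h i j, .u i' k' => i' = i ∧ k' + 1 = gap F i j
  | .h i j, .g i' j' => (i' = i ∧ slot F i j' < gap F i j) ∨ (i' = prv n i ∧ j' < j)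
  | .h _ _, .h _ _ => False

/-! ### A few arithmetic facts -/

theorem bit_le (F : List (List (ℕ × Bool))) (i j : ℕ) (s : Bool) : bit F i j s ≤ 1 := by
  unfold bit
  split <;> omega

theorem zone_le {i i' : ℕ} (m : ℕ) (h : i < i') : i * Zw m + Zw m ≤ i' * Zw m := by
  have := Nat.mul_le_mul_right (Zw m) (Nat.succ_le_of_lt h)
  rw [Nat.succ_mul] at this
  exact this

theorem prv_lt {n i : ℕ} (hn : 2 ≤ n) (hi : i < n) : prv n i < n := by
  unfold prv
  split <;> omega

end Pool.Agent.H72F
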