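import Pool.Agent.Lib.H72F.Gad

/-!
# CHUNK G1a: the elements of the gadget
-/

set_option autoImplicit false

namespace Pool.Agent.H72F

variable {F : List (List (ℕ × Bool))} {n : ℕ}

theorem mem_gels {e : El} : e ∈ gels F n ↔ gin F n e := by
  unfold gels
  cases e with
  | v i k =>
    simp only [List.mem_flatMap, List.mem_range, List.mem_append, List.mem_cons, gin, El.v.injEq,
      reduceCtorEq, List.not_mem_nil, or_false, false_or, and_false, exists_false]
    constructor
    · rintro ⟨i', hi', k', hk', rfl, rfl⟩
      omega
    · rintro ⟨h1, h2, h3⟩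
      exact ⟨i, h1, k - 1, by omega, rfl, by omega⟩
  | y i k =>
    simp only [List.mem_flatMap, List.mem_range, List.mem_append, List.mem_cons, gin, El.y.injEq,
      reduceCtorEq, List.not_mem_nil, or_false, false_or, and_false, exists_false]
    constructor
    · rintro ⟨i', hi', k', hk', rfl, rfl⟩
      omega
    · rintro ⟨h1, h2, h3⟩
      exact ⟨i, h1, k - 1, by omega, rfl, by omega⟩
  | u i k =>
    simp only [List.mem_flatMap, List.mem_range, List.mem_append, List.mem_cons, gin, El.u.injEq,
      reduceCtorEq, List.not_mem_nil, or_false, false_or, and_false, exists_false]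
    constructor
    · rintro ⟨i', hi', k', hk', rfl, rfl⟩
      omega
    · rintro ⟨h1, h2, h3⟩
      exact ⟨i, h1, k - 1, by omega, rfl, by omega⟩
  | g i j =>
    simp only [List.mem_flatMap, List.mem_range, List.mem_append, List.mem_cons, gin, El.g.injEq,
      reduceCtorEq, List.not_mem_nil, or_false, false_or, and_false, exists_false]
    constructor
    · rintro ⟨i', hi', k', hk', rfl, rfl⟩
      exact ⟨hi', hk'⟩
    · rintro ⟨h1, h2⟩
      exact ⟨i, h1, j, h2, rfl, rfl⟩
  | h i j =>
    simp only [List.mem_flatMap, List.mem_range, List.mem_append, List.mem_cons, gin, El.h.injEq,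
      reduceCtorEq, List.not_mem_nil, or_false, false_or, and_false, exists_false]
    constructor
    · rintro ⟨i', hi', k', hk', rfl, rfl⟩
      exact ⟨hi', hk'⟩
    · rintro ⟨h1, h2⟩
      exact ⟨i, h1, j, h2, rfl, rfl⟩

theorem nodup_gels : (gels F n).Nodup := by
  unfold gels
  rw [List.nodup_flatMap]
  constructor
  · intro i _
    rw [List.nodup_append]
    refine ⟨?_, ?_, ?_⟩
    · rw [List.nodup_flatMap]
      refine ⟨fun k _ => by simp, ?_⟩
      refine List.Pairwise.imp ?_ (List.nodup_range)
      intro k k' hkk
      simp only [Function.onFun, List.disjoint_left, List.mem_cons, List.not_mem_nil, or_false]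
      rintro e (rfl | rfl | rfl) <;> simp [hkk]
    · rw [List.nodup_flatMap]
      refine ⟨fun k _ => by simp, ?_⟩
      refine List.Pairwise.imp ?_ (List.nodup_range)
      intro k k' hkk
      simp only [Function.onFun, List.disjoint_left, List.mem_cons, List.not_mem_nil, or_false]
      rintro e (rfl | rfl) <;> simp [hkk]
    · intro a ha b hb hab
      subst hab
      simp only [List.mem_flatMap, List.mem_cons, List.not_mem_nil, or_false] at ha hb
      obtain ⟨k, -, rfl | rfl | rfl⟩ := ha <;> obtain ⟨j, -, h | h⟩ := hb <;> simp at h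
  · refine List.Pairwise.imp ?_ (List.nodup_range)
    intro i i' hii
    simp only [Function.onFun, List.disjoint_left, List.mem_append, List.mem_flatMap,
      List.mem_cons, List.not_mem_nil, or_false]
    rintro e (⟨k, -, rfl | rfl | rfl⟩ | ⟨j, -, rfl | rfl⟩) <;> simp [hii]

/-- sums over the elements -/
theorem sum_gels (f : El → ℕ) : ∑ e ∈ (gels F n).toFinset, f e =
    ∑ i ∈ Finset.range n, (∑ k ∈ Finset.range (2 * F.length),
      (f (.v i (k + 1)) + f (.y i (k + 1)) + f (.u i (k + 1))) +
        ∑ j ∈ Finset.range F.length, (f (.g i j) + f (.h i j))) := by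
  have key : ∀ (m : ℕ) (g : ℕ → ℕ), ∑ i ∈ Finset.range m, g i = ((List.range m).map g).sum := by
    intro m g
    rw [Finset.sum_range]
    rw [← List.sum_ofFn, List.ofFn_eq_map]
    congr 1
    apply List.ext_getElem
    · simp
    · intro i h1 h2
      simp
  rw [List.sum_toFinset f nodup_gels]
  unfold gels
  rw [List.map_flatMap, List.flatMap_def, List.sum_flatten, List.map_map, key]
  congr 1
  apply List.map_congr_left
  intro i _
  simp only [Function.comp_apply]
  rw [List.map_append, List.sum_append, List.map_flatMap, List.flatMap_def, List.sum_flatten,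
    List.map_map, List.map_flatMap, List.flatMap_def, List.sum_flatten, List.map_map, key, key]
  congr 1
  · congr 1
    apply List.map_congr_left
    intro k _
    simp [add_assoc]

/-- `gap` and `slot` of the clause `j` are `2 j + 1` or `2 j + 2` -/
theorem slot_spec (F : List (List (ℕ × Bool))) (i j : ℕ) :
    2 * j + 1 ≤ slot F i j ∧ slot F i j ≤ 2 * j + 2 := by
  have := bit_le F i j true
  unfold slot
  omega

theorem gap_spec (F : List (List (ℕ × Bool))) (i j : ℕ) :
    2 * j + 1 ≤ gap F i j ∧ gap F i j ≤ 2 * j + 2 := by
  have := bit_le F i j false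
  unfold gap
  omega

theorem slot_ne_of_ne (F : List (List (ℕ × Bool))) (i : ℕ) {j j' : ℕ} (h : j ≠ j') :
    slot F i j ≠ slot F i j' := by
  have := slot_spec F i j
  have := slot_spec F i j'
  omega

theorem gap_ne_of_ne (F : List (List (ℕ × Bool))) (i : ℕ) {j j' : ℕ} (h : j ≠ j') :
    gap F i j ≠ gap F i j' := by
  have := gap_spec F i j
  have := gap_spec F i j'
  omega

theorem prv_inj {i i' : ℕ} (hn : 2 ≤ n) (hi : i < n) (hi' : i' < n) (h : prv n i = prv n i') :
    i = i' := by
  unfold prv at h
  split at h <;> split at h <;> omega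

/-- a position in a zone is smaller than `n * Zw m` -/
theorem zone_lt {i o m : ℕ} (hi : i < n) (ho : o < Zw m) : i * Zw m + o < n * Zw m := by
  have := zone_le m hi
  omega

/-- positions in zones are equal only if the zones and the offsets are -/
theorem zone_eq {i i' o o' m : ℕ} (ho : o < Zw m) (ho' : o' < Zw m)
    (h : i * Zw m + o = i' * Zw m + o') : i = i' ∧ o = o' := by
  rcases lt_trichotomy i i' with h1 | h1 | h1
  · have := zone_le m h1
    omega
  · subst h1
    exact ⟨rfl, by omega⟩
  · have := zone_le m h1
    omega

end Pool.Agent.H72F
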