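import Pool.Agent.Lib.H72F.GadEls

/-!
# CHUNK G1b: the points of the gadget are different
-/

set_option autoImplicit false

namespace Pool.Agent.H72F

variable {F : List (List (ℕ × Bool))} {n : ℕ}

/-- comparison of two zones -/
private theorem zone_cmp (m i i' : ℕ) :
    (i < i' ∧ i * Zw m + (11 * (2 * m + 2) + 4 * m) ≤ i' * Zw m) ∨
    (i = i' ∧ i * Zw m = i' * Zw m) ∨
      (i' < i ∧ i' * Zw m + (11 * (2 * m + 2) + 4 * m) ≤ i * Zw m) := by
  rcases lt_trichotomy i i' with h | h | h
  · exact Or.inl ⟨h, zone_le m h⟩
  · exact Or.inr (Or.inl ⟨h, by rw [h]⟩)
  · exact Or.inr (Or.inr ⟨h, zone_le m h⟩)

private theorem prv_cases (n i : ℕ) :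
    (i = 0 ∧ prv n i = n - 1) ∨ (0 < i ∧ prv n i + 1 = i) := by
  unfold prv
  split <;> omega

theorem gp_lt (hn : 2 ≤ n) : ∀ e ∈ (gels F n).toFinset, gp F n e < n * Zw F.length := by
  intro e he
  rw [List.mem_toFinset, mem_gels] at he
  cases e with
  | v i k =>
    simp only [gin] at he
    simp only [gp, pos, zpos]
    have hc := zone_le F.length he.1
    have hZ : Zw F.length = 11 * (2 * F.length + 2) + 4 * F.length := rfl
    generalize i * Zw F.length = x at *
    generalize n * Zw F.length = y at *
    omega
  | y i k =>
    simp only [gin] at he
    simp only [gp, pos, zpos]
    have hc := zone_le F.length he.1
    have hZ : Zw F.length = 11 * (2 * F.length + 2) + 4 * F.length := rfl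
    generalize i * Zw F.length = x at *
    generalize n * Zw F.length = y at *
    omega
  | u i k =>
    simp only [gin] at he
    simp only [gp, pos, zpos]
    have hc := zone_le F.length he.1
    have hZ : Zw F.length = 11 * (2 * F.length + 2) + 4 * F.length := rfl
    generalize i * Zw F.length = x at *
    generalize n * Zw F.length = y at *
    omega
  | g i j =>
    simp only [gin] at he
    simp only [gp, pos, zpos]
    have hc := zone_le F.length he.1
    have hs := slot_spec F i j
    have hZ : Zw F.length = 11 * (2 * F.length + 2) + 4 * F.length := rfl
    generalize i * Zw F.length = x at *
    generalize n * Zw F.length = y at *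
    omega
  | h i j =>
    simp only [gin] at he
    simp only [gp, pos, zpos]
    have hc := zone_le F.length he.1
    have hz := prv_cases n i
    have hp := prv_lt hn he.1
    have hc2 := zone_le F.length hp
    have hg := gap_spec F i j
    generalize prv n i = z at *
    have hZ : Zw F.length = 11 * (2 * F.length + 2) + 4 * F.length := rfl
    generalize i * Zw F.length = x at *
    generalize z * Zw F.length = x' at *
    generalize n * Zw F.length = y at *
    omega

theorem ga_lt (hn : 2 ≤ n) : ∀ e ∈ (gels F n).toFinset, ga F e < n * Zw F.length := by
  intro e he
  rw [List.mem_toFinset, mem_gels] at he
  cases e with
  | v i k =>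
    simp only [gin] at he
    simp only [ga, pos, zpos]
    have hc := zone_le F.length he.1
    have hZ : Zw F.length = 11 * (2 * F.length + 2) + 4 * F.length := rfl
    generalize i * Zw F.length = x at *
    generalize n * Zw F.length = y at *
    omega
  | y i k =>
    simp only [gin] at he
    simp only [ga, pos, zpos]
    have hc := zone_le F.length he.1
    have hZ : Zw F.length = 11 * (2 * F.length + 2) + 4 * F.length := rfl
    generalize i * Zw F.length = x at *
    generalize n * Zw F.length = y at *
    omega
  | u i k =>
    simp only [gin] at he
    simp only [ga, pos, zpos]
    have hc := zone_le F.length he.1
    have hZ : Zw F.length = 11 * (2 * F.length + 2) + 4 * F.length := rfl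
    generalize i * Zw F.length = x at *
    generalize n * Zw F.length = y at *
    omega
  | g i j =>
    simp only [gin] at he
    simp only [ga, pos, zpos]
    have hc := zone_le F.length he.1
    have hs := slot_spec F i j
    have hZ : Zw F.length = 11 * (2 * F.length + 2) + 4 * F.length := rfl
    generalize i * Zw F.length = x at *
    generalize n * Zw F.length = y at *
    omega
  | h i j =>
    simp only [gin] at he
    simp only [ga, pos, zpos]
    have hc := zone_le F.length he.1
    have hz := prv_cases n i
    have hp := prv_lt hn he.1
    have hc2 := zone_le F.length hp
    have hg := gap_spec F i j
    generalize prv n i = z at *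
    have hZ : Zw F.length = 11 * (2 * F.length + 2) + 4 * F.length := rfl
    generalize i * Zw F.length = x at *
    generalize z * Zw F.length = x' at *
    generalize n * Zw F.length = y at *
    omega

theorem gb_lt (hn : 2 ≤ n) : ∀ e ∈ (gels F n).toFinset, gb F n e < n * Zw F.length := by
  intro e he
  rw [List.mem_toFinset, mem_gels] at he
  cases e with
  | v i k =>
    simp only [gin] at he
    simp only [gb, pos, zpos]
    have hc := zone_le F.length he.1
    have hZ : Zw F.length = 11 * (2 * F.length + 2) + 4 * F.length := rfl
    generalize i * Zw F.length = x at *
    generalize n * Zw F.length = y at *
    omega
  | y i k =>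
    simp only [gin] at he
    simp only [gb, pos, zpos]
    have hc := zone_le F.length he.1
    have hZ : Zw F.length = 11 * (2 * F.length + 2) + 4 * F.length := rfl
    generalize i * Zw F.length = x at *
    generalize n * Zw F.length = y at *
    omega
  | u i k =>
    simp only [gin] at he
    simp only [gb, pos, zpos]
    have hc := zone_le F.length he.1
    have hZ : Zw F.length = 11 * (2 * F.length + 2) + 4 * F.length := rfl
    generalize i * Zw F.length = x at *
    generalize n * Zw F.length = y at *
    omega
  | g i j =>
    simp only [gin] at he
    simp only [gb, pos, zpos]
    have hc := zone_le F.length he.1
    have hs := slot_spec F i j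
    have hZ : Zw F.length = 11 * (2 * F.length + 2) + 4 * F.length := rfl
    generalize i * Zw F.length = x at *
    generalize n * Zw F.length = y at *
    omega
  | h i j =>
    simp only [gin] at he
    simp only [gb, pos, zpos]
    have hc := zone_le F.length he.1
    have hz := prv_cases n i
    have hp := prv_lt hn he.1
    have hc2 := zone_le F.length hp
    have hg := gap_spec F i j
    generalize prv n i = z at *
    have hZ : Zw F.length = 11 * (2 * F.length + 2) + 4 * F.length := rfl
    generalize i * Zw F.length = x at *
    generalize z * Zw F.length = x' at *
    generalize n * Zw F.length = y at *
    omega

theorem gw_pos : ∀ e ∈ (gels F n).toFinset, 1 ≤ gw F e := by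
  intro e _
  cases e <;> simp only [gw] <;> first | omega | (split <;> omega)

theorem gp_inj (hn : 2 ≤ n) : ∀ e ∈ (gels F n).toFinset, ∀ e' ∈ (gels F n).toFinset,
    gp F n e = gp F n e' → e = e' := by
  intro e he e' he' hee
  rw [List.mem_toFinset, mem_gels] at he he'
  cases e with
  | v i k =>
    cases e' with
    | v i' k' =>
      simp only [gin] at he he'
      simp only [gp, pos, zpos] at hee
      have key : i = i' ∧ k = k' := by
        have hc1 := zone_cmp F.length i i'
        generalize i * Zw F.length = x0 at *
        generalize i' * Zw F.length = x1 at *
        omega
      rw [key.1, key.2]
    | y i' k' =>
      simp only [gin] at he he'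
      simp only [gp, pos, zpos] at hee
      exfalso
      have hc1 := zone_cmp F.length i i'
      generalize i * Zw F.length = x0 at *
      generalize i' * Zw F.length = x1 at *
      omega
    | u i' k' =>
      simp only [gin] at he he'
      simp only [gp, pos, zpos] at hee
      exfalso
      have hc1 := zone_cmp F.length i i'
      generalize i * Zw F.length = x0 at *
      generalize i' * Zw F.length = x1 at *
      omega
    | g i' j' =>
      simp only [gin] at he he'
      simp only [gp, pos, zpos] at hee
      exfalso
      have hc1 := zone_cmp F.length i i'
      have hs' := slot_spec F i' j'
      generalize i * Zw F.length = x0 at *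
      generalize i' * Zw F.length = x1 at *
      omega
    | h i' j' =>
      simp only [gin] at he he'
      simp only [gp, pos, zpos] at hee
      exfalso
      have hc1 := zone_cmp F.length i i'
      have hc2 := zone_cmp F.length i (prv n i')
      have hc3 := zone_cmp F.length i' (prv n i')
      have hz' := prv_cases n i'
      have hg' := gap_spec F i' j'
      generalize prv n i' = z' at *
      generalize i * Zw F.length = x0 at *
      generalize i' * Zw F.length = x1 at *
      generalize z' * Zw F.length = x2 at *
      omega
  | y i k =>
    cases e' with
    | v i' k' =>
      simp only [gin] at he he'
      simp only [gp, pos, zpos] at hee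
      exfalso
      have hc1 := zone_cmp F.length i i'
      generalize i * Zw F.length = x0 at *
      generalize i' * Zw F.length = x1 at *
      omega
    | y i' k' =>
      simp only [gin] at he he'
      simp only [gp, pos, zpos] at hee
      have key : i = i' ∧ k = k' := by
        have hc1 := zone_cmp F.length i i'
        generalize i * Zw F.length = x0 at *
        generalize i' * Zw F.length = x1 at *
        omega
      rw [key.1, key.2]
    | u i' k' =>
      simp only [gin] at he he'
      simp only [gp, pos, zpos] at hee
      exfalso
      have hc1 := zone_cmp F.length i i'
      generalize i * Zw F.length = x0 at *
      generalize i' * Zw F.length = x1 at *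
      omega
    | g i' j' =>
      simp only [gin] at he he'
      simp only [gp, pos, zpos] at hee
      exfalso
      have hc1 := zone_cmp F.length i i'
      have hs' := slot_spec F i' j'
      generalize i * Zw F.length = x0 at *
      generalize i' * Zw F.length = x1 at *
      omega
    | h i' j' =>
      simp only [gin] at he he'
      simp only [gp, pos, zpos] at hee
      exfalso
      have hc1 := zone_cmp F.length i i'
      have hc2 := zone_cmp F.length i (prv n i')
      have hc3 := zone_cmp F.length i' (prv n i')
      have hz' := prv_cases n i'
      have hg' := gap_spec F i' j'
      generalize prv n i' = z' at *
      generalize i * Zw F.length = x0 at *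
      generalize i' * Zw F.length = x1 at *
      generalize z' * Zw F.length = x2 at *
      omega
  | u i k =>
    cases e' with
    | v i' k' =>
      simp only [gin] at he he'
      simp only [gp, pos, zpos] at hee
      exfalso
      have hc1 := zone_cmp F.length i i'
      generalize i * Zw F.length = x0 at *
      generalize i' * Zw F.length = x1 at *
      omega
    | y i' k' =>
      simp only [gin] at he he'
      simp only [gp, pos, zpos] at hee
      exfalso
      have hc1 := zone_cmp F.length i i'
      generalize i * Zw F.length = x0 at *
      generalize i' * Zw F.length = x1 at *
      omega
    | u i' k' =>
      simp only [gin] at he he'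
      simp only [gp, pos, zpos] at hee
      have key : i = i' ∧ k = k' := by
        have hc1 := zone_cmp F.length i i'
        generalize i * Zw F.length = x0 at *
        generalize i' * Zw F.length = x1 at *
        omega
      rw [key.1, key.2]
    | g i' j' =>
      simp only [gin] at he he'
      simp only [gp, pos, zpos] at hee
      exfalso
      have hc1 := zone_cmp F.length i i'
      have hs' := slot_spec F i' j'
      generalize i * Zw F.length = x0 at *
      generalize i' * Zw F.length = x1 at *
      omega
    | h i' j' =>
      simp only [gin] at he he'
      simp only [gp, pos, zpos] at hee
      exfalso
      have hc1 := zone_cmp F.length i i'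
      have hc2 := zone_cmp F.length i (prv n i')
      have hc3 := zone_cmp F.length i' (prv n i')
      have hz' := prv_cases n i'
      have hg' := gap_spec F i' j'
      generalize prv n i' = z' at *
      generalize i * Zw F.length = x0 at *
      generalize i' * Zw F.length = x1 at *
      generalize z' * Zw F.length = x2 at *
      omega
  | g i j =>
    cases e' with
    | v i' k' =>
      simp only [gin] at he he'
      simp only [gp, pos, zpos] at hee
      exfalso
      have hc1 := zone_cmp F.length i i'
      have hs := slot_spec F i j
      generalize i * Zw F.length = x0 at *
      generalize i' * Zw F.length = x1 at *
      omega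
    | y i' k' =>
      simp only [gin] at he he'
      simp only [gp, pos, zpos] at hee
      exfalso
      have hc1 := zone_cmp F.length i i'
      have hs := slot_spec F i j
      generalize i * Zw F.length = x0 at *
      generalize i' * Zw F.length = x1 at *
      omega
    | u i' k' =>
      simp only [gin] at he he'
      simp only [gp, pos, zpos] at hee
      exfalso
      have hc1 := zone_cmp F.length i i'
      have hs := slot_spec F i j
      generalize i * Zw F.length = x0 at *
      generalize i' * Zw F.length = x1 at *
      omega
    | g i' j' =>
      simp only [gin] at he he'
      simp only [gp, pos, zpos] at hee
      have key : i = i' ∧ j = j' := by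
        have hc1 := zone_cmp F.length i i'
        have hs := slot_spec F i j
        have hs' := slot_spec F i' j'
        generalize i * Zw F.length = x0 at *
        generalize i' * Zw F.length = x1 at *
        omega
      rw [key.1, key.2]
    | h i' j' =>
      simp only [gin] at he he'
      simp only [gp, pos, zpos] at hee
      exfalso
      have hc1 := zone_cmp F.length i i'
      have hc2 := zone_cmp F.length i (prv n i')
      have hc3 := zone_cmp F.length i' (prv n i')
      have hs := slot_spec F i j
      have hz' := prv_cases n i'
      have hg' := gap_spec F i' j'
      generalize prv n i' = z' at *
      generalize i * Zw F.length = x0 at *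
      generalize i' * Zw F.length = x1 at *
      generalize z' * Zw F.length = x2 at *
      omega
  | h i j =>
    cases e' with
    | v i' k' =>
      simp only [gin] at he he'
      simp only [gp, pos, zpos] at hee
      exfalso
      have hc1 := zone_cmp F.length i (prv n i)
      have hc2 := zone_cmp F.length i i'
      have hc3 := zone_cmp F.length (prv n i) i'
      have hz := prv_cases n i
      have hg := gap_spec F i j
      generalize prv n i = z at *
      generalize i * Zw F.length = x0 at *
      generalize z * Zw F.length = x1 at *
      generalize i' * Zw F.length = x2 at *
      omega
    | y i' k' =>
      simp only [gin] at he he'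
      simp only [gp, pos, zpos] at hee
      exfalso
      have hc1 := zone_cmp F.length i (prv n i)
      have hc2 := zone_cmp F.length i i'
      have hc3 := zone_cmp F.length (prv n i) i'
      have hz := prv_cases n i
      have hg := gap_spec F i j
      generalize prv n i = z at *
      generalize i * Zw F.length = x0 at *
      generalize z * Zw F.length = x1 at *
      generalize i' * Zw F.length = x2 at *
      omega
    | u i' k' =>
      simp only [gin] at he he'
      simp only [gp, pos, zpos] at hee
      exfalso
      have hc1 := zone_cmp F.length i (prv n i)
      have hc2 := zone_cmp F.length i i'
      have hc3 := zone_cmp F.length (prv n i) i'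
      have hz := prv_cases n i
      have hg := gap_spec F i j
      generalize prv n i = z at *
      generalize i * Zw F.length = x0 at *
      generalize z * Zw F.length = x1 at *
      generalize i' * Zw F.length = x2 at *
      omega
    | g i' j' =>
      simp only [gin] at he he'
      simp only [gp, pos, zpos] at hee
      exfalso
      have hc1 := zone_cmp F.length i (prv n i)
      have hc2 := zone_cmp F.length i i'
      have hc3 := zone_cmp F.length (prv n i) i'
      have hz := prv_cases n i
      have hg := gap_spec F i j
      have hs' := slot_spec F i' j'
      generalize prv n i = z at *
      generalize i * Zw F.length = x0 at *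
      generalize z * Zw F.length = x1 at *
      generalize i' * Zw F.length = x2 at *
      omega
    | h i' j' =>
      simp only [gin] at he he'
      simp only [gp, pos, zpos] at hee
      have key : i = i' ∧ j = j' := by
        have hc1 := zone_cmp F.length i (prv n i)
        have hc2 := zone_cmp F.length i i'
        have hc3 := zone_cmp F.length i (prv n i')
        have hc4 := zone_cmp F.length (prv n i) i'
        have hc5 := zone_cmp F.length (prv n i) (prv n i')
        have hc6 := zone_cmp F.length i' (prv n i')
        have hz := prv_cases n i
        have hg := gap_spec F i j
        have hz' := prv_cases n i'
        have hg' := gap_spec F i' j'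
        generalize prv n i = z at *
        generalize prv n i' = z' at *
        generalize i * Zw F.length = x0 at *
        generalize z * Zw F.length = x1 at *
        generalize i' * Zw F.length = x2 at *
        generalize z' * Zw F.length = x3 at *
        omega
      rw [key.1, key.2]

theorem ga_inj (hn : 2 ≤ n) : ∀ e ∈ (gels F n).toFinset, ∀ e' ∈ (gels F n).toFinset,
    ga F e = ga F e' → e = e' := by
  intro e he e' he' hee
  rw [List.mem_toFinset, mem_gels] at he he'
  cases e with
  | v i k =>
    cases e' with
    | v i' k' =>
      simp only [gin] at he he'
      simp only [ga, pos, zpos] at hee
      have key : i = i' ∧ k = k' := by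
        have hc1 := zone_cmp F.length i i'
        generalize i * Zw F.length = x0 at *
        generalize i' * Zw F.length = x1 at *
        omega
      rw [key.1, key.2]
    | y i' k' =>
      simp only [gin] at he he'
      simp only [ga, pos, zpos] at hee
      exfalso
      have hc1 := zone_cmp F.length i i'
      generalize i * Zw F.length = x0 at *
      generalize i' * Zw F.length = x1 at *
      omega
    | u i' k' =>
      simp only [gin] at he he'
      simp only [ga, pos, zpos] at hee
      exfalso
      have hc1 := zone_cmp F.length i i'
      generalize i * Zw F.length = x0 at *
      generalize i' * Zw F.length = x1 at *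
      omega
    | g i' j' =>
      simp only [gin] at he he'
      simp only [ga, pos, zpos] at hee
      exfalso
      have hc1 := zone_cmp F.length i i'
      have hs' := slot_spec F i' j'
      generalize i * Zw F.length = x0 at *
      generalize i' * Zw F.length = x1 at *
      omega
    | h i' j' =>
      simp only [gin] at he he'
      simp only [ga, pos, zpos] at hee
      exfalso
      have hc1 := zone_cmp F.length i i'
      have hc2 := zone_cmp F.length i (prv n i')
      have hc3 := zone_cmp F.length i' (prv n i')
      have hz' := prv_cases n i'
      have hg' := gap_spec F i' j'
      generalize prv n i' = z' at *
      generalize i * Zw F.length = x0 at *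
      generalize i' * Zw F.length = x1 at *
      generalize z' * Zw F.length = x2 at *
      omega
  | y i k =>
    cases e' with
    | v i' k' =>
      simp only [gin] at he he'
      simp only [ga, pos, zpos] at hee
      exfalso
      have hc1 := zone_cmp F.length i i'
      generalize i * Zw F.length = x0 at *
      generalize i' * Zw F.length = x1 at *
      omega
    | y i' k' =>
      simp only [gin] at he he'
      simp only [ga, pos, zpos] at hee
      have key : i = i' ∧ k = k' := by
        have hc1 := zone_cmp F.length i i'
        generalize i * Zw F.length = x0 at *
        generalize i' * Zw F.length = x1 at *
        omega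
      rw [key.1, key.2]
    | u i' k' =>
      simp only [gin] at he he'
      simp only [ga, pos, zpos] at hee
      exfalso
      have hc1 := zone_cmp F.length i i'
      generalize i * Zw F.length = x0 at *
      generalize i' * Zw F.length = x1 at *
      omega
    | g i' j' =>
      simp only [gin] at he he'
      simp only [ga, pos, zpos] at hee
      exfalso
      have hc1 := zone_cmp F.length i i'
      have hs' := slot_spec F i' j'
      generalize i * Zw F.length = x0 at *
      generalize i' * Zw F.length = x1 at *
      omega
    | h i' j' =>
      simp only [gin] at he he'
      simp only [ga, pos, zpos] at hee
      exfalso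
      have hc1 := zone_cmp F.length i i'
      have hc2 := zone_cmp F.length i (prv n i')
      have hc3 := zone_cmp F.length i' (prv n i')
      have hz' := prv_cases n i'
      have hg' := gap_spec F i' j'
      generalize prv n i' = z' at *
      generalize i * Zw F.length = x0 at *
      generalize i' * Zw F.length = x1 at *
      generalize z' * Zw F.length = x2 at *
      omega
  | u i k =>
    cases e' with
    | v i' k' =>
      simp only [gin] at he he'
      simp only [ga, pos, zpos] at hee
      exfalso
      have hc1 := zone_cmp F.length i i'
      generalize i * Zw F.length = x0 at *
      generalize i' * Zw F.length = x1 at *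
      omega
    | y i' k' =>
      simp only [gin] at he he'
      simp only [ga, pos, zpos] at hee
      exfalso
      have hc1 := zone_cmp F.length i i'
      generalize i * Zw F.length = x0 at *
      generalize i' * Zw F.length = x1 at *
      omega
    | u i' k' =>
      simp only [gin] at he he'
      simp only [ga, pos, zpos] at hee
      have key : i = i' ∧ k = k' := by
        have hc1 := zone_cmp F.length i i'
        generalize i * Zw F.length = x0 at *
        generalize i' * Zw F.length = x1 at *
        omega
      rw [key.1, key.2]
    | g i' j' =>
      simp only [gin] at he he'
      simp only [ga, pos, zpos] at hee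
      exfalso
      have hc1 := zone_cmp F.length i i'
      have hs' := slot_spec F i' j'
      generalize i * Zw F.length = x0 at *
      generalize i' * Zw F.length = x1 at *
      omega
    | h i' j' =>
      simp only [gin] at he he'
      simp only [ga, pos, zpos] at hee
      exfalso
      have hc1 := zone_cmp F.length i i'
      have hc2 := zone_cmp F.length i (prv n i')
      have hc3 := zone_cmp F.length i' (prv n i')
      have hz' := prv_cases n i'
      have hg' := gap_spec F i' j'
      generalize prv n i' = z' at *
      generalize i * Zw F.length = x0 at *
      generalize i' * Zw F.length = x1 at *
      generalize z' * Zw F.length = x2 at *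
      omega
  | g i j =>
    cases e' with
    | v i' k' =>
      simp only [gin] at he he'
      simp only [ga, pos, zpos] at hee
      exfalso
      have hc1 := zone_cmp F.length i i'
      have hs := slot_spec F i j
      generalize i * Zw F.length = x0 at *
      generalize i' * Zw F.length = x1 at *
      omega
    | y i' k' =>
      simp only [gin] at he he'
      simp only [ga, pos, zpos] at hee
      exfalso
      have hc1 := zone_cmp F.length i i'
      have hs := slot_spec F i j
      generalize i * Zw F.length = x0 at *
      generalize i' * Zw F.length = x1 at *
      omega
    | u i' k' =>
      simp only [gin] at he he'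
      simp only [ga, pos, zpos] at hee
      exfalso
      have hc1 := zone_cmp F.length i i'
      have hs := slot_spec F i j
      generalize i * Zw F.length = x0 at *
      generalize i' * Zw F.length = x1 at *
      omega
    | g i' j' =>
      simp only [gin] at he he'
      simp only [ga, pos, zpos] at hee
      have key : i = i' ∧ j = j' := by
        have hc1 := zone_cmp F.length i i'
        have hs := slot_spec F i j
        have hs' := slot_spec F i' j'
        generalize i * Zw F.length = x0 at *
        generalize i' * Zw F.length = x1 at *
        omega
      rw [key.1, key.2]
    | h i' j' =>
      simp only [gin] at he he'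
      simp only [ga, pos, zpos] at hee
      exfalso
      have hc1 := zone_cmp F.length i i'
      have hc2 := zone_cmp F.length i (prv n i')
      have hc3 := zone_cmp F.length i' (prv n i')
      have hs := slot_spec F i j
      have hz' := prv_cases n i'
      have hg' := gap_spec F i' j'
      generalize prv n i' = z' at *
      generalize i * Zw F.length = x0 at *
      generalize i' * Zw F.length = x1 at *
      generalize z' * Zw F.length = x2 at *
      omega
  | h i j =>
    cases e' with
    | v i' k' =>
      simp only [gin] at he he'
      simp only [ga, pos, zpos] at hee
      exfalso
      have hc1 := zone_cmp F.length i (prv n i)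
      have hc2 := zone_cmp F.length i i'
      have hc3 := zone_cmp F.length (prv n i) i'
      have hz := prv_cases n i
      have hg := gap_spec F i j
      generalize prv n i = z at *
      generalize i * Zw F.length = x0 at *
      generalize z * Zw F.length = x1 at *
      generalize i' * Zw F.length = x2 at *
      omega
    | y i' k' =>
      simp only [gin] at he he'
      simp only [ga, pos, zpos] at hee
      exfalso
      have hc1 := zone_cmp F.length i (prv n i)
      have hc2 := zone_cmp F.length i i'
      have hc3 := zone_cmp F.length (prv n i) i'
      have hz := prv_cases n i
      have hg := gap_spec F i j
      generalize prv n i = z at *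
      generalize i * Zw F.length = x0 at *
      generalize z * Zw F.length = x1 at *
      generalize i' * Zw F.length = x2 at *
      omega
    | u i' k' =>
      simp only [gin] at he he'
      simp only [ga, pos, zpos] at hee
      exfalso
      have hc1 := zone_cmp F.length i (prv n i)
      have hc2 := zone_cmp F.length i i'
      have hc3 := zone_cmp F.length (prv n i) i'
      have hz := prv_cases n i
      have hg := gap_spec F i j
      generalize prv n i = z at *
      generalize i * Zw F.length = x0 at *
      generalize z * Zw F.length = x1 at *
      generalize i' * Zw F.length = x2 at *
      omega
    | g i' j' =>
      simp only [gin] at he he'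
      simp only [ga, pos, zpos] at hee
      exfalso
      have hc1 := zone_cmp F.length i (prv n i)
      have hc2 := zone_cmp F.length i i'
      have hc3 := zone_cmp F.length (prv n i) i'
      have hz := prv_cases n i
      have hg := gap_spec F i j
      have hs' := slot_spec F i' j'
      generalize prv n i = z at *
      generalize i * Zw F.length = x0 at *
      generalize z * Zw F.length = x1 at *
      generalize i' * Zw F.length = x2 at *
      omega
    | h i' j' =>
      simp only [gin] at he he'
      simp only [ga, pos, zpos] at hee
      have key : i = i' ∧ j = j' := by
        have hc1 := zone_cmp F.length i (prv n i)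
        have hc2 := zone_cmp F.length i i'
        have hc3 := zone_cmp F.length i (prv n i')
        have hc4 := zone_cmp F.length (prv n i) i'
        have hc5 := zone_cmp F.length (prv n i) (prv n i')
        have hc6 := zone_cmp F.length i' (prv n i')
        have hz := prv_cases n i
        have hg := gap_spec F i j
        have hz' := prv_cases n i'
        have hg' := gap_spec F i' j'
        generalize prv n i = z at *
        generalize prv n i' = z' at *
        generalize i * Zw F.length = x0 at *
        generalize z * Zw F.length = x1 at *
        generalize i' * Zw F.length = x2 at *
        generalize z' * Zw F.length = x3 at *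
        omega
      rw [key.1, key.2]

theorem gb_inj (hn : 2 ≤ n) : ∀ e ∈ (gels F n).toFinset, ∀ e' ∈ (gels F n).toFinset,
    gb F n e = gb F n e' → e = e' := by
  intro e he e' he' hee
  rw [List.mem_toFinset, mem_gels] at he he'
  cases e with
  | v i k =>
    cases e' with
    | v i' k' =>
      simp only [gin] at he he'
      simp only [gb, pos, zpos] at hee
      have key : i = i' ∧ k = k' := by
        have hc1 := zone_cmp F.length i i'
        generalize i * Zw F.length = x0 at *
        generalize i' * Zw F.length = x1 at *
        omega
      rw [key.1, key.2]
    | y i' k' =>
      simp only [gin] at he he'
      simp only [gb, pos, zpos] at hee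
      exfalso
      have hc1 := zone_cmp F.length i i'
      generalize i * Zw F.length = x0 at *
      generalize i' * Zw F.length = x1 at *
      omega
    | u i' k' =>
      simp only [gin] at he he'
      simp only [gb, pos, zpos] at hee
      exfalso
      have hc1 := zone_cmp F.length i i'
      generalize i * Zw F.length = x0 at *
      generalize i' * Zw F.length = x1 at *
      omega
    | g i' j' =>
      simp only [gin] at he he'
      simp only [gb, pos, zpos] at hee
      exfalso
      have hc1 := zone_cmp F.length i i'
      have hs' := slot_spec F i' j'
      generalize i * Zw F.length = x0 at *
      generalize i' * Zw F.length = x1 at *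
      omega
    | h i' j' =>
      simp only [gin] at he he'
      simp only [gb, pos, zpos] at hee
      exfalso
      have hc1 := zone_cmp F.length i i'
      have hc2 := zone_cmp F.length i (prv n i')
      have hc3 := zone_cmp F.length i' (prv n i')
      have hz' := prv_cases n i'
      have hg' := gap_spec F i' j'
      generalize prv n i' = z' at *
      generalize i * Zw F.length = x0 at *
      generalize i' * Zw F.length = x1 at *
      generalize z' * Zw F.length = x2 at *
      omega
  | y i k =>
    cases e' with
    | v i' k' =>
      simp only [gin] at he he'
      simp only [gb, pos, zpos] at hee
      exfalso
      have hc1 := zone_cmp F.length i i'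
      generalize i * Zw F.length = x0 at *
      generalize i' * Zw F.length = x1 at *
      omega
    | y i' k' =>
      simp only [gin] at he he'
      simp only [gb, pos, zpos] at hee
      have key : i = i' ∧ k = k' := by
        have hc1 := zone_cmp F.length i i'
        generalize i * Zw F.length = x0 at *
        generalize i' * Zw F.length = x1 at *
        omega
      rw [key.1, key.2]
    | u i' k' =>
      simp only [gin] at he he'
      simp only [gb, pos, zpos] at hee
      exfalso
      have hc1 := zone_cmp F.length i i'
      generalize i * Zw F.length = x0 at *
      generalize i' * Zw F.length = x1 at *
      omega
    | g i' j' =>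
      simp only [gin] at he he'
      simp only [gb, pos, zpos] at hee
      exfalso
      have hc1 := zone_cmp F.length i i'
      have hs' := slot_spec F i' j'
      generalize i * Zw F.length = x0 at *
      generalize i' * Zw F.length = x1 at *
      omega
    | h i' j' =>
      simp only [gin] at he he'
      simp only [gb, pos, zpos] at hee
      exfalso
      have hc1 := zone_cmp F.length i i'
      have hc2 := zone_cmp F.length i (prv n i')
      have hc3 := zone_cmp F.length i' (prv n i')
      have hz' := prv_cases n i'
      have hg' := gap_spec F i' j'
      generalize prv n i' = z' at *
      generalize i * Zw F.length = x0 at *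
      generalize i' * Zw F.length = x1 at *
      generalize z' * Zw F.length = x2 at *
      omega
  | u i k =>
    cases e' with
    | v i' k' =>
      simp only [gin] at he he'
      simp only [gb, pos, zpos] at hee
      exfalso
      have hc1 := zone_cmp F.length i i'
      generalize i * Zw F.length = x0 at *
      generalize i' * Zw F.length = x1 at *
      omega
    | y i' k' =>
      simp only [gin] at he he'
      simp only [gb, pos, zpos] at hee
      exfalso
      have hc1 := zone_cmp F.length i i'
      generalize i * Zw F.length = x0 at *
      generalize i' * Zw F.length = x1 at *
      omega
    | u i' k' =>
      simp only [gin] at he he'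
      simp only [gb, pos, zpos] at hee
      have key : i = i' ∧ k = k' := by
        have hc1 := zone_cmp F.length i i'
        generalize i * Zw F.length = x0 at *
        generalize i' * Zw F.length = x1 at *
        omega
      rw [key.1, key.2]
    | g i' j' =>
      simp only [gin] at he he'
      simp only [gb, pos, zpos] at hee
      exfalso
      have hc1 := zone_cmp F.length i i'
      have hs' := slot_spec F i' j'
      generalize i * Zw F.length = x0 at *
      generalize i' * Zw F.length = x1 at *
      omega
    | h i' j' =>
      simp only [gin] at he he'
      simp only [gb, pos, zpos] at hee
      exfalso
      have hc1 := zone_cmp F.length i i'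
      have hc2 := zone_cmp F.length i (prv n i')
      have hc3 := zone_cmp F.length i' (prv n i')
      have hz' := prv_cases n i'
      have hg' := gap_spec F i' j'
      generalize prv n i' = z' at *
      generalize i * Zw F.length = x0 at *
      generalize i' * Zw F.length = x1 at *
      generalize z' * Zw F.length = x2 at *
      omega
  | g i j =>
    cases e' with
    | v i' k' =>
      simp only [gin] at he he'
      simp only [gb, pos, zpos] at hee
      exfalso
      have hc1 := zone_cmp F.length i i'
      have hs := slot_spec F i j
      generalize i * Zw F.length = x0 at *
      generalize i' * Zw F.length = x1 at *
      omega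
    | y i' k' =>
      simp only [gin] at he he'
      simp only [gb, pos, zpos] at hee
      exfalso
      have hc1 := zone_cmp F.length i i'
      have hs := slot_spec F i j
      generalize i * Zw F.length = x0 at *
      generalize i' * Zw F.length = x1 at *
      omega
    | u i' k' =>
      simp only [gin] at he he'
      simp only [gb, pos, zpos] at hee
      exfalso
      have hc1 := zone_cmp F.length i i'
      have hs := slot_spec F i j
      generalize i * Zw F.length = x0 at *
      generalize i' * Zw F.length = x1 at *
      omega
    | g i' j' =>
      simp only [gin] at he he'
      simp only [gb, pos, zpos] at hee
      have key : i = i' ∧ j = j' := by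
        have hc1 := zone_cmp F.length i i'
        have hs := slot_spec F i j
        have hs' := slot_spec F i' j'
        generalize i * Zw F.length = x0 at *
        generalize i' * Zw F.length = x1 at *
        omega
      rw [key.1, key.2]
    | h i' j' =>
      simp only [gin] at he he'
      simp only [gb, pos, zpos] at hee
      exfalso
      have hc1 := zone_cmp F.length i i'
      have hc2 := zone_cmp F.length i (prv n i')
      have hc3 := zone_cmp F.length i' (prv n i')
      have hs := slot_spec F i j
      have hz' := prv_cases n i'
      have hg' := gap_spec F i' j'
      generalize prv n i' = z' at *
      generalize i * Zw F.length = x0 at *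
      generalize i' * Zw F.length = x1 at *
      generalize z' * Zw F.length = x2 at *
      omega
  | h i j =>
    cases e' with
    | v i' k' =>
      simp only [gin] at he he'
      simp only [gb, pos, zpos] at hee
      exfalso
      have hc1 := zone_cmp F.length i (prv n i)
      have hc2 := zone_cmp F.length i i'
      have hc3 := zone_cmp F.length (prv n i) i'
      have hz := prv_cases n i
      have hg := gap_spec F i j
      generalize prv n i = z at *
      generalize i * Zw F.length = x0 at *
      generalize z * Zw F.length = x1 at *
      generalize i' * Zw F.length = x2 at *
      omega
    | y i' k' =>
      simp only [gin] at he he'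
      simp only [gb, pos, zpos] at hee
      exfalso
      have hc1 := zone_cmp F.length i (prv n i)
      have hc2 := zone_cmp F.length i i'
      have hc3 := zone_cmp F.length (prv n i) i'
      have hz := prv_cases n i
      have hg := gap_spec F i j
      generalize prv n i = z at *
      generalize i * Zw F.length = x0 at *
      generalize z * Zw F.length = x1 at *
      generalize i' * Zw F.length = x2 at *
      omega
    | u i' k' =>
      simp only [gin] at he he'
      simp only [gb, pos, zpos] at hee
      exfalso
      have hc1 := zone_cmp F.length i (prv n i)
      have hc2 := zone_cmp F.length i i'
      have hc3 := zone_cmp F.length (prv n i) i'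
      have hz := prv_cases n i
      have hg := gap_spec F i j
      generalize prv n i = z at *
      generalize i * Zw F.length = x0 at *
      generalize z * Zw F.length = x1 at *
      generalize i' * Zw F.length = x2 at *
      omega
    | g i' j' =>
      simp only [gin] at he he'
      simp only [gb, pos, zpos] at hee
      exfalso
      have hc1 := zone_cmp F.length i (prv n i)
      have hc2 := zone_cmp F.length i i'
      have hc3 := zone_cmp F.length (prv n i) i'
      have hz := prv_cases n i
      have hg := gap_spec F i j
      have hs' := slot_spec F i' j'
      generalize prv n i = z at *
      generalize i * Zw F.length = x0 at *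
      generalize z * Zw F.length = x1 at *
      generalize i' * Zw F.length = x2 at *
      omega
    | h i' j' =>
      simp only [gin] at he he'
      simp only [gb, pos, zpos] at hee
      have key : i = i' ∧ j = j' := by
        have hc1 := zone_cmp F.length i (prv n i)
        have hc2 := zone_cmp F.length i i'
        have hc3 := zone_cmp F.length i (prv n i')
        have hc4 := zone_cmp F.length (prv n i) i'
        have hc5 := zone_cmp F.length (prv n i) (prv n i')
        have hc6 := zone_cmp F.length i' (prv n i')
        have hz := prv_cases n i
        have hg := gap_spec F i j
        have hz' := prv_cases n i'
        have hg' := gap_spec F i' j'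
        generalize prv n i = z at *
        generalize prv n i' = z' at *
        generalize i * Zw F.length = x0 at *
        generalize z * Zw F.length = x1 at *
        generalize i' * Zw F.length = x2 at *
        generalize z' * Zw F.length = x3 at *
        omega
      rw [key.1, key.2]

theorem gp_ne_ga (hn : 2 ≤ n) : ∀ e ∈ (gels F n).toFinset, ∀ e' ∈ (gels F n).toFinset,
    gp F n e ≠ ga F e' := by
  intro e he e' he' hee
  rw [List.mem_toFinset, mem_gels] at he he'
  cases e with
  | v i k =>
    cases e' with
    | v i' k' =>
      simp only [gin] at he he'
      simp only [gp, ga, pos, zpos] at hee
      exfalso
      have hc1 := zone_cmp F.length i i'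
      generalize i * Zw F.length = x0 at *
      generalize i' * Zw F.length = x1 at *
      omega
    | y i' k' =>
      simp only [gin] at he he'
      simp only [gp, ga, pos, zpos] at hee
      exfalso
      have hc1 := zone_cmp F.length i i'
      generalize i * Zw F.length = x0 at *
      generalize i' * Zw F.length = x1 at *
      omega
    | u i' k' =>
      simp only [gin] at he he'
      simp only [gp, ga, pos, zpos] at hee
      exfalso
      have hc1 := zone_cmp F.length i i'
      generalize i * Zw F.length = x0 at *
      generalize i' * Zw F.length = x1 at *
      omega
    | g i' j' =>
      simp only [gin] at he he'
      simp only [gp, ga, pos, zpos] at hee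
      exfalso
      have hc1 := zone_cmp F.length i i'
      have hs' := slot_spec F i' j'
      generalize i * Zw F.length = x0 at *
      generalize i' * Zw F.length = x1 at *
      omega
    | h i' j' =>
      simp only [gin] at he he'
      simp only [gp, ga, pos, zpos] at hee
      exfalso
      have hc1 := zone_cmp F.length i i'
      have hc2 := zone_cmp F.length i (prv n i')
      have hc3 := zone_cmp F.length i' (prv n i')
      have hz' := prv_cases n i'
      have hg' := gap_spec F i' j'
      generalize prv n i' = z' at *
      generalize i * Zw F.length = x0 at *
      generalize i' * Zw F.length = x1 at *
      generalize z' * Zw F.length = x2 at *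
      omega
  | y i k =>
    cases e' with
    | v i' k' =>
      simp only [gin] at he he'
      simp only [gp, ga, pos, zpos] at hee
      exfalso
      have hc1 := zone_cmp F.length i i'
      generalize i * Zw F.length = x0 at *
      generalize i' * Zw F.length = x1 at *
      omega
    | y i' k' =>
      simp only [gin] at he he'
      simp only [gp, ga, pos, zpos] at hee
      exfalso
      have hc1 := zone_cmp F.length i i'
      generalize i * Zw F.length = x0 at *
      generalize i' * Zw F.length = x1 at *
      omega
    | u i' k' =>
      simp only [gin] at he he'
      simp only [gp, ga, pos, zpos] at hee
      exfalso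
      have hc1 := zone_cmp F.length i i'
      generalize i * Zw F.length = x0 at *
      generalize i' * Zw F.length = x1 at *
      omega
    | g i' j' =>
      simp only [gin] at he he'
      simp only [gp, ga, pos, zpos] at hee
      exfalso
      have hc1 := zone_cmp F.length i i'
      have hs' := slot_spec F i' j'
      generalize i * Zw F.length = x0 at *
      generalize i' * Zw F.length = x1 at *
      omega
    | h i' j' =>
      simp only [gin] at he he'
      simp only [gp, ga, pos, zpos] at hee
      exfalso
      have hc1 := zone_cmp F.length i i'
      have hc2 := zone_cmp F.length i (prv n i')
      have hc3 := zone_cmp F.length i' (prv n i')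
      have hz' := prv_cases n i'
      have hg' := gap_spec F i' j'
      generalize prv n i' = z' at *
      generalize i * Zw F.length = x0 at *
      generalize i' * Zw F.length = x1 at *
      generalize z' * Zw F.length = x2 at *
      omega
  | u i k =>
    cases e' with
    | v i' k' =>
      simp only [gin] at he he'
      simp only [gp, ga, pos, zpos] at hee
      exfalso
      have hc1 := zone_cmp F.length i i'
      generalize i * Zw F.length = x0 at *
      generalize i' * Zw F.length = x1 at *
      omega
    | y i' k' =>
      simp only [gin] at he he'
      simp only [gp, ga, pos, zpos] at hee
      exfalso
      have hc1 := zone_cmp F.length i i'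
      generalize i * Zw F.length = x0 at *
      generalize i' * Zw F.length = x1 at *
      omega
    | u i' k' =>
      simp only [gin] at he he'
      simp only [gp, ga, pos, zpos] at hee
      exfalso
      have hc1 := zone_cmp F.length i i'
      generalize i * Zw F.length = x0 at *
      generalize i' * Zw F.length = x1 at *
      omega
    | g i' j' =>
      simp only [gin] at he he'
      simp only [gp, ga, pos, zpos] at hee
      exfalso
      have hc1 := zone_cmp F.length i i'
      have hs' := slot_spec F i' j'
      generalize i * Zw F.length = x0 at *
      generalize i' * Zw F.length = x1 at *
      omega
    | h i' j' =>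
      simp only [gin] at he he'
      simp only [gp, ga, pos, zpos] at hee
      exfalso
      have hc1 := zone_cmp F.length i i'
      have hc2 := zone_cmp F.length i (prv n i')
      have hc3 := zone_cmp F.length i' (prv n i')
      have hz' := prv_cases n i'
      have hg' := gap_spec F i' j'
      generalize prv n i' = z' at *
      generalize i * Zw F.length = x0 at *
      generalize i' * Zw F.length = x1 at *
      generalize z' * Zw F.length = x2 at *
      omega
  | g i j =>
    cases e' with
    | v i' k' =>
      simp only [gin] at he he'
      simp only [gp, ga, pos, zpos] at hee
      exfalso
      have hc1 := zone_cmp F.length i i'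
      have hs := slot_spec F i j
      generalize i * Zw F.length = x0 at *
      generalize i' * Zw F.length = x1 at *
      omega
    | y i' k' =>
      simp only [gin] at he he'
      simp only [gp, ga, pos, zpos] at hee
      exfalso
      have hc1 := zone_cmp F.length i i'
      have hs := slot_spec F i j
      generalize i * Zw F.length = x0 at *
      generalize i' * Zw F.length = x1 at *
      omega
    | u i' k' =>
      simp only [gin] at he he'
      simp only [gp, ga, pos, zpos] at hee
      exfalso
      have hc1 := zone_cmp F.length i i'
      have hs := slot_spec F i j
      generalize i * Zw F.length = x0 at *
      generalize i' * Zw F.length = x1 at *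
      omega
    | g i' j' =>
      simp only [gin] at he he'
      simp only [gp, ga, pos, zpos] at hee
      exfalso
      have hc1 := zone_cmp F.length i i'
      have hs := slot_spec F i j
      have hs' := slot_spec F i' j'
      generalize i * Zw F.length = x0 at *
      generalize i' * Zw F.length = x1 at *
      omega
    | h i' j' =>
      simp only [gin] at he he'
      simp only [gp, ga, pos, zpos] at hee
      exfalso
      have hc1 := zone_cmp F.length i i'
      have hc2 := zone_cmp F.length i (prv n i')
      have hc3 := zone_cmp F.length i' (prv n i')
      have hs := slot_spec F i j
      have hz' := prv_cases n i'
      have hg' := gap_spec F i' j'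
      generalize prv n i' = z' at *
      generalize i * Zw F.length = x0 at *
      generalize i' * Zw F.length = x1 at *
      generalize z' * Zw F.length = x2 at *
      omega
  | h i j =>
    cases e' with
    | v i' k' =>
      simp only [gin] at he he'
      simp only [gp, ga, pos, zpos] at hee
      exfalso
      have hc1 := zone_cmp F.length i (prv n i)
      have hc2 := zone_cmp F.length i i'
      have hc3 := zone_cmp F.length (prv n i) i'
      have hz := prv_cases n i
      have hg := gap_spec F i j
      generalize prv n i = z at *
      generalize i * Zw F.length = x0 at *
      generalize z * Zw F.length = x1 at *
      generalize i' * Zw F.length = x2 at *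
      omega
    | y i' k' =>
      simp only [gin] at he he'
      simp only [gp, ga, pos, zpos] at hee
      exfalso
      have hc1 := zone_cmp F.length i (prv n i)
      have hc2 := zone_cmp F.length i i'
      have hc3 := zone_cmp F.length (prv n i) i'
      have hz := prv_cases n i
      have hg := gap_spec F i j
      generalize prv n i = z at *
      generalize i * Zw F.length = x0 at *
      generalize z * Zw F.length = x1 at *
      generalize i' * Zw F.length = x2 at *
      omega
    | u i' k' =>
      simp only [gin] at he he'
      simp only [gp, ga, pos, zpos] at hee
      exfalso
      have hc1 := zone_cmp F.length i (prv n i)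
      have hc2 := zone_cmp F.length i i'
      have hc3 := zone_cmp F.length (prv n i) i'
      have hz := prv_cases n i
      have hg := gap_spec F i j
      generalize prv n i = z at *
      generalize i * Zw F.length = x0 at *
      generalize z * Zw F.length = x1 at *
      generalize i' * Zw F.length = x2 at *
      omega
    | g i' j' =>
      simp only [gin] at he he'
      simp only [gp, ga, pos, zpos] at hee
      exfalso
      have hc1 := zone_cmp F.length i (prv n i)
      have hc2 := zone_cmp F.length i i'
      have hc3 := zone_cmp F.length (prv n i) i'
      have hz := prv_cases n i
      have hg := gap_spec F i j
      have hs' := slot_spec F i' j'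
      generalize prv n i = z at *
      generalize i * Zw F.length = x0 at *
      generalize z * Zw F.length = x1 at *
      generalize i' * Zw F.length = x2 at *
      omega
    | h i' j' =>
      simp only [gin] at he he'
      simp only [gp, ga, pos, zpos] at hee
      exfalso
      have hc1 := zone_cmp F.length i (prv n i)
      have hc2 := zone_cmp F.length i i'
      have hc3 := zone_cmp F.length i (prv n i')
      have hc4 := zone_cmp F.length (prv n i) i'
      have hc5 := zone_cmp F.length (prv n i) (prv n i')
      have hc6 := zone_cmp F.length i' (prv n i')
      have hz := prv_cases n i
      have hg := gap_spec F i j
      have hz' := prv_cases n i'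
      have hg' := gap_spec F i' j'
      generalize prv n i = z at *
      generalize prv n i' = z' at *
      generalize i * Zw F.length = x0 at *
      generalize z * Zw F.length = x1 at *
      generalize i' * Zw F.length = x2 at *
      generalize z' * Zw F.length = x3 at *
      omega

theorem gp_ne_gb (hn : 2 ≤ n) : ∀ e ∈ (gels F n).toFinset, ∀ e' ∈ (gels F n).toFinset,
    gp F n e ≠ gb F n e' := by
  intro e he e' he' hee
  rw [List.mem_toFinset, mem_gels] at he he'
  cases e with
  | v i k =>
    cases e' with
    | v i' k' =>
      simp only [gin] at he he'
      simp only [gp, gb, pos, zpos] at hee
      exfalso
      have hc1 := zone_cmp F.length i i'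
      generalize i * Zw F.length = x0 at *
      generalize i' * Zw F.length = x1 at *
      omega
    | y i' k' =>
      simp only [gin] at he he'
      simp only [gp, gb, pos, zpos] at hee
      exfalso
      have hc1 := zone_cmp F.length i i'
      generalize i * Zw F.length = x0 at *
      generalize i' * Zw F.length = x1 at *
      omega
    | u i' k' =>
      simp only [gin] at he he'
      simp only [gp, gb, pos, zpos] at hee
      exfalso
      have hc1 := zone_cmp F.length i i'
      generalize i * Zw F.length = x0 at *
      generalize i' * Zw F.length = x1 at *
      omega
    | g i' j' =>
      simp only [gin] at he he'
      simp only [gp, gb, pos, zpos] at hee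
      exfalso
      have hc1 := zone_cmp F.length i i'
      have hs' := slot_spec F i' j'
      generalize i * Zw F.length = x0 at *
      generalize i' * Zw F.length = x1 at *
      omega
    | h i' j' =>
      simp only [gin] at he he'
      simp only [gp, gb, pos, zpos] at hee
      exfalso
      have hc1 := zone_cmp F.length i i'
      have hc2 := zone_cmp F.length i (prv n i')
      have hc3 := zone_cmp F.length i' (prv n i')
      have hz' := prv_cases n i'
      have hg' := gap_spec F i' j'
      generalize prv n i' = z' at *
      generalize i * Zw F.length = x0 at *
      generalize i' * Zw F.length = x1 at *
      generalize z' * Zw F.length = x2 at *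
      omega
  | y i k =>
    cases e' with
    | v i' k' =>
      simp only [gin] at he he'
      simp only [gp, gb, pos, zpos] at hee
      exfalso
      have hc1 := zone_cmp F.length i i'
      generalize i * Zw F.length = x0 at *
      generalize i' * Zw F.length = x1 at *
      omega
    | y i' k' =>
      simp only [gin] at he he'
      simp only [gp, gb, pos, zpos] at hee
      exfalso
      have hc1 := zone_cmp F.length i i'
      generalize i * Zw F.length = x0 at *
      generalize i' * Zw F.length = x1 at *
      omega
    | u i' k' =>
      simp only [gin] at he he'
      simp only [gp, gb, pos, zpos] at hee
      exfalso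
      have hc1 := zone_cmp F.length i i'
      generalize i * Zw F.length = x0 at *
      generalize i' * Zw F.length = x1 at *
      omega
    | g i' j' =>
      simp only [gin] at he he'
      simp only [gp, gb, pos, zpos] at hee
      exfalso
      have hc1 := zone_cmp F.length i i'
      have hs' := slot_spec F i' j'
      generalize i * Zw F.length = x0 at *
      generalize i' * Zw F.length = x1 at *
      omega
    | h i' j' =>
      simp only [gin] at he he'
      simp only [gp, gb, pos, zpos] at hee
      exfalso
      have hc1 := zone_cmp F.length i i'
      have hc2 := zone_cmp F.length i (prv n i')
      have hc3 := zone_cmp F.length i' (prv n i')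
      have hz' := prv_cases n i'
      have hg' := gap_spec F i' j'
      generalize prv n i' = z' at *
      generalize i * Zw F.length = x0 at *
      generalize i' * Zw F.length = x1 at *
      generalize z' * Zw F.length = x2 at *
      omega
  | u i k =>
    cases e' with
    | v i' k' =>
      simp only [gin] at he he'
      simp only [gp, gb, pos, zpos] at hee
      exfalso
      have hc1 := zone_cmp F.length i i'
      generalize i * Zw F.length = x0 at *
      generalize i' * Zw F.length = x1 at *
      omega
    | y i' k' =>
      simp only [gin] at he he'
      simp only [gp, gb, pos, zpos] at hee
      exfalso
      have hc1 := zone_cmp F.length i i'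
      generalize i * Zw F.length = x0 at *
      generalize i' * Zw F.length = x1 at *
      omega
    | u i' k' =>
      simp only [gin] at he he'
      simp only [gp, gb, pos, zpos] at hee
      exfalso
      have hc1 := zone_cmp F.length i i'
      generalize i * Zw F.length = x0 at *
      generalize i' * Zw F.length = x1 at *
      omega
    | g i' j' =>
      simp only [gin] at he he'
      simp only [gp, gb, pos, zpos] at hee
      exfalso
      have hc1 := zone_cmp F.length i i'
      have hs' := slot_spec F i' j'
      generalize i * Zw F.length = x0 at *
      generalize i' * Zw F.length = x1 at *
      omega
    | h i' j' =>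
      simp only [gin] at he he'
      simp only [gp, gb, pos, zpos] at hee
      exfalso
      have hc1 := zone_cmp F.length i i'
      have hc2 := zone_cmp F.length i (prv n i')
      have hc3 := zone_cmp F.length i' (prv n i')
      have hz' := prv_cases n i'
      have hg' := gap_spec F i' j'
      generalize prv n i' = z' at *
      generalize i * Zw F.length = x0 at *
      generalize i' * Zw F.length = x1 at *
      generalize z' * Zw F.length = x2 at *
      omega
  | g i j =>
    cases e' with
    | v i' k' =>
      simp only [gin] at he he'
      simp only [gp, gb, pos, zpos] at hee
      exfalso
      have hc1 := zone_cmp F.length i i'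
      have hs := slot_spec F i j
      generalize i * Zw F.length = x0 at *
      generalize i' * Zw F.length = x1 at *
      omega
    | y i' k' =>
      simp only [gin] at he he'
      simp only [gp, gb, pos, zpos] at hee
      exfalso
      have hc1 := zone_cmp F.length i i'
      have hs := slot_spec F i j
      generalize i * Zw F.length = x0 at *
      generalize i' * Zw F.length = x1 at *
      omega
    | u i' k' =>
      simp only [gin] at he he'
      simp only [gp, gb, pos, zpos] at hee
      exfalso
      have hc1 := zone_cmp F.length i i'
      have hs := slot_spec F i j
      generalize i * Zw F.length = x0 at *
      generalize i' * Zw F.length = x1 at *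
      omega
    | g i' j' =>
      simp only [gin] at he he'
      simp only [gp, gb, pos, zpos] at hee
      exfalso
      have hc1 := zone_cmp F.length i i'
      have hs := slot_spec F i j
      have hs' := slot_spec F i' j'
      generalize i * Zw F.length = x0 at *
      generalize i' * Zw F.length = x1 at *
      omega
    | h i' j' =>
      simp only [gin] at he he'
      simp only [gp, gb, pos, zpos] at hee
      exfalso
      have hc1 := zone_cmp F.length i i'
      have hc2 := zone_cmp F.length i (prv n i')
      have hc3 := zone_cmp F.length i' (prv n i')
      have hs := slot_spec F i j
      have hz' := prv_cases n i'
      have hg' := gap_spec F i' j'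
      generalize prv n i' = z' at *
      generalize i * Zw F.length = x0 at *
      generalize i' * Zw F.length = x1 at *
      generalize z' * Zw F.length = x2 at *
      omega
  | h i j =>
    cases e' with
    | v i' k' =>
      simp only [gin] at he he'
      simp only [gp, gb, pos, zpos] at hee
      exfalso
      have hc1 := zone_cmp F.length i (prv n i)
      have hc2 := zone_cmp F.length i i'
      have hc3 := zone_cmp F.length (prv n i) i'
      have hz := prv_cases n i
      have hg := gap_spec F i j
      generalize prv n i = z at *
      generalize i * Zw F.length = x0 at *
      generalize z * Zw F.length = x1 at *
      generalize i' * Zw F.length = x2 at *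
      omega
    | y i' k' =>
      simp only [gin] at he he'
      simp only [gp, gb, pos, zpos] at hee
      exfalso
      have hc1 := zone_cmp F.length i (prv n i)
      have hc2 := zone_cmp F.length i i'
      have hc3 := zone_cmp F.length (prv n i) i'
      have hz := prv_cases n i
      have hg := gap_spec F i j
      generalize prv n i = z at *
      generalize i * Zw F.length = x0 at *
      generalize z * Zw F.length = x1 at *
      generalize i' * Zw F.length = x2 at *
      omega
    | u i' k' =>
      simp only [gin] at he he'
      simp only [gp, gb, pos, zpos] at hee
      exfalso
      have hc1 := zone_cmp F.length i (prv n i)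
      have hc2 := zone_cmp F.length i i'
      have hc3 := zone_cmp F.length (prv n i) i'
      have hz := prv_cases n i
      have hg := gap_spec F i j
      generalize prv n i = z at *
      generalize i * Zw F.length = x0 at *
      generalize z * Zw F.length = x1 at *
      generalize i' * Zw F.length = x2 at *
      omega
    | g i' j' =>
      simp only [gin] at he he'
      simp only [gp, gb, pos, zpos] at hee
      exfalso
      have hc1 := zone_cmp F.length i (prv n i)
      have hc2 := zone_cmp F.length i i'
      have hc3 := zone_cmp F.length (prv n i) i'
      have hz := prv_cases n i
      have hg := gap_spec F i j
      have hs' := slot_spec F i' j'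
      generalize prv n i = z at *
      generalize i * Zw F.length = x0 at *
      generalize z * Zw F.length = x1 at *
      generalize i' * Zw F.length = x2 at *
      omega
    | h i' j' =>
      simp only [gin] at he he'
      simp only [gp, gb, pos, zpos] at hee
      exfalso
      have hc1 := zone_cmp F.length i (prv n i)
      have hc2 := zone_cmp F.length i i'
      have hc3 := zone_cmp F.length i (prv n i')
      have hc4 := zone_cmp F.length (prv n i) i'
      have hc5 := zone_cmp F.length (prv n i) (prv n i')
      have hc6 := zone_cmp F.length i' (prv n i')
      have hz := prv_cases n i
      have hg := gap_spec F i j
      have hz' := prv_cases n i'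
      have hg' := gap_spec F i' j'
      generalize prv n i = z at *
      generalize prv n i' = z' at *
      generalize i * Zw F.length = x0 at *
      generalize z * Zw F.length = x1 at *
      generalize i' * Zw F.length = x2 at *
      generalize z' * Zw F.length = x3 at *
      omega

theorem ga_ne_gb (hn : 2 ≤ n) : ∀ e ∈ (gels F n).toFinset, ∀ e' ∈ (gels F n).toFinset,
    ga F e ≠ gb F n e' := by
  intro e he e' he' hee
  rw [List.mem_toFinset, mem_gels] at he he'
  cases e with
  | v i k =>
    cases e' with
    | v i' k' =>
      simp only [gin] at he he'
      simp only [ga, gb, pos, zpos] at hee
      exfalso
      have hc1 := zone_cmp F.length i i'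
      generalize i * Zw F.length = x0 at *
      generalize i' * Zw F.length = x1 at *
      omega
    | y i' k' =>
      simp only [gin] at he he'
      simp only [ga, gb, pos, zpos] at hee
      exfalso
      have hc1 := zone_cmp F.length i i'
      generalize i * Zw F.length = x0 at *
      generalize i' * Zw F.length = x1 at *
      omega
    | u i' k' =>
      simp only [gin] at he he'
      simp only [ga, gb, pos, zpos] at hee
      exfalso
      have hc1 := zone_cmp F.length i i'
      generalize i * Zw F.length = x0 at *
      generalize i' * Zw F.length = x1 at *
      omega
    | g i' j' =>
      simp only [gin] at he he'
      simp only [ga, gb, pos, zpos] at hee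
      exfalso
      have hc1 := zone_cmp F.length i i'
      have hs' := slot_spec F i' j'
      generalize i * Zw F.length = x0 at *
      generalize i' * Zw F.length = x1 at *
      omega
    | h i' j' =>
      simp only [gin] at he he'
      simp only [ga, gb, pos, zpos] at hee
      exfalso
      have hc1 := zone_cmp F.length i i'
      have hc2 := zone_cmp F.length i (prv n i')
      have hc3 := zone_cmp F.length i' (prv n i')
      have hz' := prv_cases n i'
      have hg' := gap_spec F i' j'
      generalize prv n i' = z' at *
      generalize i * Zw F.length = x0 at *
      generalize i' * Zw F.length = x1 at *
      generalize z' * Zw F.length = x2 at *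
      omega
  | y i k =>
    cases e' with
    | v i' k' =>
      simp only [gin] at he he'
      simp only [ga, gb, pos, zpos] at hee
      exfalso
      have hc1 := zone_cmp F.length i i'
      generalize i * Zw F.length = x0 at *
      generalize i' * Zw F.length = x1 at *
      omega
    | y i' k' =>
      simp only [gin] at he he'
      simp only [ga, gb, pos, zpos] at hee
      exfalso
      have hc1 := zone_cmp F.length i i'
      generalize i * Zw F.length = x0 at *
      generalize i' * Zw F.length = x1 at *
      omega
    | u i' k' =>
      simp only [gin] at he he'
      simp only [ga, gb, pos, zpos] at hee
      exfalso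
      have hc1 := zone_cmp F.length i i'
      generalize i * Zw F.length = x0 at *
      generalize i' * Zw F.length = x1 at *
      omega
    | g i' j' =>
      simp only [gin] at he he'
      simp only [ga, gb, pos, zpos] at hee
      exfalso
      have hc1 := zone_cmp F.length i i'
      have hs' := slot_spec F i' j'
      generalize i * Zw F.length = x0 at *
      generalize i' * Zw F.length = x1 at *
      omega
    | h i' j' =>
      simp only [gin] at he he'
      simp only [ga, gb, pos, zpos] at hee
      exfalso
      have hc1 := zone_cmp F.length i i'
      have hc2 := zone_cmp F.length i (prv n i')
      have hc3 := zone_cmp F.length i' (prv n i')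
      have hz' := prv_cases n i'
      have hg' := gap_spec F i' j'
      generalize prv n i' = z' at *
      generalize i * Zw F.length = x0 at *
      generalize i' * Zw F.length = x1 at *
      generalize z' * Zw F.length = x2 at *
      omega
  | u i k =>
    cases e' with
    | v i' k' =>
      simp only [gin] at he he'
      simp only [ga, gb, pos, zpos] at hee
      exfalso
      have hc1 := zone_cmp F.length i i'
      generalize i * Zw F.length = x0 at *
      generalize i' * Zw F.length = x1 at *
      omega
    | y i' k' =>
      simp only [gin] at he he'
      simp only [ga, gb, pos, zpos] at hee
      exfalso
      have hc1 := zone_cmp F.length i i'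
      generalize i * Zw F.length = x0 at *
      generalize i' * Zw F.length = x1 at *
      omega
    | u i' k' =>
      simp only [gin] at he he'
      simp only [ga, gb, pos, zpos] at hee
      exfalso
      have hc1 := zone_cmp F.length i i'
      generalize i * Zw F.length = x0 at *
      generalize i' * Zw F.length = x1 at *
      omega
    | g i' j' =>
      simp only [gin] at he he'
      simp only [ga, gb, pos, zpos] at hee
      exfalso
      have hc1 := zone_cmp F.length i i'
      have hs' := slot_spec F i' j'
      generalize i * Zw F.length = x0 at *
      generalize i' * Zw F.length = x1 at *
      omega
    | h i' j' =>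
      simp only [gin] at he he'
      simp only [ga, gb, pos, zpos] at hee
      exfalso
      have hc1 := zone_cmp F.length i i'
      have hc2 := zone_cmp F.length i (prv n i')
      have hc3 := zone_cmp F.length i' (prv n i')
      have hz' := prv_cases n i'
      have hg' := gap_spec F i' j'
      generalize prv n i' = z' at *
      generalize i * Zw F.length = x0 at *
      generalize i' * Zw F.length = x1 at *
      generalize z' * Zw F.length = x2 at *
      omega
  | g i j =>
    cases e' with
    | v i' k' =>
      simp only [gin] at he he'
      simp only [ga, gb, pos, zpos] at hee
      exfalso
      have hc1 := zone_cmp F.length i i'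
      have hs := slot_spec F i j
      generalize i * Zw F.length = x0 at *
      generalize i' * Zw F.length = x1 at *
      omega
    | y i' k' =>
      simp only [gin] at he he'
      simp only [ga, gb, pos, zpos] at hee
      exfalso
      have hc1 := zone_cmp F.length i i'
      have hs := slot_spec F i j
      generalize i * Zw F.length = x0 at *
      generalize i' * Zw F.length = x1 at *
      omega
    | u i' k' =>
      simp only [gin] at he he'
      simp only [ga, gb, pos, zpos] at hee
      exfalso
      have hc1 := zone_cmp F.length i i'
      have hs := slot_spec F i j
      generalize i * Zw F.length = x0 at *
      generalize i' * Zw F.length = x1 at *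
      omega
    | g i' j' =>
      simp only [gin] at he he'
      simp only [ga, gb, pos, zpos] at hee
      exfalso
      have hc1 := zone_cmp F.length i i'
      have hs := slot_spec F i j
      have hs' := slot_spec F i' j'
      generalize i * Zw F.length = x0 at *
      generalize i' * Zw F.length = x1 at *
      omega
    | h i' j' =>
      simp only [gin] at he he'
      simp only [ga, gb, pos, zpos] at hee
      exfalso
      have hc1 := zone_cmp F.length i i'
      have hc2 := zone_cmp F.length i (prv n i')
      have hc3 := zone_cmp F.length i' (prv n i')
      have hs := slot_spec F i j
      have hz' := prv_cases n i'
      have hg' := gap_spec F i' j'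
      generalize prv n i' = z' at *
      generalize i * Zw F.length = x0 at *
      generalize i' * Zw F.length = x1 at *
      generalize z' * Zw F.length = x2 at *
      omega
  | h i j =>
    cases e' with
    | v i' k' =>
      simp only [gin] at he he'
      simp only [ga, gb, pos, zpos] at hee
      exfalso
      have hc1 := zone_cmp F.length i (prv n i)
      have hc2 := zone_cmp F.length i i'
      have hc3 := zone_cmp F.length (prv n i) i'
      have hz := prv_cases n i
      have hg := gap_spec F i j
      generalize prv n i = z at *
      generalize i * Zw F.length = x0 at *
      generalize z * Zw F.length = x1 at *
      generalize i' * Zw F.length = x2 at *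
      omega
    | y i' k' =>
      simp only [gin] at he he'
      simp only [ga, gb, pos, zpos] at hee
      exfalso
      have hc1 := zone_cmp F.length i (prv n i)
      have hc2 := zone_cmp F.length i i'
      have hc3 := zone_cmp F.length (prv n i) i'
      have hz := prv_cases n i
      have hg := gap_spec F i j
      generalize prv n i = z at *
      generalize i * Zw F.length = x0 at *
      generalize z * Zw F.length = x1 at *
      generalize i' * Zw F.length = x2 at *
      omega
    | u i' k' =>
      simp only [gin] at he he'
      simp only [ga, gb, pos, zpos] at hee
      exfalso
      have hc1 := zone_cmp F.length i (prv n i)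
      have hc2 := zone_cmp F.length i i'
      have hc3 := zone_cmp F.length (prv n i) i'
      have hz := prv_cases n i
      have hg := gap_spec F i j
      generalize prv n i = z at *
      generalize i * Zw F.length = x0 at *
      generalize z * Zw F.length = x1 at *
      generalize i' * Zw F.length = x2 at *
      omega
    | g i' j' =>
      simp only [gin] at he he'
      simp only [ga, gb, pos, zpos] at hee
      exfalso
      have hc1 := zone_cmp F.length i (prv n i)
      have hc2 := zone_cmp F.length i i'
      have hc3 := zone_cmp F.length (prv n i) i'
      have hz := prv_cases n i
      have hg := gap_spec F i j
      have hs' := slot_spec F i' j'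
      generalize prv n i = z at *
      generalize i * Zw F.length = x0 at *
      generalize z * Zw F.length = x1 at *
      generalize i' * Zw F.length = x2 at *
      omega
    | h i' j' =>
      simp only [gin] at he he'
      simp only [ga, gb, pos, zpos] at hee
      exfalso
      have hc1 := zone_cmp F.length i (prv n i)
      have hc2 := zone_cmp F.length i i'
      have hc3 := zone_cmp F.length i (prv n i')
      have hc4 := zone_cmp F.length (prv n i) i'
      have hc5 := zone_cmp F.length (prv n i) (prv n i')
      have hc6 := zone_cmp F.length i' (prv n i')
      have hz := prv_cases n i
      have hg := gap_spec F i j
      have hz' := prv_cases n i'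
      have hg' := gap_spec F i' j'
      generalize prv n i = z at *
      generalize prv n i' = z' at *
      generalize i * Zw F.length = x0 at *
      generalize z * Zw F.length = x1 at *
      generalize i' * Zw F.length = x2 at *
      generalize z' * Zw F.length = x3 at *
      omega

end Pool.Agent.H72F
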