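import Pool.Agent.Lib.H72F.GadMem

/-!
# CHUNK G2: the red chords of the gadget do not cross

Method: split into the 25 cases; unfold `pr`, `Cross`, `gp`, `ga`, `pos`, `zpos`; for two zones `i`, `i'`
distinguish `i < i'`, `i = i'`, `i > i'` (`zone_le`; for `h` the zones `i` and `prv n i`), generalize the
products `i * Zw m`; then everything is linear (unfold `Zw` in the bounds of the offsets only) and
`omega` does it. Use `slot_spec`, `gap_spec`.
-/

set_option autoImplicit false

namespace Pool.Agent.H72F

variable {F : List (List (ℕ × Bool))} {n : ℕ}

private theorem cross_pr (x y u v : ℕ) : Cross (pr x y) (pr u v) ↔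
    (x < u ∧ u < y ∧ (v < x ∨ y < v)) ∨ (y < u ∧ u < x ∧ (v < y ∨ x < v)) ∨
      (x < v ∧ v < y ∧ (u < x ∨ y < u)) ∨ (y < v ∧ v < x ∧ (u < y ∨ x < u)) := by
  unfold Cross pr
  simp only
  rcases le_total x y with h | h <;> rcases le_total u v with h' | h' <;>
    simp only [min_eq_left, min_eq_right, max_eq_left, max_eq_right, h, h'] <;> omega

/-- comparison of two zones -/
private theorem zone_cmp (m i i' : ℕ) :
    (i < i' ∧ i * Zw m + (11 * (2 * m + 2) + 4 * m) ≤ i' * Zw m) ∨
    (i = i' ∧ i * Zw m = i' * Zw m) ∨
      (i' < i ∧ i' * Zw m + (11 * (2 * m + 2) + 4 * m) ≤ i * Zw m) := by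
  rcases lt_trichotomy i i' with h | h | h
  · exact Or.inl ⟨h, zone_le m h⟩
  · exact Or.inr (Or.inl ⟨h, by rw [h]⟩)
  · exact Or.inr (Or.inr ⟨h, zone_le m h⟩)

private theorem prv_cases (n i : ℕ) :
    (i = 0 ∧ prv n i = n - 1) ∨ (0 < i ∧ prv n i + 1 = i) := by
  unfold prv
  split <;> omega

theorem gad_red (hn : 2 ≤ n) : ∀ e ∈ (gels F n).toFinset, ∀ e' ∈ (gels F n).toFinset,
    ¬ Cross (pr (gp F n e) (ga F e)) (pr (gp F n e') (ga F e')) := by
  intro e he e' he'
  rw [List.mem_toFinset, mem_gels] at he he'
  cases e with
  | v i k =>
    cases e' with
    | v i' k' =>
      simp only [gin] at he he'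
      simp only [gp, ga, pos, zpos, cross_pr]
      have hc1 := zone_cmp F.length i i'
      generalize i * Zw F.length = x0 at *
      generalize i' * Zw F.length = x1 at *
      omega
    | y i' k' =>
      simp only [gin] at he he'
      simp only [gp, ga, pos, zpos, cross_pr]
      have hc1 := zone_cmp F.length i i'
      generalize i * Zw F.length = x0 at *
      generalize i' * Zw F.length = x1 at *
      omega
    | u i' k' =>
      simp only [gin] at he he'
      simp only [gp, ga, pos, zpos, cross_pr]
      have hc1 := zone_cmp F.length i i'
      generalize i * Zw F.length = x0 at *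
      generalize i' * Zw F.length = x1 at *
      omega
    | g i' j' =>
      simp only [gin] at he he'
      simp only [gp, ga, pos, zpos, cross_pr]
      have hc1 := zone_cmp F.length i i'
      have hs' := slot_spec F i' j'
      have he1 : i' = i → slot F i' j' = slot F i j' := fun h => by rw [h]
      generalize i * Zw F.length = x0 at *
      generalize i' * Zw F.length = x1 at *
      omega
    | h i' j' =>
      simp only [gin] at he he'
      simp only [gp, ga, pos, zpos, cross_pr]
      have hc1 := zone_cmp F.length i i'
      have hc2 := zone_cmp F.length i (prv n i')
      have hc3 := zone_cmp F.length i' (prv n i')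
      have hz' : (i' = 0 ∧ prv n i' = n - 1) ∨ (0 < i' ∧ prv n i' + 1 = i') := prv_cases n i'
      have hg' := gap_spec F i' j'
      generalize prv n i' = z' at *
      generalize i * Zw F.length = x0 at *
      generalize i' * Zw F.length = x1 at *
      generalize z' * Zw F.length = x2 at *
      omega
  | y i k =>
    cases e' with
    | v i' k' =>
      simp only [gin] at he he'
      simp only [gp, ga, pos, zpos, cross_pr]
      have hc1 := zone_cmp F.length i i'
      generalize i * Zw F.length = x0 at *
      generalize i' * Zw F.length = x1 at *
      omega
    | y i' k' =>
      simp only [gin] at he he'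
      simp only [gp, ga, pos, zpos, cross_pr]
      have hc1 := zone_cmp F.length i i'
      generalize i * Zw F.length = x0 at *
      generalize i' * Zw F.length = x1 at *
      omega
    | u i' k' =>
      simp only [gin] at he he'
      simp only [gp, ga, pos, zpos, cross_pr]
      have hc1 := zone_cmp F.length i i'
      generalize i * Zw F.length = x0 at *
      generalize i' * Zw F.length = x1 at *
      omega
    | g i' j' =>
      simp only [gin] at he he'
      simp only [gp, ga, pos, zpos, cross_pr]
      have hc1 := zone_cmp F.length i i'
      have hs' := slot_spec F i' j'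
      have he1 : i' = i → slot F i' j' = slot F i j' := fun h => by rw [h]
      generalize i * Zw F.length = x0 at *
      generalize i' * Zw F.length = x1 at *
      omega
    | h i' j' =>
      simp only [gin] at he he'
      simp only [gp, ga, pos, zpos, cross_pr]
      have hc1 := zone_cmp F.length i i'
      have hc2 := zone_cmp F.length i (prv n i')
      have hc3 := zone_cmp F.length i' (prv n i')
      have hz' : (i' = 0 ∧ prv n i' = n - 1) ∨ (0 < i' ∧ prv n i' + 1 = i') := prv_cases n i'
      have hg' := gap_spec F i' j'
      generalize prv n i' = z' at *
      generalize i * Zw F.length = x0 at *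
      generalize i' * Zw F.length = x1 at *
      generalize z' * Zw F.length = x2 at *
      omega
  | u i k =>
    cases e' with
    | v i' k' =>
      simp only [gin] at he he'
      simp only [gp, ga, pos, zpos, cross_pr]
      have hc1 := zone_cmp F.length i i'
      generalize i * Zw F.length = x0 at *
      generalize i' * Zw F.length = x1 at *
      omega
    | y i' k' =>
      simp only [gin] at he he'
      simp only [gp, ga, pos, zpos, cross_pr]
      have hc1 := zone_cmp F.length i i'
      generalize i * Zw F.length = x0 at *
      generalize i' * Zw F.length = x1 at *
      omega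
    | u i' k' =>
      simp only [gin] at he he'
      simp only [gp, ga, pos, zpos, cross_pr]
      have hc1 := zone_cmp F.length i i'
      generalize i * Zw F.length = x0 at *
      generalize i' * Zw F.length = x1 at *
      omega
    | g i' j' =>
      simp only [gin] at he he'
      simp only [gp, ga, pos, zpos, cross_pr]
      have hc1 := zone_cmp F.length i i'
      have hs' := slot_spec F i' j'
      have he1 : i' = i → slot F i' j' = slot F i j' := fun h => by rw [h]
      generalize i * Zw F.length = x0 at *
      generalize i' * Zw F.length = x1 at *
      omega
    | h i' j' =>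
      simp only [gin] at he he'
      simp only [gp, ga, pos, zpos, cross_pr]
      have hc1 := zone_cmp F.length i i'
      have hc2 := zone_cmp F.length i (prv n i')
      have hc3 := zone_cmp F.length i' (prv n i')
      have hz' : (i' = 0 ∧ prv n i' = n - 1) ∨ (0 < i' ∧ prv n i' + 1 = i') := prv_cases n i'
      have hg' := gap_spec F i' j'
      generalize prv n i' = z' at *
      generalize i * Zw F.length = x0 at *
      generalize i' * Zw F.length = x1 at *
      generalize z' * Zw F.length = x2 at *
      omega
  | g i j =>
    cases e' with
    | v i' k' =>
      simp only [gin] at he he'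
      simp only [gp, ga, pos, zpos, cross_pr]
      have hc1 := zone_cmp F.length i i'
      have hs := slot_spec F i j
      generalize i * Zw F.length = x0 at *
      generalize i' * Zw F.length = x1 at *
      omega
    | y i' k' =>
      simp only [gin] at he he'
      simp only [gp, ga, pos, zpos, cross_pr]
      have hc1 := zone_cmp F.length i i'
      have hs := slot_spec F i j
      generalize i * Zw F.length = x0 at *
      generalize i' * Zw F.length = x1 at *
      omega
    | u i' k' =>
      simp only [gin] at he he'
      simp only [gp, ga, pos, zpos, cross_pr]
      have hc1 := zone_cmp F.length i i'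
      have hs := slot_spec F i j
      generalize i * Zw F.length = x0 at *
      generalize i' * Zw F.length = x1 at *
      omega
    | g i' j' =>
      simp only [gin] at he he'
      simp only [gp, ga, pos, zpos, cross_pr]
      have hc1 := zone_cmp F.length i i'
      have hs := slot_spec F i j
      have hs' := slot_spec F i' j'
      have he1 : i' = i → slot F i' j' = slot F i j' := fun h => by rw [h]
      generalize i * Zw F.length = x0 at *
      generalize i' * Zw F.length = x1 at *
      omega
    | h i' j' =>
      simp only [gin] at he he'
      simp only [gp, ga, pos, zpos, cross_pr]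
      have hc1 := zone_cmp F.length i i'
      have hc2 := zone_cmp F.length i (prv n i')
      have hc3 := zone_cmp F.length i' (prv n i')
      have hs := slot_spec F i j
      have hz' : (i' = 0 ∧ prv n i' = n - 1) ∨ (0 < i' ∧ prv n i' + 1 = i') := prv_cases n i'
      have hg' := gap_spec F i' j'
      generalize prv n i' = z' at *
      generalize i * Zw F.length = x0 at *
      generalize i' * Zw F.length = x1 at *
      generalize z' * Zw F.length = x2 at *
      omega
  | h i j =>
    cases e' with
    | v i' k' =>
      simp only [gin] at he he'
      simp only [gp, ga, pos, zpos, cross_pr]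
      have hc1 := zone_cmp F.length i (prv n i)
      have hc2 := zone_cmp F.length i i'
      have hc3 := zone_cmp F.length (prv n i) i'
      have hz : (i = 0 ∧ prv n i = n - 1) ∨ (0 < i ∧ prv n i + 1 = i) := prv_cases n i
      have hg := gap_spec F i j
      generalize prv n i = z at *
      generalize i * Zw F.length = x0 at *
      generalize z * Zw F.length = x1 at *
      generalize i' * Zw F.length = x2 at *
      omega
    | y i' k' =>
      simp only [gin] at he he'
      simp only [gp, ga, pos, zpos, cross_pr]
      have hc1 := zone_cmp F.length i (prv n i)
      have hc2 := zone_cmp F.length i i'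
      have hc3 := zone_cmp F.length (prv n i) i'
      have hz : (i = 0 ∧ prv n i = n - 1) ∨ (0 < i ∧ prv n i + 1 = i) := prv_cases n i
      have hg := gap_spec F i j
      generalize prv n i = z at *
      generalize i * Zw F.length = x0 at *
      generalize z * Zw F.length = x1 at *
      generalize i' * Zw F.length = x2 at *
      omega
    | u i' k' =>
      simp only [gin] at he he'
      simp only [gp, ga, pos, zpos, cross_pr]
      have hc1 := zone_cmp F.length i (prv n i)
      have hc2 := zone_cmp F.length i i'
      have hc3 := zone_cmp F.length (prv n i) i'
      have hz : (i = 0 ∧ prv n i = n - 1) ∨ (0 < i ∧ prv n i + 1 = i) := prv_cases n i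
      have hg := gap_spec F i j
      generalize prv n i = z at *
      generalize i * Zw F.length = x0 at *
      generalize z * Zw F.length = x1 at *
      generalize i' * Zw F.length = x2 at *
      omega
    | g i' j' =>
      simp only [gin] at he he'
      simp only [gp, ga, pos, zpos, cross_pr]
      have hc1 := zone_cmp F.length i (prv n i)
      have hc2 := zone_cmp F.length i i'
      have hc3 := zone_cmp F.length (prv n i) i'
      have hz : (i = 0 ∧ prv n i = n - 1) ∨ (0 < i ∧ prv n i + 1 = i) := prv_cases n i
      have hg := gap_spec F i j
      have hs' := slot_spec F i' j'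
      have he1 : i' = i → slot F i' j' = slot F i j' := fun h => by rw [h]
      generalize prv n i = z at *
      generalize i * Zw F.length = x0 at *
      generalize z * Zw F.length = x1 at *
      generalize i' * Zw F.length = x2 at *
      omega
    | h i' j' =>
      simp only [gin] at he he'
      simp only [gp, ga, pos, zpos, cross_pr]
      have hc1 := zone_cmp F.length i (prv n i)
      have hc2 := zone_cmp F.length i i'
      have hc3 := zone_cmp F.length i (prv n i')
      have hc4 := zone_cmp F.length (prv n i) i'
      have hc5 := zone_cmp F.length (prv n i) (prv n i')
      have hc6 := zone_cmp F.length i' (prv n i')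
      have hz : (i = 0 ∧ prv n i = n - 1) ∨ (0 < i ∧ prv n i + 1 = i) := prv_cases n i
      have hg := gap_spec F i j
      have hz' : (i' = 0 ∧ prv n i' = n - 1) ∨ (0 < i' ∧ prv n i' + 1 = i') := prv_cases n i'
      have hg' := gap_spec F i' j'
      generalize prv n i = z at *
      generalize prv n i' = z' at *
      generalize i * Zw F.length = x0 at *
      generalize z * Zw F.length = x1 at *
      generalize i' * Zw F.length = x2 at *
      generalize z' * Zw F.length = x3 at *
      omega

end Pool.Agent.H72F
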