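import Pool.Agent.Lib.H72F.GadRed
import Pool.Agent.Lib.H72F.GadBlue

/-!
# The system of a formula
-/

set_option autoImplicit false

namespace Pool.Agent.H72F

/-- the system of a formula -/
def gsys (F : List (List (ℕ × Bool))) (n : ℕ) (hn : 2 ≤ n) : Sys El where
  K := n * Zw F.length
  els := (gels F n).toFinset
  p := gp F n
  a := ga F
  b := gb F n
  w := gw F
  four_le := by
    have : 22 ≤ Zw F.length := by unfold Zw; omega
    nlinarith
  p_lt := gp_lt hn
  a_lt := ga_lt hn
  b_lt := gb_lt hn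
  w_pos := gw_pos
  p_inj := gp_inj hn
  a_inj := ga_inj hn
  b_inj := gb_inj hn
  p_ne_a := gp_ne_ga hn
  p_ne_b := gp_ne_gb hn
  a_ne_b := ga_ne_gb hn
  red := gad_red hn
  blue := gad_blue hn

/-- the target weight -/
def W0 (F : List (List (ℕ × Bool))) (n : ℕ) : ℕ := 2 * n * F.length + n * (6 * F.length - 1)

end Pool.Agent.H72F
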