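import Pool.Agent.Lib.H72F.Sys

/-!
# CHUNK S1a: geometry of the blow-up, points and vertices
-/

set_option autoImplicit false

namespace Pool.Agent.H72F.Sys

variable {ι : Type} [DecidableEq ι] (S : Sys ι) (M : ℕ)

theorem start_mono {x y : ℕ} (h : x ≤ y) : S.start M x ≤ S.start M y := by
  unfold start
  apply Nat.add_le_add h
  apply Finset.sum_le_sum_of_subset
  intro i hi
  rw [Finset.mem_filter] at hi ⊢
  exact ⟨hi.1, by omega⟩

theorem start_succ (x : ℕ) : S.start M (x + 1) = S.start M x + S.size M x := by
  have := S.start_mono M (Nat.le_succ x)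
  unfold size
  rw [Nat.succ_eq_add_one] at this
  omega

/-- blocks are disjoint and ordered -/
theorem start_lt {x y s : ℕ} (h : x < y) (hs : s < S.size M x) :
    S.start M x + s < S.start M y := by
  have h1 := S.start_succ M x
  have h2 := S.start_mono M (Nat.succ_le_of_lt h)
  rw [Nat.succ_eq_add_one] at h2
  omega

theorem size_eq (x : ℕ) : S.size M x = 1 + ∑ i ∈ S.els with S.p i = x, (M * S.w i + 1) := by
  have h1 : S.start M (x + 1) = S.start M x + (1 + ∑ i ∈ S.els with S.p i = x, (M * S.w i + 1)) := by
    unfold start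
    have h2 : S.els.filter (fun i => S.p i < x + 1)
        = S.els.filter (fun i => S.p i < x) ∪ S.els.filter (fun i => S.p i = x) := by
      ext i
      simp only [Finset.mem_filter, Finset.mem_union]
      constructor
      · rintro ⟨h, h'⟩
        rcases Nat.lt_or_ge (S.p i) x with h3 | h3
        · exact Or.inl ⟨h, h3⟩
        · exact Or.inr ⟨h, by omega⟩
      · rintro (⟨h, h'⟩ | ⟨h, h'⟩)
        · exact ⟨h, by omega⟩
        · exact ⟨h, by omega⟩
    have h3 : Disjoint (S.els.filter (fun i => S.p i < x)) (S.els.filter (fun i => S.p i = x)) := by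
      rw [Finset.disjoint_left]
      intro i hi hi'
      rw [Finset.mem_filter] at hi hi'
      omega
    rw [h2, Finset.sum_union h3]
    omega
  have h2 := S.start_succ M x
  omega

theorem size_p {i : ι} (hi : i ∈ S.els) : S.size M (S.p i) = M * S.w i + 2 := by
  rw [size_eq]
  have : S.els.filter (fun j => S.p j = S.p i) = {i} := by
    ext j
    rw [Finset.mem_filter, Finset.mem_singleton]
    constructor
    · rintro ⟨hj, h⟩
      exact S.p_inj j hj i hi h
    · rintro rfl
      exact ⟨hi, rfl⟩
  rw [this, Finset.sum_singleton]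
  omega

theorem size_one {x : ℕ} (h : ∀ j ∈ S.els, S.p j ≠ x) : S.size M x = 1 := by
  rw [size_eq]
  have : S.els.filter (fun j => S.p j = x) = ∅ := by
    rw [Finset.filter_eq_empty_iff]
    intro j hj
    exact h j hj
  rw [this, Finset.sum_empty, Nat.add_zero]

theorem size_a {i : ι} (hi : i ∈ S.els) : S.size M (S.a i) = 1 :=
  S.size_one M (fun j hj => S.p_ne_a j hj i hi)

theorem size_b {i : ι} (hi : i ∈ S.els) : S.size M (S.b i) = 1 :=
  S.size_one M (fun j hj => S.p_ne_b j hj i hi)

theorem size_pos (x : ℕ) : 1 ≤ S.size M x := by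
  rw [size_eq]
  omega

/-- vertices are smaller than `nn` -/
theorem vertex_lt {x s : ℕ} (h : x < S.K) (hs : s < S.size M x) : S.start M x + s < S.nn M :=
  S.start_lt M h hs

theorem nn_eq : S.nn M = S.K + S.els.card + M * S.wt S.els := by
  unfold nn start wt
  have h : S.els.filter (fun i => S.p i < S.K) = S.els := by
    rw [Finset.filter_eq_self]
    exact fun i hi => S.p_lt i hi
  rw [h, Finset.sum_add_distrib, Finset.mul_sum, Finset.sum_const, smul_eq_mul, mul_one]
  omega

/-- Crossing depends only on the order of the endpoints. -/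
theorem cross_congr {x y u v X Y U V : ℕ} (_h1 : x < y ↔ X < Y) (h2 : y < x ↔ Y < X) (h3 : u < v ↔ U < V)
    (h4 : v < u ↔ V < U) (h5 : x < u ↔ X < U) (h6 : u < x ↔ U < X) (h7 : x < v ↔ X < V) (h8 : v < x ↔ V < X)
    (h9 : y < u ↔ Y < U) (h10 : u < y ↔ U < Y) (h11 : y < v ↔ Y < V) (h12 : v < y ↔ V < Y) :
    Cross (pr X Y) (pr U V) ↔ Cross (pr x y) (pr u v) := by
  unfold Cross pr
  simp only
  rcases lt_trichotomy x y with hxy | hxy | hxy <;> rcases lt_trichotomy u v with huv | huv | huv
  all_goals
    first
      | rw [min_eq_left (by omega : x ≤ y), max_eq_right (by omega : x ≤ y), min_eq_left (by omega : X ≤ Y),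
          max_eq_right (by omega : X ≤ Y)]
      | rw [min_eq_right (by omega : y ≤ x), max_eq_left (by omega : y ≤ x), min_eq_right (by omega : Y ≤ X),
          max_eq_left (by omega : Y ≤ X)]
    first
      | rw [min_eq_left (by omega : u ≤ v), max_eq_right (by omega : u ≤ v), min_eq_left (by omega : U ≤ V),
          max_eq_right (by omega : U ≤ V)]
      | rw [min_eq_right (by omega : v ≤ u), max_eq_left (by omega : v ≤ u), min_eq_right (by omega : V ≤ U),
          max_eq_left (by omega : V ≤ U)]
    omega

theorem vertex_order {x y s t : ℕ} (h : x ≠ y) (hs : s < S.size M x) (ht : t < S.size M y) :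
    (x < y ↔ S.start M x + s < S.start M y + t) ∧ (y < x ↔ S.start M y + t < S.start M x + s) := by
  rcases Nat.lt_or_gt_of_ne h with h1 | h1
  · have := S.start_lt M h1 hs
    constructor <;> constructor <;> intro _ <;> omega
  · have := S.start_lt M h1 ht
    constructor <;> constructor <;> intro _ <;> omega

/-- Two segments between vertices of four different points cross iff the chords between the points
do. -/
theorem cross_iff {x y u v s t s' t' : ℕ} (hxy : x ≠ y) (huv : u ≠ v) (hxu : x ≠ u) (hxv : x ≠ v)
    (hyu : y ≠ u) (hyv : y ≠ v) (hs : s < S.size M x) (ht : t < S.size M y) (hs' : s' < S.size M u)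
    (ht' : t' < S.size M v) :
    Cross (pr (S.start M x + s) (S.start M y + t)) (pr (S.start M u + s') (S.start M v + t')) ↔
      Cross (pr x y) (pr u v) := by
  obtain ⟨h1, h2⟩ := S.vertex_order M hxy hs ht
  obtain ⟨h3, h4⟩ := S.vertex_order M huv hs' ht'
  obtain ⟨h5, h6⟩ := S.vertex_order M hxu hs hs'
  obtain ⟨h7, h8⟩ := S.vertex_order M hxv hs ht'
  obtain ⟨h9, h10⟩ := S.vertex_order M hyu ht hs'
  obtain ⟨h11, h12⟩ := S.vertex_order M hyv ht ht'
  exact cross_congr h1 h2 h3 h4 h5 h6 h7 h8 h9 h10 h11 h12

theorem pr_inj {a x y : ℕ} (h : pr a x = pr a y) : x = y := by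
  unfold pr at h
  rw [Prod.mk.injEq] at h
  omega

theorem card_fanA {i : ι} (_hi : i ∈ S.els) : (S.fanA M i).card = M * S.w i := by
  unfold fanA
  rw [Finset.card_image_of_injective, Finset.card_range]
  intro t t' h
  have := pr_inj h
  omega

theorem card_fanB {i : ι} (_hi : i ∈ S.els) : (S.fanB M i).card = M * S.w i := by
  unfold fanB
  rw [Finset.card_image_of_injective, Finset.card_range]
  intro t t' h
  have := pr_inj h
  omega

theorem card_fanH {i : ι} (_hi : i ∈ S.els) : (S.fanH M i).card = M * S.w i := by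
  unfold fanH
  rw [Finset.card_image_of_injective, Finset.card_range]
  intro t t' h
  simp only [Prod.mk.injEq] at h
  omega

end Pool.Agent.H72F.Sys
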