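import Pool.Agent.Lib.H72F.Fan

/-!
# CHUNK I1: greedy completion to a triangulation
-/

set_option autoImplicit false

namespace Pool.Agent.H72F

/-- add the diagonal `d` if possible -/
def gstep (n : ℕ) (acc : List (ℕ × ℕ)) (d : ℕ × ℕ) : List (ℕ × ℕ) :=
  if IsDiag n d ∧ d ∉ acc ∧ (acc.all fun e => !decide (Cross e d)) = true then d :: acc else acc

/-- greedy completion -/
def greedy (n : ℕ) (l : List (ℕ × ℕ)) : List (ℕ × ℕ) :=
  ((List.range n) ×ˢ (List.range n)).foldl (gstep n) l

private theorem i1_all {acc : List (ℕ × ℕ)} {d : ℕ × ℕ} :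
    (acc.all fun e => !decide (Cross e d)) = true ↔ ∀ e ∈ acc, ¬ Cross e d := by
  rw [List.all_eq_true]
  constructor
  · intro h e he hc
    have := h e he
    simp [hc] at this
  · intro h e he
    have := h e he
    simp [this]

private theorem i1_not_cross_self (d : ℕ × ℕ) : ¬ Cross d d := by
  unfold Cross
  omega

private theorem i1_sub (n : ℕ) (acc : List (ℕ × ℕ)) (d : ℕ × ℕ) : acc ⊆ gstep n acc d := by
  intro e he
  unfold gstep
  split_ifs
  · exact List.mem_cons_of_mem _ he
  · exact he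

private theorem i1_fold {n : ℕ} : ∀ (L l : List (ℕ × ℕ)), l.Nodup → (∀ d ∈ l, IsDiag n d) →
    (∀ d ∈ l, ∀ e ∈ l, ¬ Cross d e) →
    (L.foldl (gstep n) l).Nodup ∧ (∀ d ∈ L.foldl (gstep n) l, IsDiag n d) ∧
    (∀ d ∈ L.foldl (gstep n) l, ∀ e ∈ L.foldl (gstep n) l, ¬ Cross d e) ∧
    l ⊆ L.foldl (gstep n) l ∧
    (∀ e ∈ L, IsDiag n e → (∀ d ∈ L.foldl (gstep n) l, ¬ Cross d e) →
      e ∈ L.foldl (gstep n) l) := by
  intro L
  induction L with
  | nil =>
    intro l h1 h2 h3
    exact ⟨h1, h2, h3, fun _ h => h, fun e he => by simp at he⟩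
  | cons x L ih =>
    intro l h1 h2 h3
    have key : (gstep n l x).Nodup ∧ (∀ d ∈ gstep n l x, IsDiag n d) ∧
        (∀ d ∈ gstep n l x, ∀ e ∈ gstep n l x, ¬ Cross d e) := by
      unfold gstep
      split_ifs with hc
      · obtain ⟨ha, hb, hd⟩ := hc
        rw [i1_all] at hd
        refine ⟨List.nodup_cons.2 ⟨hb, h1⟩, ?_, ?_⟩
        · intro d hd'
          rcases List.mem_cons.1 hd' with rfl | hd'
          · exact ha
          · exact h2 d hd'
        · intro d hd' e he'
          rcases List.mem_cons.1 hd' with hdx | hdl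
          · rcases List.mem_cons.1 he' with hex | hel
            · rw [hdx, hex]
              exact i1_not_cross_self _
            · rw [hdx]
              exact fun h => hd e hel (Or.symm h)
          · rcases List.mem_cons.1 he' with hex | hel
            · rw [hex]
              exact hd d hdl
            · exact h3 d hdl e hel
      · exact ⟨h1, h2, h3⟩
    obtain ⟨r1, r2, r3, r4, r5⟩ := ih (gstep n l x) key.1 key.2.1 key.2.2
    rw [List.foldl_cons]
    refine ⟨r1, r2, r3, fun e he => r4 (i1_sub n l x he), ?_⟩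
    intro e he hde hcr
    rcases List.mem_cons.1 he with rfl | he
    · by_cases hel : e ∈ l
      · exact r4 (i1_sub n l e hel)
      · apply r4
        have : IsDiag n e ∧ e ∉ l ∧ (l.all fun d => !decide (Cross d e)) = true :=
          ⟨hde, hel, i1_all.2 fun d hd => hcr d (r4 (i1_sub n l e hd))⟩
        unfold gstep
        rw [if_pos this]
        exact List.mem_cons_self
    · exact r5 e he hde hcr

theorem greedy_spec {n : ℕ} {l : List (ℕ × ℕ)} (h1 : l.Nodup) (h2 : ∀ d ∈ l, IsDiag n d)
    (h3 : ∀ d ∈ l, ∀ e ∈ l, ¬ Cross d e) :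
    (greedy n l).Nodup ∧ IsTri n (greedy n l).toFinset ∧ l ⊆ greedy n l := by
  obtain ⟨r1, r2, r3, r4, r5⟩ := i1_fold (n := n) ((List.range n) ×ˢ (List.range n)) l h1 h2 h3
  refine ⟨r1, ⟨?_, ?_, ?_⟩, r4⟩
  · intro d hd
    exact r2 d (List.mem_toFinset.1 hd)
  · intro d hd e he
    exact r3 d (List.mem_toFinset.1 hd) e (List.mem_toFinset.1 he)
  · intro e he hcr
    rw [List.mem_toFinset]
    refine r5 e ?_ he fun d hd => hcr d (List.mem_toFinset.2 hd)
    obtain ⟨a, b⟩ := e
    unfold IsDiag at he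
    simp only at he
    exact List.mem_product.2 ⟨List.mem_range.2 (by omega), List.mem_range.2 (by omega)⟩

end Pool.Agent.H72F
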