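import Pool.Agent.Lib.H72F.Basic
import Pool.Agent.Lib.H72F.Card

/-!
# CHUNK L: the language CONVEX FLIP DISTANCE
-/

set_option autoImplicit false

namespace Pool.Agent.H72F

/-- the triangulations of the convex `n`-gon -/
abbrev Tri (n : ℕ) : Type := {T : Finset (ℕ × ℕ) // IsTri n T}

/-- the list `l` lists the diagonals of `T`, without repetitions -/
def Rep {n : ℕ} (T : Tri n) (l : List (ℕ × ℕ)) : Prop := l.Nodup ∧ l.toFinset = T.1

/-- `k` in unary -/
def una (k : ℕ) : List Bool := List.replicate k true ++ [false]

/-- the word of an instance: `n`, `k` and the two lists of pairs, all numbers in unary -/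
def enc (n k : ℕ) (l l' : List (ℕ × ℕ)) : List Bool :=
  una n ++ una k ++ (l ++ l').flatMap fun p => una p.1 ++ una p.2

/-- CONVEX FLIP DISTANCE: the flip distance of two triangulations of the convex `n`-gon is at most
`k` -/
def ConvexFlipLang (w : List Bool) : Prop :=
  ∃ n k, 3 ≤ n ∧ ∃ (T T' : Tri n) (l l' : List (ℕ × ℕ)), Rep T l ∧ Rep T' l' ∧
    w = enc n k l l' ∧ (flipGraph n).dist T T' ≤ k

private theorem l_una : ∀ (a b : ℕ) (x y : List Bool), una a ++ x = una b ++ y → a = b ∧ x = y := by
  intro a
  induction a with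
  | zero =>
    intro b x y h
    cases b with
    | zero =>
      simp only [una, List.replicate_zero, List.nil_append, List.cons_append,
        List.cons.injEq, true_and] at h
      exact ⟨rfl, h⟩
    | succ b =>
      simp [una, List.replicate_succ] at h
  | succ a ih =>
    intro b x y h
    cases b with
    | zero =>
      simp [una, List.replicate_succ] at h
    | succ b =>
      have h' : una a ++ x = una b ++ y := by
        simp only [una, List.replicate_succ, List.cons_append, List.cons.injEq, true_and] at h
        exact h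
      obtain ⟨h1, h2⟩ := ih b x y h'
      exact ⟨by rw [h1], h2⟩

private theorem l_una_ne (a : ℕ) (x : List Bool) : una a ++ x ≠ [] := by
  simp [una]

private theorem l_flat : ∀ (l m : List (ℕ × ℕ)),
    (l.flatMap fun p => una p.1 ++ una p.2) = (m.flatMap fun p => una p.1 ++ una p.2) →
    l = m := by
  intro l
  induction l with
  | nil =>
    intro m h
    cases m with
    | nil => rfl
    | cons q m =>
      rw [List.flatMap_nil, List.flatMap_cons, List.append_assoc] at h
      exact absurd h.symm (l_una_ne _ _)
  | cons p l ih =>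
    intro m h
    cases m with
    | nil =>
      rw [List.flatMap_nil, List.flatMap_cons, List.append_assoc] at h
      exact absurd h (l_una_ne _ _)
    | cons q m =>
      rw [List.flatMap_cons, List.flatMap_cons, List.append_assoc, List.append_assoc] at h
      obtain ⟨h1, h2⟩ := l_una _ _ _ _ h
      obtain ⟨h3, h4⟩ := l_una _ _ _ _ h2
      rw [ih m h4]
      congr 1
      exact Prod.ext h1 h3

theorem Rep.length {n : ℕ} (hn : 3 ≤ n) {T : Tri n} {l : List (ℕ × ℕ)} (h : Rep T l) :
    l.length + 3 = n := by
  have h1 := IsTri.card hn T.2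
  rw [← h.2, List.toFinset_card_of_nodup h.1] at h1
  exact h1

theorem Rep.unique {n : ℕ} {T T' : Tri n} {l : List (ℕ × ℕ)} (h : Rep T l) (h' : Rep T' l) :
    T = T' :=
  Subtype.ext (h.2.symm.trans h'.2)

/-- the encoding is injective (compare `Pool.Agent.Lib.H50D3.LangInj`) -/
theorem enc_inj {n k n' k' : ℕ} {l l' m m' : List (ℕ × ℕ)} (h1 : l.length + 3 = n)
    (h2 : m.length + 3 = n') (h : enc n k l l' = enc n' k' m m') :
    n = n' ∧ k = k' ∧ l = m ∧ l' = m' := by
  unfold enc at h
  rw [List.append_assoc, List.append_assoc] at h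
  obtain ⟨e1, e2⟩ := l_una _ _ _ _ h
  obtain ⟨e3, e4⟩ := l_una _ _ _ _ e2
  have e5 := l_flat _ _ e4
  obtain ⟨e6, e7⟩ := List.append_inj e5 (by omega)
  exact ⟨e1, e3, e6, e7⟩

/-- an instance is in the language iff the distance is at most `k` -/
theorem mem_lang {n k : ℕ} (hn : 3 ≤ n) {T T' : Tri n} {l l' : List (ℕ × ℕ)} (h : Rep T l)
    (h' : Rep T' l') : ConvexFlipLang (enc n k l l') ↔ (flipGraph n).dist T T' ≤ k := by
  constructor
  · rintro ⟨n', k', hn', S, S', m, m', g, g', he, hd⟩
    obtain ⟨e1, e2, e3, e4⟩ := enc_inj (h.length hn) (g.length hn') he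
    subst e1
    subst e2
    subst e3
    subst e4
    rw [h.unique g, h'.unique g']
    exact hd
  · intro hd
    exact ⟨n, k, hn, T, T', l, l', h, h', rfl, hd⟩

end Pool.Agent.H72F
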