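import Pool.Agent.Lib.H72F.Quads
import Pool.Agent.Lib.H72F.Lang

/-!
# The instance of a formula: definitions
-/

set_option autoImplicit false

namespace Pool.Agent.H72F

section numbers

variable (c : ℕ) (F : List (List (ℕ × Bool))) (n : ℕ)

/-- number of points -/
def nK : ℕ := n * Zw F.length

/-- number of elements -/
def nk : ℕ := (quads F n).length

/-- total weight -/
def nW : ℕ := ((quads F n).map fun e => e.2.2.2).sum

/-- the error term -/
def nE : ℕ := nk F n + (2 * nk F n + 1) * (nK F n + nk F n) ^ 2

def nD : ℕ := nk F n ^ 2 + 2 * nk F n + nE F n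

/-- the gap -/
def nR : ℕ := nD F n + (2 * (nK F n + nk F n + nW F n)) ^ c + 1

/-- the multiplicity -/
def nM : ℕ := nD F n + nR c F n

/-- the threshold -/
def nT : ℕ := 2 * nM c F n * nW F n + nE F n - nM c F n * W0 F n

/-- the number of vertices -/
def nN : ℕ := startL (quads F n) (nM c F n) (nK F n)

/-- the two triangulations -/
def l1 : List (ℕ × ℕ) := greedy (nN c F n) (redL (quads F n) (nM c F n))

def l2 : List (ℕ × ℕ) := greedy (nN c F n) (blueL (quads F n) (nM c F n))

/-- the instance as a word -/
def instW : List Bool := enc (nN c F n) (nT c F n) (l1 c F n) (l2 c F n)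

end numbers

end Pool.Agent.H72F
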