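import Pool.Agent.Lib.H72F.Geo2

/-!
# CHUNK S2: the lower bound
-/

set_option autoImplicit false

namespace Pool.Agent.H72F.Sys

variable {ι : Type} [DecidableEq ι] (S : Sys ι) (M : ℕ)

/-- first removal -/
private theorem exists_rho {L : ℕ} {f : ℕ → Finset (ℕ × ℕ)} (x : ℕ × ℕ) (hx : x ∈ f 0) (hx' : x ∉ f L) :
    ∃ s < L, (∀ t ≤ s, x ∈ f t) ∧ x ∉ f (s + 1) := by
  classical
  have hL : L ≠ 0 := by
    rintro rfl
    exact hx' hx
  have hex : ∃ s, x ∉ f (s + 1) := ⟨L - 1, by rwa [Nat.sub_add_cancel (Nat.pos_of_ne_zero hL)]⟩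
  refine ⟨Nat.find hex, ?_, ?_, Nat.find_spec hex⟩
  · have : Nat.find hex ≤ L - 1 := Nat.find_min' hex
      (by rwa [Nat.sub_add_cancel (Nat.pos_of_ne_zero hL)])
    omega
  · intro t ht
    rcases Nat.eq_zero_or_pos t with rfl | htp
    · exact hx
    · have h := Nat.find_min hex (m := t - 1) (by omega)
      rw [Nat.sub_add_cancel htp] at h
      exact not_not.1 h

/-- last insertion -/
private theorem exists_tau {L : ℕ} {f : ℕ → Finset (ℕ × ℕ)} (y : ℕ × ℕ) (hy : y ∉ f 0) (hy' : y ∈ f L) :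
    ∃ s < L, y ∉ f s ∧ ∀ t, s < t → t ≤ L → y ∈ f t := by
  classical
  have h0 : y ∉ f (Nat.findGreatest (fun t => y ∉ f t) L) :=
    Nat.findGreatest_spec (P := fun t => y ∉ f t) (Nat.zero_le L) hy
  refine ⟨Nat.findGreatest (fun t => y ∉ f t) L, ?_, h0, ?_⟩
  · refine lt_of_le_of_ne (Nat.findGreatest_le L) ?_
    intro h
    rw [h] at h0
    exact h0 hy'
  · intro t ht htL
    exact not_not.1 (Nat.findGreatest_is_greatest ht htL)

theorem not_arc_self (i : ι) : ¬ S.Arc i i := by
  unfold Arc Cross pr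
  intro h
  rcases le_total (S.p i) (S.a i) with h1 | h1 <;> rcases le_total (S.p i) (S.b i) with h2 | h2 <;>
    simp only [min_eq_left, min_eq_right, max_eq_left, max_eq_right, h1, h2] at h <;> omega

/-- **Lower bound.** Let `f` be the path of flips. For `x ∈ T \ T'` let `ρ x` be the first time with
`x ∈ f s` for all `s ≤ ρ x` and `x ∉ f (ρ x + 1)` (the first removal); for `y ∈ T' \ T` let `τ y` be the
last insertion: `y ∉ f (τ y)`, `y ∈ f s` for all `s > τ y`. `ρ` and `τ` are injective (each flip removes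
one and inserts one element, `Flip.exists_exchange`). If `x` and `y` cross then `ρ x ≤ τ y`.
Let `X` be the union of the red fans minus `T'` and `Y` the union of the blue fans minus `T`; an element
of a red fan crossing something in `T'` is not in `T'`, so by `card_fanA_cross`
`|X| ≥ M W - k`, `|Y| ≥ M W - k`. `L ≥ |ρ(X) ∪ τ(Y)| = |X| + |Y| - #coincidences`, where a coincidence is
a pair `x ∈ X, y ∈ Y` with `ρ x = τ y`; then `x` and `y` cross (`exists_exchange`). For `i ≠ j` there is
at most one coincidence with `x ∈ fanA i`, `y ∈ fanB j`: all of these cross, so for two of them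
`ρ x₁ ≤ τ y₂ = ρ x₂ ≤ τ y₁ = ρ x₁`. Let `A` be the set of all `i` with a coincidence `x ∈ fanA i`,
`y ∈ fanB i`; there are at most `M * w i` of them for every `i ∈ A`. With `r i = ρ x` for such a
coincidence `A` is acyclic: for an arc `i → j`, `i ≠ j`, `ρ x_i ≤ τ y_j = ρ x_j`, and `x_i ≠ x_j`.
(There is no arc `i → i`.) -/
theorem lower {T T' : Finset (ℕ × ℕ)} {L : ℕ} (hT : ∀ i ∈ S.els, S.fanA M i ⊆ T)
    (hT' : ∀ i ∈ S.els, S.fanB M i ⊆ T') (h : Steps (S.nn M) L T T') :
    ∃ A ⊆ S.els, S.Acyc A ∧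
      2 * M * S.wt S.els ≤ L + M * S.wt A + S.els.card ^ 2 + 2 * S.els.card := by
  classical
  obtain ⟨f, hf0, hfL, hft, hfl⟩ := h
  subst hf0
  subst hfL
  -- the relations `ρ x = s` and `τ y = s`
  let R : ℕ × ℕ → ℕ → Prop := fun x s => s < L ∧ (∀ t ≤ s, x ∈ f t) ∧ x ∉ f (s + 1)
  let Q : ℕ × ℕ → ℕ → Prop := fun y s => s < L ∧ y ∉ f s ∧ ∀ t, s < t → t ≤ L → y ∈ f t
  have hRinj : ∀ x x' s, R x s → R x' s → x = x' := by
    rintro x x' s ⟨hs, h1, h2⟩ ⟨-, h1', h2'⟩
    obtain ⟨u, v, hu, hv, huv, hex⟩ := Flip.exists_exchange (hfl s hs) (hft s hs.le)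
    have key : ∀ z, z ∈ f s → z ∉ f (s + 1) → z = u := by
      intro z hz hz'
      by_contra hne
      apply hz'
      rw [hex]
      exact Finset.mem_insert_of_mem (Finset.mem_erase.2 ⟨hne, hz⟩)
    rw [key x (h1 s le_rfl) h2, key x' (h1' s le_rfl) h2']
  have hQinj : ∀ y y' s, Q y s → Q y' s → y = y' := by
    rintro y y' s ⟨hs, h1, h2⟩ ⟨-, h1', h2'⟩
    obtain ⟨u, v, hu, hv, huv, hex⟩ := Flip.exists_exchange (hfl s hs) (hft s hs.le)
    have key : ∀ z, z ∉ f s → z ∈ f (s + 1) → z = v := by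
      intro z hz hz'
      rw [hex, Finset.mem_insert] at hz'
      rcases hz' with rfl | hz'
      · rfl
      · exact absurd (Finset.mem_of_mem_erase hz') hz
    rw [key y h1 (h2 (s + 1) (Nat.lt_succ_self s) hs), key y' h1' (h2' (s + 1) (Nat.lt_succ_self s) hs)]
  have hRQ : ∀ x y s, R x s → Q y s → Cross x y := by
    rintro x y s ⟨hs, h1, h2⟩ ⟨-, h1', h2'⟩
    obtain ⟨u, v, hu, hv, huv, hex⟩ := Flip.exists_exchange (hfl s hs) (hft s hs.le)
    have hxu : x = u := by
      by_contra hne
      apply h2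
      rw [hex]
      exact Finset.mem_insert_of_mem (Finset.mem_erase.2 ⟨hne, h1 s le_rfl⟩)
    have hyv : y = v := by
      have h3 := h2' (s + 1) (Nat.lt_succ_self s) hs
      rw [hex, Finset.mem_insert] at h3
      rcases h3 with rfl | h3
      · rfl
      · exact absurd (Finset.mem_of_mem_erase h3) h1'
    rw [hxu, hyv]
    exact huv
  have hcr : ∀ x y s t, R x s → Q y t → Cross x y → s ≤ t := by
    rintro x y s t ⟨hs, h1, h2⟩ ⟨ht, h1', h2'⟩ hxy
    by_contra hlt
    push Not at hlt
    exact (hft (t + 1) ht).2.1 x (h1 (t + 1) hlt) y (h2' (t + 1) (Nat.lt_succ_self t) ht) hxy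
  -- the crossing parts of the fans
  let X : ι → Finset (ℕ × ℕ) := fun i => (S.fanA M i).filter fun d => ∃ e ∈ S.fanB M i, Cross d e
  let Y : ι → Finset (ℕ × ℕ) := fun i => (S.fanB M i).filter fun e => ∃ d ∈ S.fanA M i, Cross d e
  have hX : ∀ i ∈ S.els, ∀ x ∈ X i, ∃ s, R x s := by
    intro i hi x hx
    obtain ⟨hx1, e, he, hxe⟩ := Finset.mem_filter.1 hx
    have h2 : x ∉ f L := fun hc => (hft L le_rfl).2.1 x hc e (hT' i hi he) hxe
    obtain ⟨s, hs, h3, h4⟩ := exists_rho x (hT i hi hx1) h2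
    exact ⟨s, hs, h3, h4⟩
  have hY : ∀ i ∈ S.els, ∀ y ∈ Y i, ∃ s, Q y s := by
    intro i hi y hy
    obtain ⟨hy1, d, hd, hdy⟩ := Finset.mem_filter.1 hy
    have h2 : y ∉ f 0 := fun hc => (hft 0 (Nat.zero_le L)).2.1 d (hT i hi hd) y hc hdy
    obtain ⟨s, hs, h3, h4⟩ := exists_tau y h2 (hT' i hi hy1)
    exact ⟨s, hs, h3, h4⟩
  let PX : ι → Finset ℕ := fun i => (Finset.range L).filter fun s => ∃ x ∈ X i, R x s
  let PY : ι → Finset ℕ := fun i => (Finset.range L).filter fun s => ∃ y ∈ Y i, Q y s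
  have hRfun : ∀ x s s', R x s → R x s' → s = s' := by
    rintro x s s' ⟨hs, h1, h2⟩ ⟨hs', h1', h2'⟩
    by_contra hne
    rcases lt_or_gt_of_ne hne with h3 | h3
    · exact h2 (h1' (s + 1) h3)
    · exact h2' (h1 (s' + 1) h3)
  have hQfun : ∀ y s s', Q y s → Q y s' → s = s' := by
    rintro y s s' ⟨hs, h1, h2⟩ ⟨hs', h1', h2'⟩
    by_contra hne
    rcases lt_or_gt_of_ne hne with h3 | h3
    · exact h1' (h2 s' h3 hs'.le)
    · exact h1 (h2' s h3 hs.le)
  have hcX : ∀ i ∈ S.els, M * S.w i ≤ (PX i).card + 1 := by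
    intro i hi
    refine (S.card_fanA_cross M hi).trans (Nat.add_le_add_right ?_ 1)
    choose! g hg using hX i hi
    refine Finset.card_le_card_of_injOn g ?_ ?_
    · intro x hx
      have hx' : x ∈ X i := hx
      exact Finset.mem_coe.2 (Finset.mem_filter.2 ⟨Finset.mem_range.2 (hg x hx').1, x, hx', hg x hx'⟩)
    · intro x hx x' hx' hxx
      have h1 : R x (g x) := hg x hx
      have h2 : R x' (g x') := hg x' hx'
      rw [← hxx] at h2
      exact hRinj x x' _ h1 h2
  have hcY : ∀ i ∈ S.els, M * S.w i ≤ (PY i).card + 1 := by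
    intro i hi
    refine (S.card_fanB_cross M hi).trans (Nat.add_le_add_right ?_ 1)
    choose! g hg using hY i hi
    refine Finset.card_le_card_of_injOn g ?_ ?_
    · intro x hx
      have hx' : x ∈ Y i := hx
      exact Finset.mem_coe.2 (Finset.mem_filter.2 ⟨Finset.mem_range.2 (hg x hx').1, x, hx', hg x hx'⟩)
    · intro x hx x' hx' hxx
      have h1 : Q x (g x) := hg x hx
      have h2 : Q x' (g x') := hg x' hx'
      rw [← hxx] at h2
      exact hQinj x x' _ h1 h2
  have hdX : ∀ i ∈ S.els, ∀ j ∈ S.els, i ≠ j → Disjoint (PX i) (PX j) := by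
    intro i hi j hj hij
    rw [Finset.disjoint_left]
    intro s hs hs'
    obtain ⟨-, x, hx, hxs⟩ := Finset.mem_filter.1 hs
    obtain ⟨-, x', hx', hxs'⟩ := Finset.mem_filter.1 hs'
    have h1 := hRinj x x' s hxs hxs'
    subst h1
    exact Finset.disjoint_left.1 (S.fanA_disj M hi hj hij) (Finset.mem_filter.1 hx).1
      (Finset.mem_filter.1 hx').1
  have hdY : ∀ i ∈ S.els, ∀ j ∈ S.els, i ≠ j → Disjoint (PY i) (PY j) := by
    intro i hi j hj hij
    rw [Finset.disjoint_left]
    intro s hs hs'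
    obtain ⟨-, x, hx, hxs⟩ := Finset.mem_filter.1 hs
    obtain ⟨-, x', hx', hxs'⟩ := Finset.mem_filter.1 hs'
    have h1 := hQinj x x' s hxs hxs'
    subst h1
    exact Finset.disjoint_left.1 (S.fanB_disj M hi hj hij) (Finset.mem_filter.1 hx).1
      (Finset.mem_filter.1 hx').1
  let BX : Finset ℕ := S.els.biUnion PX
  let BY : Finset ℕ := S.els.biUnion PY
  have hBX : BX.card = ∑ i ∈ S.els, (PX i).card :=
    Finset.card_biUnion (fun i hi j hj hij => hdX i hi j hj hij)
  have hBY : BY.card = ∑ i ∈ S.els, (PY i).card :=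
    Finset.card_biUnion (fun i hi j hj hij => hdY i hi j hj hij)
  have hsX : M * S.wt S.els ≤ BX.card + S.els.card := by
    rw [hBX, wt, Finset.mul_sum, Finset.card_eq_sum_ones, ← Finset.sum_add_distrib]
    exact Finset.sum_le_sum hcX
  have hsY : M * S.wt S.els ≤ BY.card + S.els.card := by
    rw [hBY, wt, Finset.mul_sum, Finset.card_eq_sum_ones, ← Finset.sum_add_distrib]
    exact Finset.sum_le_sum hcY
  have hun : (BX ∪ BY).card ≤ L := by
    have : BX ∪ BY ⊆ Finset.range L := by
      apply Finset.union_subset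
      · exact Finset.biUnion_subset.2 (fun i _ => Finset.filter_subset _ _)
      · exact Finset.biUnion_subset.2 (fun i _ => Finset.filter_subset _ _)
    simpa using Finset.card_le_card this
  let A : Finset ι := S.els.filter fun i => (PX i ∩ PY i).Nonempty
  refine ⟨A, Finset.filter_subset _ _, ?_, ?_⟩
  · -- acyclic
    have hA : ∀ i ∈ A, ∃ s x y, x ∈ X i ∧ y ∈ Y i ∧ R x s ∧ Q y s := by
      intro i hi
      obtain ⟨-, s, hs⟩ := Finset.mem_filter.1 hi
      obtain ⟨hs1, hs2⟩ := Finset.mem_inter.1 hs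
      obtain ⟨-, x, hx, hxs⟩ := Finset.mem_filter.1 hs1
      obtain ⟨-, y, hy, hys⟩ := Finset.mem_filter.1 hs2
      exact ⟨s, x, y, hx, hy, hxs, hys⟩
    choose! r hr using hA
    refine ⟨r, fun i hi j hj hij => ?_⟩
    obtain ⟨x, y, hx, hy, hxr, hyr⟩ := hr i hi
    obtain ⟨x', y', hx', hy', hxr', hyr'⟩ := hr j hj
    have hiS := (Finset.mem_filter.1 hi).1
    have hjS := (Finset.mem_filter.1 hj).1
    have hne : i ≠ j := by
      rintro rfl
      exact S.not_arc_self i hij
    have hc : Cross x y' := (S.fanA_fanB M hiS hjS hne (Finset.mem_filter.1 hx).1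
      (Finset.mem_filter.1 hy').1).2 hij
    refine lt_of_le_of_ne (hcr x y' _ _ hxr hyr' hc) ?_
    intro heq
    rw [heq] at hxr
    have h1 := hRinj x x' _ hxr hxr'
    subst h1
    exact Finset.disjoint_left.1 (S.fanA_disj M hiS hjS hne) (Finset.mem_filter.1 hx).1
      (Finset.mem_filter.1 hx').1
  · -- counting
    have hint : (BX ∩ BY).card ≤ M * S.wt A + S.els.card ^ 2 := by
      have h1 : BX ∩ BY ⊆ (S.els ×ˢ S.els).biUnion fun q => PX q.1 ∩ PY q.2 := by
        intro s hs
        obtain ⟨hs1, hs2⟩ := Finset.mem_inter.1 hs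
        obtain ⟨i, hi, hsi⟩ := Finset.mem_biUnion.1 hs1
        obtain ⟨j, hj, hsj⟩ := Finset.mem_biUnion.1 hs2
        exact Finset.mem_biUnion.2 ⟨(i, j), Finset.mem_product.2 ⟨hi, hj⟩,
          Finset.mem_inter.2 ⟨hsi, hsj⟩⟩
      have h2 : ∀ q ∈ S.els ×ˢ S.els, (PX q.1 ∩ PY q.2).card ≤
          (if q.1 = q.2 then (if q.1 ∈ A then M * S.w q.1 else 0) else 0) + 1 := by
        rintro ⟨i, j⟩ hq
        obtain ⟨hi, hj⟩ := Finset.mem_product.1 hq
        simp only at hi hj ⊢
        by_cases hij : i = j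
        · subst hij
          rw [if_pos rfl]
          by_cases hiA : i ∈ A
          · rw [if_pos hiA]
            have h3 : (PX i ∩ PY i).card ≤ (PX i).card := Finset.card_le_card Finset.inter_subset_left
            have h4 : (PX i).card ≤ (X i).card := by
              have h5 : ∀ s ∈ PX i, ∃ x ∈ X i, R x s := fun s hs => (Finset.mem_filter.1 hs).2
              choose! g hg using h5
              refine Finset.card_le_card_of_injOn g (fun s hs => Finset.mem_coe.2 (hg s hs).1) ?_
              intro s hs s' hs' hss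
              have h6 := (hg s hs).2
              have h7 := (hg s' hs').2
              rw [← hss] at h7
              exact hRfun _ _ _ h6 h7
            have h5 : (X i).card ≤ M * S.w i := by
              rw [← S.card_fanA M hi]
              exact Finset.card_filter_le _ _
            omega
          · rw [if_neg hiA]
            have : PX i ∩ PY i = ∅ := by
              by_contra hne
              exact hiA (Finset.mem_filter.2 ⟨hi, Finset.nonempty_iff_ne_empty.2 hne⟩)
            rw [this]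
            simp
        · rw [if_neg hij, zero_add]
          rw [Finset.card_le_one]
          intro s hs s' hs'
          obtain ⟨hs1, hs2⟩ := Finset.mem_inter.1 hs
          obtain ⟨hs1', hs2'⟩ := Finset.mem_inter.1 hs'
          obtain ⟨-, x, hx, hxs⟩ := Finset.mem_filter.1 hs1
          obtain ⟨-, y, hy, hys⟩ := Finset.mem_filter.1 hs2
          obtain ⟨-, x', hx', hxs'⟩ := Finset.mem_filter.1 hs1'
          obtain ⟨-, y', hy', hys'⟩ := Finset.mem_filter.1 hs2'
          have harc : S.Arc i j := (S.fanA_fanB M hi hj hij (Finset.mem_filter.1 hx).1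
            (Finset.mem_filter.1 hy).1).1 (hRQ x y s hxs hys)
          have hc1 : Cross x y' := (S.fanA_fanB M hi hj hij (Finset.mem_filter.1 hx).1
            (Finset.mem_filter.1 hy').1).2 harc
          have hc2 : Cross x' y := (S.fanA_fanB M hi hj hij (Finset.mem_filter.1 hx').1
            (Finset.mem_filter.1 hy).1).2 harc
          exact le_antisymm (hcr x y' _ _ hxs hys' hc1) (hcr x' y _ _ hxs' hys hc2)
      calc (BX ∩ BY).card ≤ ((S.els ×ˢ S.els).biUnion fun q => PX q.1 ∩ PY q.2).card :=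
            Finset.card_le_card h1
        _ ≤ ∑ q ∈ S.els ×ˢ S.els, (PX q.1 ∩ PY q.2).card := Finset.card_biUnion_le
        _ ≤ ∑ q ∈ S.els ×ˢ S.els,
            ((if q.1 = q.2 then (if q.1 ∈ A then M * S.w q.1 else 0) else 0) + 1) :=
            Finset.sum_le_sum h2
        _ = M * S.wt A + S.els.card ^ 2 := by
            rw [Finset.sum_add_distrib, Finset.sum_const, smul_eq_mul, mul_one,
              Finset.card_product, ← pow_two, Finset.sum_product]
            congr 1
            have h3 : ∀ i ∈ S.els, (∑ j ∈ S.els,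
                (if i = j then (if i ∈ A then M * S.w i else 0) else 0)) =
                (if i ∈ A then M * S.w i else 0) := by
              intro i hi
              rw [Finset.sum_ite_eq]
              rw [if_pos hi]
            rw [Finset.sum_congr rfl h3, ← Finset.sum_filter, wt, Finset.mul_sum]
            refine Finset.sum_congr ?_ (fun _ _ => rfl)
            ext i
            simp only [Finset.mem_filter]
            constructor
            · rintro ⟨-, h⟩
              exact h
            · intro h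
              exact ⟨(Finset.mem_filter.1 h).1, h⟩
    have hadd := Finset.card_union_add_card_inter BX BY
    nlinarith [hadd, hint, hun, hsX, hsY]

end Pool.Agent.H72F.Sys
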