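import Pool.Agent.Lib.H72F.SatWt

/-!
# CHUNK SB: if the set of an assignment is acyclic then the assignment satisfies the formula
-/

set_option autoImplicit false

namespace Pool.Agent.H72F

open Pool.Agent.Lib.CookLevin

variable {F : List (List (ℕ × Bool))} {n : ℕ}

/-- Let `r` be the rank. Suppose the clause number `j` is not satisfied. Then for every `i < n`
`r (h i j) < r (g i j)`: if `i` does not occur in the clause (`slot < gap`) there is an arc; if it occurs
in exactly one way then `slot = gap = k` and `v i k` is in the set, so `r h < r v < r g`; both signs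
cannot occur in an unsatisfied clause. And `r (g i j) < r (h i' j)` if `prv n i' = i`. Going around the
`n` zones gives a contradiction. -/
theorem sat_of_acyc (hn : 2 ≤ n) {σ : ℕ → Bool} (hac : (gsys F n hn).Acyc (aset F n σ)) :
    ∀ C ∈ F, ∃ l ∈ C, σ l.1 = l.2 := by
  intro C hC
  by_contra hcon
  push Not at hcon
  obtain ⟨j, hj, hjC⟩ := List.getElem_of_mem hC
  have hD : F.getD j [] = C := by
    rw [List.getD_eq_getElem _ _ hj]
    exact hjC
  obtain ⟨r, hr⟩ := hac
  have hmem : ∀ e, gin F n e → asg σ e = true → e ∈ aset F n σ := by
    intro e he h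
    rw [aset, Finset.mem_filter]
    exact ⟨List.mem_toFinset.2 (mem_gels.2 he), h⟩
  have harc : ∀ e e', gin F n e → asg σ e = true → gin F n e' → asg σ e' = true →
      arcSpec F n e e' → r e < r e' := by
    intro e e' h1 h2 h3 h4 h5
    exact hr e (hmem e h1 h2) e' (hmem e' h3 h4) ((arc_iff hn h1 h3).2 h5)
  have hbit : ∀ i s, bit F i j s = 1 → σ i ≠ s := by
    intro i s h
    unfold bit at h
    rw [hD] at h
    split at h
    · rename_i hm
      exact hcon _ hm
    · omega
  have hhg : ∀ i < n, r (.h i j) < r (.g i j) := by
    intro i hi
    have hgi : gin F n (.g i j) := ⟨hi, hj⟩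
    have hhi : gin F n (.h i j) := ⟨hi, hj⟩
    have b1 := bit_le F i j true
    have b2 := bit_le F i j false
    by_cases hlt : slot F i j < gap F i j
    · exact harc _ _ hhi rfl hgi rfl (Or.inl ⟨rfl, hlt⟩)
    · have hv : gin F n (.v i (gap F i j)) := by
        have := gap_spec F i j
        exact ⟨hi, by omega, by omega⟩
      have hsg : slot F i j = gap F i j ∧ asg σ (.v i (gap F i j)) = true := by
        simp only [slot, gap] at hlt ⊢
        rcases Nat.eq_zero_or_pos (bit F i j true) with h1 | h1
        · rcases Nat.eq_zero_or_pos (bit F i j false) with h2 | h2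
          · omega
          · have h3 : bit F i j false = 1 := by omega
            have h4 := hbit i false h3
            refine ⟨by omega, ?_⟩
            have h5 : σ i = true := by simpa using h4
            have h6 : (2 * j + 2 - 1) % 2 = 1 := by omega
            simp only [asg, h3, h5, h6]
            rfl
        · have h3 : bit F i j true = 1 := by omega
          have h4 := hbit i true h3
          rcases Nat.eq_zero_or_pos (bit F i j false) with h2 | h2
          · refine ⟨by omega, ?_⟩
            have h5 : σ i = false := by simpa using h4
            have h6 : (2 * j + 2 - 0) % 2 = 0 := by omega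
            simp only [asg, h2, h5, h6]
            rfl
          · have h5 := hbit i false (by omega)
            exfalso
            revert h4 h5
            cases σ i <;> simp
      have a1 : r (.h i j) < r (.v i (gap F i j)) := harc _ _ hhi rfl hv hsg.2 ⟨rfl, rfl⟩
      have a2 : r (.v i (gap F i j)) < r (.g i j) := harc _ _ hv hsg.2 hgi rfl ⟨rfl, hsg.1⟩
      omega
  have hgh : ∀ i' < n, r (.g (prv n i') j) < r (.h i' j) := by
    intro i' hi'
    exact harc _ _ ⟨prv_lt hn hi', hj⟩ rfl ⟨hi', hj⟩ rfl ⟨rfl, rfl⟩
  have hind : ∀ i < n, r (.g 0 j) ≤ r (.g i j) := by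
    intro i
    induction i with
    | zero => intro _; exact le_rfl
    | succ i ih =>
      intro hi
      have a1 := ih (by omega)
      have a2 := hgh (i + 1) hi
      have a3 := hhg (i + 1) hi
      have a4 : prv n (i + 1) = i := by
        unfold prv
        rw [if_neg (by omega)]
        omega
      rw [a4] at a2
      omega
  have a1 := hind (n - 1) (by omega)
  have a2 := hgh 0 (by omega)
  have a3 := hhg 0 (by omega)
  have a4 : prv n 0 = n - 1 := by
    unfold prv
    rw [if_pos rfl]
  rw [a4] at a2
  omega

end Pool.Agent.H72F
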