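import Pool.Agent.Lib.H72F.SatWt

/-!
# CHUNK W2: the acyclic sets of maximal weight
-/

set_option autoImplicit false

namespace Pool.Agent.H72F

open Pool.Agent.Lib.CookLevin

variable {F : List (List (ℕ × Bool))} {n : ℕ}

private theorem W2_ind_le (A : Finset El) (e : El) : W1ind A e ≤ 1 := by
  unfold W1ind
  split <;> omega

private theorem W2_pair (hn : 2 ≤ n) {A : Finset El} (hA : A ⊆ (gels F n).toFinset)
    (hac : (gsys F n hn).Acyc A) {e e' : El} (h1 : arcSpec F n e e')
    (h2 : arcSpec F n e' e) : W1ind A e + W1ind A e' ≤ 1 := by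
  obtain ⟨r, hr⟩ := hac
  by_contra hcon
  have he : e ∈ A := by
    by_contra h
    have := W2_ind_le A e'
    simp only [W1ind, h, if_false] at hcon this
    omega
  have he' : e' ∈ A := by
    by_contra h
    have := W2_ind_le A e
    simp only [W1ind, h, if_false] at hcon this
    omega
  have g1 : gin F n e := mem_gels.1 (List.mem_toFinset.1 (hA he))
  have g2 : gin F n e' := mem_gels.1 (List.mem_toFinset.1 (hA he'))
  have a1 := hr e he e' he' ((arc_iff hn g1 g2).2 h1)
  have a2 := hr e' he' e he ((arc_iff hn g2 g1).2 h2)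
  omega

/-- An acyclic set contains no two consecutive elements of a path (these have arcs in both
directions). So by `pathW_le` its weight is at most `W0`, and in the case of equality (`of_pathW`) it is
the set of an assignment. -/
theorem eq_aset (hn : 2 ≤ n) {A : Finset El} (hA : A ⊆ (gsys F n hn).els)
    (hac : (gsys F n hn).Acyc A) (hw : W0 F n ≤ (gsys F n hn).wt A) : ∃ σ, A = aset F n σ := by
  have hA' : A ⊆ (gels F n).toFinset := hA
  rcases Nat.eq_zero_or_pos F.length with h0 | h0
  · refine ⟨fun _ => true, ?_⟩
    have hg : ∀ e, ¬ gin F n e := by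
      intro e
      cases e <;> simp only [gin, h0] <;> omega
    have h1 : (gels F n).toFinset = ∅ := by
      rw [Finset.eq_empty_iff_forall_notMem]
      intro e he
      exact hg e (mem_gels.1 (List.mem_toFinset.1 he))
    rw [h1, Finset.subset_empty] at hA'
    rw [hA', aset, h1, Finset.filter_empty]
  rw [W1_wt hn hA'] at hw
  -- each term is at most the mean
  have c1 : ∀ i k, 1 ≤ k → k ≤ 2 * F.length → W1ind A (.v i k) + W1ind A (.y i k) ≤ 1 :=
    fun i k _ _ => W2_pair hn hA' hac ⟨rfl, rfl⟩ ⟨rfl, Or.inl rfl⟩
  have c2 : ∀ i k, 1 ≤ k → k ≤ 2 * F.length → W1ind A (.y i k) + W1ind A (.u i k) ≤ 1 :=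
    fun i k _ _ => W2_pair hn hA' hac ⟨rfl, Or.inl rfl⟩ ⟨rfl, rfl⟩
  have c3 : ∀ i k, 1 ≤ k → k < 2 * F.length → W1ind A (.u i k) + W1ind A (.v i (k + 1)) ≤ 1 :=
    fun i k _ _ => W2_pair hn hA' hac ⟨rfl, rfl⟩ ⟨rfl, Or.inr rfl⟩
  have hp : ∀ i, pathW (2 * F.length) (fun k => W1ind A (.v i k)) (fun k => W1ind A (.y i k))
        (fun k => W1ind A (.u i k)) + 1 ≤ 3 * (2 * F.length) := fun i =>
    pathW_le (by omega) (c1 i) (c2 i) (c3 i)
  have hq : ∀ i, ∑ j ∈ Finset.range F.length, (W1ind A (.g i j) + W1ind A (.h i j)) ≤
      2 * F.length := by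
    intro i
    have : ∑ j ∈ Finset.range F.length, (W1ind A (.g i j) + W1ind A (.h i j)) ≤
        ∑ j ∈ Finset.range F.length, 2 := by
      refine Finset.sum_le_sum fun j _ => ?_
      have a1 := W2_ind_le A (.g i j)
      have a2 := W2_ind_le A (.h i j)
      omega
    rw [Finset.sum_const, Finset.card_range, smul_eq_mul] at this
    omega
  set T : ℕ → ℕ := fun i => pathW (2 * F.length) (fun k => W1ind A (.v i k))
    (fun k => W1ind A (.y i k)) (fun k => W1ind A (.u i k)) +
        ∑ j ∈ Finset.range F.length, (W1ind A (.g i j) + W1ind A (.h i j)) with hT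
  have hTle : ∀ i ∈ Finset.range n, T i ≤ (6 * F.length - 1) + 2 * F.length := by
    intro i _
    have a1 := hp i
    have a2 := hq i
    simp only [hT]
    omega
  have hsum : ∑ i ∈ Finset.range n, ((6 * F.length - 1) + 2 * F.length) = W0 F n := by
    rw [Finset.sum_const, Finset.card_range, smul_eq_mul, W0]
    ring
  have hTeq : ∀ i ∈ Finset.range n, T i = (6 * F.length - 1) + 2 * F.length := by
    rw [← Finset.sum_eq_sum_iff_of_le hTle]
    exact le_antisymm (Finset.sum_le_sum hTle) (hsum ▸ hw)
  -- all elements `g`, `h`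
  have hgh : ∀ i < n, ∀ j < F.length, El.g i j ∈ A ∧ El.h i j ∈ A := by
    intro i hi j hj
    have e1 := hTeq i (Finset.mem_range.2 hi)
    simp only [hT] at e1
    have e2 := hp i
    have e3 : ∑ j ∈ Finset.range F.length, (W1ind A (.g i j) + W1ind A (.h i j)) =
        ∑ j ∈ Finset.range F.length, 2 := by
      rw [Finset.sum_const, Finset.card_range, smul_eq_mul]
      have := hq i
      omega
    have e4 : ∀ j ∈ Finset.range F.length, W1ind A (.g i j) + W1ind A (.h i j) ≤ 2 := by
      intro j _
      have a1 := W2_ind_le A (.g i j)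
      have a2 := W2_ind_le A (.h i j)
      omega
    have e5 := (Finset.sum_eq_sum_iff_of_le e4).1 e3 j (Finset.mem_range.2 hj)
    have a1 := W2_ind_le A (.g i j)
    have a2 := W2_ind_le A (.h i j)
    constructor
    · by_contra h
      have : W1ind A (.g i j) = 0 := by simp [W1ind, h]
      omega
    · by_contra h
      have : W1ind A (.h i j) = 0 := by simp [W1ind, h]
      omega
  -- the paths
  have hpath : ∀ i < n, (∀ k, 1 ≤ k → k ≤ 2 * F.length → W1ind A (.v i k) = k % 2 ∧
      W1ind A (.y i k) = 1 - k % 2 ∧ W1ind A (.u i k) = k % 2) ∨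
      (∀ k, 1 ≤ k → k ≤ 2 * F.length → W1ind A (.v i k) = 1 - k % 2 ∧
      W1ind A (.y i k) = k % 2 ∧ W1ind A (.u i k) = 1 - k % 2) := by
    intro i hi
    have e1 := hTeq i (Finset.mem_range.2 hi)
    simp only [hT] at e1
    have e2 := hq i
    exact of_pathW (by omega) (c1 i) (c2 i) (c3 i) (by omega)
  classical
  refine ⟨fun i => decide (El.v i 1 ∈ A), ?_⟩
  have hmem : ∀ e, e ∈ A ↔ W1ind A e = 1 := by
    intro e
    unfold W1ind
    split <;> simp_all
  ext e
  rw [aset, Finset.mem_filter]
  constructor
  · intro he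
    refine ⟨hA' he, ?_⟩
    have hg : gin F n e := mem_gels.1 (List.mem_toFinset.1 (hA' he))
    rw [hmem] at he
    cases e with
    | v i k =>
      obtain ⟨hi, h1, h2⟩ := hg
      simp only [asg, hmem]
      rcases hpath i hi with h | h
      · have b1 := (h 1 le_rfl (by omega)).1
        have b2 := (h k h1 h2).1
        rw [b2] at he
        simp [b1, he]
      · have b1 := (h 1 le_rfl (by omega)).1
        have b2 := (h k h1 h2).1
        rw [b2] at he
        have : k % 2 = 0 := by omega
        simp [b1, this]
    | y i k =>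
      obtain ⟨hi, h1, h2⟩ := hg
      simp only [asg, hmem]
      rcases hpath i hi with h | h
      · have b1 := (h 1 le_rfl (by omega)).1
        have b2 := (h k h1 h2).2.1
        rw [b2] at he
        have : k % 2 = 0 := by omega
        simp [b1, this]
      · have b1 := (h 1 le_rfl (by omega)).1
        have b2 := (h k h1 h2).2.1
        rw [b2] at he
        simp [b1, he]
    | u i k =>
      obtain ⟨hi, h1, h2⟩ := hg
      simp only [asg, hmem]
      rcases hpath i hi with h | h
      · have b1 := (h 1 le_rfl (by omega)).1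
        have b2 := (h k h1 h2).2.2
        rw [b2] at he
        simp [b1, he]
      · have b1 := (h 1 le_rfl (by omega)).1
        have b2 := (h k h1 h2).2.2
        rw [b2] at he
        have : k % 2 = 0 := by omega
        simp [b1, this]
    | g i j => rfl
    | h i j => rfl
  · rintro ⟨he, ha⟩
    have hg : gin F n e := mem_gels.1 (List.mem_toFinset.1 he)
    rw [hmem]
    cases e with
    | v i k =>
      obtain ⟨hi, h1, h2⟩ := hg
      simp only [asg, hmem] at ha
      rcases hpath i hi with h | h
      · have b1 := (h 1 le_rfl (by omega)).1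
        have b2 := (h k h1 h2).1
        simp only [b1, beq_iff_eq] at ha
        rw [b2]
        simpa using ha
      · have b1 := (h 1 le_rfl (by omega)).1
        have b2 := (h k h1 h2).1
        simp only [b1, beq_iff_eq] at ha
        rw [b2]
        have : ¬ (k % 2 = 1) := by simpa using ha
        omega
    | y i k =>
      obtain ⟨hi, h1, h2⟩ := hg
      simp only [asg, hmem] at ha
      rcases hpath i hi with h | h
      · have b1 := (h 1 le_rfl (by omega)).1
        have b2 := (h k h1 h2).2.1
        simp only [b1] at ha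
        rw [b2]
        have : ¬ (k % 2 = 1) := by simpa using ha
        omega
      · have b1 := (h 1 le_rfl (by omega)).1
        have b2 := (h k h1 h2).2.1
        simp only [b1] at ha
        rw [b2]
        simpa using ha
    | u i k =>
      obtain ⟨hi, h1, h2⟩ := hg
      simp only [asg, hmem] at ha
      rcases hpath i hi with h | h
      · have b1 := (h 1 le_rfl (by omega)).1
        have b2 := (h k h1 h2).2.2
        simp only [b1, beq_iff_eq] at ha
        rw [b2]
        simpa using ha
      · have b1 := (h 1 le_rfl (by omega)).1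
        have b2 := (h k h1 h2).2.2
        simp only [b1, beq_iff_eq] at ha
        rw [b2]
        have : ¬ (k % 2 = 1) := by simpa using ha
        omega
    | g i j =>
      rw [← hmem]
      exact (hgh i hg.1 j hg.2).1
    | h i j =>
      rw [← hmem]
      exact (hgh i hg.1 j hg.2).2

end Pool.Agent.H72F
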