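import Pool.Agent.Lib.H72F.SatA
import Pool.Agent.Lib.H72F.SatB
import Pool.Agent.Lib.H72F.SatEq

/-!
# Satisfiability and acyclic sets of weight `W0`
-/

set_option autoImplicit false

namespace Pool.Agent.H72F

open Pool.Agent.Lib.CookLevin

variable {F : List (List (ℕ × Bool))} {n : ℕ}

theorem exists_acyc (hn : 2 ≤ n) (hF : ∀ C ∈ F, ∀ l ∈ C, l.1 < n) (h : CNFSat F) :
    ∃ A ⊆ (gsys F n hn).els, (gsys F n hn).Acyc A ∧ (gsys F n hn).wt A = W0 F n := by
  obtain ⟨σ, hσ⟩ := h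
  exact ⟨aset F n σ, Finset.filter_subset _ _, acyc_aset hn hF hσ, wt_aset hn σ⟩

theorem sat_of_wt (hn : 2 ≤ n) {A : Finset El} (hA : A ⊆ (gsys F n hn).els)
    (hac : (gsys F n hn).Acyc A) (hw : W0 F n ≤ (gsys F n hn).wt A) : CNFSat F := by
  obtain ⟨σ, rfl⟩ := eq_aset hn hA hac hw
  exact ⟨σ, sat_of_acyc hn hac⟩

/-- the target weight is at most the total weight -/
theorem W0_le (hn : 2 ≤ n) : W0 F n ≤ (gsys F n hn).wt (gsys F n hn).els := by
  rw [← wt_aset hn fun _ => true]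
  exact Finset.sum_le_sum_of_subset (Finset.filter_subset _ _)

end Pool.Agent.H72F
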