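import Pool.Agent.Lib.H72F.Moves

/-!
# CHUNK S5: the upper bound
-/

set_option autoImplicit false

namespace Pool.Agent.H72F.Sys

variable {ι : Type} [DecidableEq ι] (S : Sys ι) (M : ℕ)

/-- only the states of the elements matter -/
private theorem fans_congr {st st' : ι → St} (h : ∀ i ∈ S.els, st i = st' i) :
    S.fans M st = S.fans M st' := by
  unfold fans
  apply Finset.biUnion_congr rfl
  intro i hi
  rw [h i hi]

private theorem wt_insert' {D : Finset ι} {i : ι} (hi : i ∉ D) :
    S.wt (insert i D) = S.w i + S.wt D := by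
  unfold wt
  rw [Finset.sum_insert hi]

/-- the states of the first phase -/
private def st1 (D : Finset ι) : ι → St := fun i => if i ∈ D then .H else .A

private theorem phase1 {T : Finset (ℕ × ℕ)} (hT : IsTri (S.nn M) T)
    (h : S.fans M (st1 (∅ : Finset ι)) ⊆ T) (D : Finset ι) (hD : D ⊆ S.els) :
    ∃ T₁ L, L ≤ D.card * (S.K + S.els.card) ^ 2 + M * S.wt D ∧ Steps (S.nn M) L T T₁ ∧
      S.fans M (st1 D) ⊆ T₁ := by
  induction D using Finset.induction_on with
  | empty => exact ⟨T, 0, Nat.zero_le _, Steps.refl hT, h⟩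
  | insert i D hi ih =>
    obtain ⟨T₁, L, hL, hs, hf⟩ := ih fun x hx => hD (Finset.mem_insert_of_mem hx)
    have hie : i ∈ S.els := hD (Finset.mem_insert_self i D)
    have hok : S.Ok (st1 D) := by
      intro x _ y _ _ hy
      unfold st1 at hy
      split_ifs at hy
    obtain ⟨T₂, L', hL', hs', hf'⟩ := S.move_AH M hok hie (by simp [st1, hi]) hs.isTri_right hf
    have hst : Function.update (st1 D) i St.H = st1 (insert i D) := by
      funext x
      by_cases hx : x = i
      · subst hx
        simp [st1]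
      · simp [st1, hx]
    rw [hst] at hf'
    refine ⟨T₂, L + L', ?_, hs.trans hs', hf'⟩
    rw [Finset.card_insert_of_notMem hi, S.wt_insert' hi]
    calc L + L' ≤ (D.card * (S.K + S.els.card) ^ 2 + M * S.wt D) +
          ((S.K + S.els.card) ^ 2 + M * S.w i) := Nat.add_le_add hL hL'
      _ = (D.card + 1) * (S.K + S.els.card) ^ 2 + M * (S.w i + S.wt D) := by ring

/-- the states of the second phase -/
private def st2 (C D : Finset ι) : ι → St := fun i => if i ∈ D then .B else if i ∈ C then .H else .A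

private theorem phase2 {A : Finset ι} (hA : A ⊆ S.els) {r : ι → ℕ}
    (hr : ∀ i ∈ A, ∀ j ∈ A, S.Arc i j → r i < r j)
    {T : Finset (ℕ × ℕ)} (hT : IsTri (S.nn M) T)
    (h : S.fans M (st2 (S.els \ A) ∅) ⊆ T) (m : ℕ) (hm : m ≤ A.card) :
    ∃ D ⊆ A, D.card = m ∧ (∀ i ∈ D, ∀ j ∈ A, j ∉ D → r i ≤ r j) ∧
      ∃ T₁ L, L ≤ D.card * ((S.K + S.els.card) ^ 2 + 1) + M * S.wt D ∧ Steps (S.nn M) L T T₁ ∧
      S.fans M (st2 (S.els \ A) D) ⊆ T₁ := by
  have hok : ∀ D ⊆ A, (∀ i ∈ D, ∀ j ∈ A, j ∉ D → r i ≤ r j) → S.Ok (st2 (S.els \ A) D) := by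
    intro D hDA hD x hx y hy hxA hyB harc
    have hyD : y ∈ D := by
      unfold st2 at hyB
      by_contra hn
      rw [if_neg hn] at hyB
      split_ifs at hyB
    have hxD : x ∉ D ∧ x ∈ A := by
      unfold st2 at hxA
      split_ifs at hxA with h1 h2
      refine ⟨h1, ?_⟩
      by_contra hn
      exact h2 (Finset.mem_sdiff.2 ⟨hx, hn⟩)
    have h1 := hD y hyD x hxD.2 hxD.1
    have h2 := hr x hxD.2 y (hDA hyD) harc
    omega
  induction m with
  | zero =>
    exact ⟨∅, Finset.empty_subset _, rfl, by simp, T, 0, Nat.zero_le _, Steps.refl hT, h⟩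
  | succ m ih =>
    obtain ⟨D, hDA, hDm, hD, T₁, L, hL, hs, hf⟩ := ih (by omega)
    have hne : (A \ D).Nonempty := by
      rw [Finset.sdiff_nonempty]
      intro hh
      have := Finset.card_le_card hh
      omega
    obtain ⟨i, hi, hmin⟩ := Finset.exists_min_image (A \ D) r hne
    rw [Finset.mem_sdiff] at hi
    have hie : i ∈ S.els := hA hi.1
    have hsub : insert i D ⊆ A := Finset.insert_subset hi.1 hDA
    have hD' : ∀ x ∈ insert i D, ∀ j ∈ A, j ∉ insert i D → r x ≤ r j := by
      intro x hx j hj hjD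
      rw [Finset.mem_insert, not_or] at hjD
      rcases Finset.mem_insert.1 hx with rfl | hx
      · exact hmin j (Finset.mem_sdiff.2 ⟨hj, hjD.2⟩)
      · exact hD x hx j hj hjD.2
    have hst : Function.update (st2 (S.els \ A) D) i St.B = st2 (S.els \ A) (insert i D) := by
      funext x
      by_cases hx : x = i
      · subst hx
        simp [st2]
      · simp [st2, hx]
    have hiC : i ∉ S.els \ A := fun hh => (Finset.mem_sdiff.1 hh).2 hi.1
    obtain ⟨T₂, L', hL', hs', hf'⟩ := S.move_AB M (hok D hDA hD)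
      (by rw [hst]; exact hok _ hsub hD') hie
      (by unfold st2; rw [if_neg hi.2, if_neg hiC]) hs.isTri_right hf
    rw [hst] at hf'
    refine ⟨insert i D, hsub, by rw [Finset.card_insert_of_notMem hi.2, hDm], hD', T₂, L + L', ?_,
      hs.trans hs', hf'⟩
    rw [Finset.card_insert_of_notMem hi.2, S.wt_insert' hi.2]
    calc L + L' ≤ (D.card * ((S.K + S.els.card) ^ 2 + 1) + M * S.wt D) +
          ((S.K + S.els.card) ^ 2 + M * S.w i + 1) := Nat.add_le_add hL hL'
      _ = (D.card + 1) * ((S.K + S.els.card) ^ 2 + 1) + M * (S.w i + S.wt D) := by ring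

/-- the states of the third phase -/
private def st3 (D : Finset ι) : ι → St := fun i => if i ∈ D then .H else .B

private theorem phase3 (D : Finset ι) (hD : D ⊆ S.els) :
    ∀ {T : Finset (ℕ × ℕ)}, IsTri (S.nn M) T → S.fans M (st3 D) ⊆ T →
    ∃ T₁ L, L ≤ D.card * (S.K + S.els.card) ^ 2 + M * S.wt D ∧ Steps (S.nn M) L T T₁ ∧
      S.fans M (st3 (∅ : Finset ι)) ⊆ T₁ := by
  induction D using Finset.induction_on with
  | empty => intro T hT h; exact ⟨T, 0, Nat.zero_le _, Steps.refl hT, h⟩
  | insert i D hi ih =>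
    intro T hT h
    have hie : i ∈ S.els := hD (Finset.mem_insert_self i D)
    have hst : Function.update (st3 (insert i D)) i St.B = st3 D := by
      funext x
      by_cases hx : x = i
      · subst hx
        simp [st3, hi]
      · simp [st3, hx]
    have hok : S.Ok (Function.update (st3 (insert i D)) i St.B) := by
      rw [hst]
      intro x _ y _ hx _
      unfold st3 at hx
      split_ifs at hx
    obtain ⟨T₂, L', hL', hs', hf'⟩ := S.move_HB M hok hie (by simp [st3]) hT h
    rw [hst] at hf'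
    obtain ⟨T₁, L, hL, hs, hf⟩ := ih (fun x hx => hD (Finset.mem_insert_of_mem hx))
      hs'.isTri_right hf'
    refine ⟨T₁, L' + L, ?_, hs'.trans hs, hf⟩
    rw [Finset.card_insert_of_notMem hi, S.wt_insert' hi]
    calc L' + L ≤ ((S.K + S.els.card) ^ 2 + M * S.w i) +
          (D.card * (S.K + S.els.card) ^ 2 + M * S.wt D) := Nat.add_le_add hL' hL
      _ = (D.card + 1) * (S.K + S.els.card) ^ 2 + M * (S.w i + S.wt D) := by ring

/-- **Upper bound.** Start with all states `A`. First hide all elements outside `A` (`move_AH`), then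
move the elements of `A` from red to blue in increasing order of the rank (`move_AB`; `Ok` holds: if `i`
is still red and `j` is already blue then `r j ≤ r i`, so there is no arc `i → j`), then unhide
the others (`move_HB`; everything in `A` is blue), and finally `core_reconf`. Every one of the
`2 |els \ A| + |A|` moves costs at most `(K + k)²` extra. -/
theorem upper {T T' : Finset (ℕ × ℕ)} (hT : IsTri (S.nn M) T) (hT' : IsTri (S.nn M) T')
    (h : ∀ i ∈ S.els, S.fanA M i ⊆ T) (h' : ∀ i ∈ S.els, S.fanB M i ⊆ T') {A : Finset ι}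
    (hA : A ⊆ S.els) (hac : S.Acyc A) :
    ∃ L, Steps (S.nn M) L T T' ∧ L + M * S.wt A ≤ 2 * M * S.wt S.els + S.err := by
  obtain ⟨r, hr⟩ := hac
  set C := S.els \ A with hC
  set E := (S.K + S.els.card) ^ 2 with hE
  -- phase 1
  have h0 : S.fans M (st1 (∅ : Finset ι)) ⊆ T := by
    unfold fans
    rw [Finset.biUnion_subset]
    intro i hi
    have : st1 (∅ : Finset ι) i = St.A := by simp [st1]
    rw [this]
    exact h i hi
  obtain ⟨T₁, L₁, hL₁, hs₁, hf₁⟩ := S.phase1 M hT h0 C Finset.sdiff_subset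
  -- phase 2
  have h12 : S.fans M (st1 C) = S.fans M (st2 (S.els \ A) ∅) := by
    apply S.fans_congr
    intro i _
    simp [st1, st2, hC]
  rw [h12] at hf₁
  obtain ⟨D, hDA, hDm, -, T₂, L₂, hL₂, hs₂, hf₂⟩ :=
    S.phase2 M hA hr hs₁.isTri_right hf₁ A.card le_rfl
  have hDA' : D = A := Finset.eq_of_subset_of_card_le hDA (by omega)
  rw [hDA'] at hL₂ hf₂
  -- phase 3
  have h23 : S.fans M (st2 (S.els \ A) A) = S.fans M (st3 C) := by
    apply S.fans_congr
    intro i hi
    by_cases hiA : i ∈ A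
    · simp [st2, st3, hC, hiA]
    · simp [st2, st3, hC, hiA, hi]
  rw [h23] at hf₂
  obtain ⟨T₃, L₃, hL₃, hs₃, hf₃⟩ := S.phase3 M C Finset.sdiff_subset hs₂.isTri_right hf₂
  -- phase 4
  have h4 : S.fans M (st3 (∅ : Finset ι)) ⊆ T' := by
    unfold fans
    rw [Finset.biUnion_subset]
    intro i hi
    have : st3 (∅ : Finset ι) i = St.B := by simp [st3]
    rw [this]
    exact h' i hi
  obtain ⟨L₄, hL₄, hs₄⟩ := S.core_reconf M hs₃.isTri_right hT' hf₃ h4
  refine ⟨L₁ + L₂ + L₃ + L₄, ((hs₁.trans hs₂).trans hs₃).trans hs₄, ?_⟩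
  have hcard : C.card + A.card = S.els.card := by
    rw [hC, Finset.card_sdiff_add_card_eq_card hA]
  have hwt : S.wt C + S.wt A = S.wt S.els := by
    unfold wt
    rw [hC]
    exact Finset.sum_sdiff hA
  have hmul : (2 * C.card + A.card + 1) * E ≤ (2 * S.els.card + 1) * E :=
    Nat.mul_le_mul_right _ (by omega)
  have hgoal : C.card * E + M * S.wt C + (A.card * (E + 1) + M * S.wt A) +
      (C.card * E + M * S.wt C) + E + M * S.wt A ≤ 2 * M * S.wt S.els + S.err := by
    unfold err
    rw [← hE, ← hwt]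
    calc C.card * E + M * S.wt C + (A.card * (E + 1) + M * S.wt A) +
        (C.card * E + M * S.wt C) + E + M * S.wt A
        = 2 * M * (S.wt C + S.wt A) + (A.card + (2 * C.card + A.card + 1) * E) := by ring
      _ ≤ 2 * M * (S.wt C + S.wt A) + (S.els.card + (2 * S.els.card + 1) * E) := by
          apply Nat.add_le_add_left
          apply Nat.add_le_add _ hmul
          omega
  rw [← hE] at hL₁ hL₂ hL₃ hL₄
  omega

end Pool.Agent.H72F.Sys
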