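import Pool.Agent.Lib.H72F.FanL
import Pool.Agent.Lib.H72F.InstDef
import Pool.Agent.Lib.H72F.SatIff
import Pool.Agent.Lib.H72F.Lang
import Pool.Agent.Lib.H72F.Lower
import Pool.Agent.Lib.H72F.Upper

/-!
# The instance of a formula
-/

set_option autoImplicit false

namespace Pool.Agent.H72F

open Pool.Agent.Lib.CookLevin

/-- the arithmetic of the unsatisfiable case -/
private theorem arith_unsat {M W E w0 wA d k2 R : ℕ} (h1 : 2 * M * W ≤ d + M * wA + k2)
    (h2 : wA + 1 ≤ w0) (h3 : w0 ≤ 2 * W) (hM : M = k2 + E + R) :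
    2 * M * W + E - M * w0 + R ≤ d := by
  obtain ⟨x, rfl⟩ := Nat.exists_eq_add_of_le h2
  obtain ⟨y, hy⟩ := Nat.exists_eq_add_of_le h3
  have h4 : 2 * M * W = M * wA + M * x + M + M * y := by
    have : 2 * M * W = M * (2 * W) := by ring
    rw [this, hy]
    ring
  have h5 : M * (wA + 1 + x) = M * wA + M * x + M := by ring
  rw [h4] at h1 ⊢
  rw [h5]
  have h6 : M * wA + M * x + M + M * y + E - (M * wA + M * x + M) = M * y + E := by omega
  rw [h6]
  have h7 : M * x + M + M * y ≤ d + k2 := by omega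
  have h8 : M + M * y ≤ d + k2 := le_trans (by omega) h7
  omega

/-- the number of vertices is small in comparison with the gap -/
private theorem arith_gap {N K k W D R M c : ℕ} (hN : N = K + k + M * W)
    (hR : R = D + (2 * (K + k + W)) ^ c + 1) (hM : M = D + R) : N ^ c < R ^ (c + 1) := by
  have h1 : 1 ≤ M := by omega
  have h2 : N ≤ M * (K + k + W) := by
    rw [hN, Nat.mul_add]
    have := Nat.le_mul_of_pos_left (K + k) h1
    omega
  have h3 : M ≤ 2 * R := by omega
  have h4 : N ≤ R * (2 * (K + k + W)) := by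
    calc N ≤ M * (K + k + W) := h2
      _ ≤ 2 * R * (K + k + W) := Nat.mul_le_mul_right _ h3
      _ = R * (2 * (K + k + W)) := by ring
  have h5 : (2 * (K + k + W)) ^ c < R := by omega
  calc N ^ c ≤ (R * (2 * (K + k + W))) ^ c := Nat.pow_le_pow_left h4 c
    _ = R ^ c * (2 * (K + k + W)) ^ c := mul_pow _ _ _
    _ < R ^ c * R := Nat.mul_lt_mul_of_pos_left h5 (Nat.pow_pos (by omega))
    _ = R ^ (c + 1) := (pow_succ _ _).symm

/-- **The instance of a formula.** CHUNK M: by `greedy_spec` (with `mem_redL`, `fanA_isDiag`,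
`fanA_fanA`, …) both lists are triangulations containing the fans. If `F` is satisfiable then use
`exists_acyc` and `Sys.upper`; otherwise `Sys.lower`, `sat_of_wt`. Arithmetic: with `K, k, W, E, D, R, M`,
`nn = K + k + M W ≤ M Q` where `Q = K + k + W`, `M ≤ 2 R`, `(2 Q)^c < R`, so
`nn ^ c ≤ (2 Q R)^c < R ^ (c + 1)`. -/
theorem inst_spec (c : ℕ) {F : List (List (ℕ × Bool))} {n : ℕ} (hn : 2 ≤ n)
    (hF : ∀ C ∈ F, ∀ l ∈ C, l.1 < n) :
    3 ≤ nN c F n ∧ ∃ T T' : Tri (nN c F n), Rep T (l1 c F n) ∧ Rep T' (l2 c F n) ∧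
      (CNFSat F → (flipGraph (nN c F n)).dist T T' ≤ nT c F n) ∧
      (¬ CNFSat F → nN c F n ^ c < ((flipGraph (nN c F n)).dist T T' - nT c F n) ^ (c + 1)) := by
  have hN : nN c F n = (gsys F n hn).nn (nM c F n) := startL_eq hn _ _
  have hk : nk F n = (gsys F n hn).els.card := quads_length hn
  have hW : nW F n = (gsys F n hn).wt (gsys F n hn).els := quads_weight hn
  have hE : nE F n = (gsys F n hn).err := by
    unfold nE Sys.err
    rw [hk]
    rfl
  have hN' : nN c F n = nK F n + nk F n + nM c F n * nW F n := by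
    rw [hN, Sys.nn_eq, hk, hW]
    rfl
  have hK : 4 ≤ nK F n := (gsys F n hn).four_le
  have h3 : 3 ≤ nN c F n := by omega
  refine ⟨h3, ?_⟩
  -- the two triangulations
  obtain ⟨a1, a2, a3⟩ := greedy_spec (n := nN c F n) (redL_nodup hn (nM c F n))
    (fun d hd => by
      obtain ⟨e, he, h⟩ := (mem_redL hn _ d).1 hd
      rw [hN]
      exact (gsys F n hn).fanA_isDiag _ he d h)
    (fun d hd e he => by
      obtain ⟨i, hi, h⟩ := (mem_redL hn _ d).1 hd
      obtain ⟨j, hj, h'⟩ := (mem_redL hn _ e).1 he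
      exact (gsys F n hn).fanA_fanA _ hi hj d h e h')
  obtain ⟨b1, b2, b3⟩ := greedy_spec (n := nN c F n) (blueL_nodup hn (nM c F n))
    (fun d hd => by
      obtain ⟨e, he, h⟩ := (mem_blueL hn _ d).1 hd
      rw [hN]
      exact (gsys F n hn).fanB_isDiag _ he d h)
    (fun d hd e he => by
      obtain ⟨i, hi, h⟩ := (mem_blueL hn _ d).1 hd
      obtain ⟨j, hj, h'⟩ := (mem_blueL hn _ e).1 he
      exact (gsys F n hn).fanB_fanB _ hi hj d h e h')
  have hA : ∀ i ∈ (gsys F n hn).els, (gsys F n hn).fanA (nM c F n) i ⊆ (l1 c F n).toFinset := by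
    intro i hi d hd
    exact List.mem_toFinset.2 (a3 ((mem_redL hn _ d).2 ⟨i, hi, hd⟩))
  have hB : ∀ i ∈ (gsys F n hn).els, (gsys F n hn).fanB (nM c F n) i ⊆ (l2 c F n).toFinset := by
    intro i hi d hd
    exact List.mem_toFinset.2 (b3 ((mem_blueL hn _ d).2 ⟨i, hi, hd⟩))
  refine ⟨⟨(l1 c F n).toFinset, a2⟩, ⟨(l2 c F n).toFinset, b2⟩, ⟨a1, rfl⟩, ⟨b1, rfl⟩, ?_, ?_⟩
  · intro hs
    obtain ⟨A, hA1, hA2, hA3⟩ := exists_acyc hn hF hs
    have a2' : IsTri ((gsys F n hn).nn (nM c F n)) (l1 c F n).toFinset := hN ▸ a2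
    have b2' : IsTri ((gsys F n hn).nn (nM c F n)) (l2 c F n).toFinset := hN ▸ b2
    obtain ⟨L, hL1, hL2⟩ := (gsys F n hn).upper (nM c F n) a2' b2' hA hB hA1 hA2
    rw [← hN] at hL1
    have h4 := (hL1.dist_le a2 b2).2
    refine h4.trans ?_
    unfold nT
    rw [hA3, ← hW, ← hE] at hL2
    omega
  · intro hs
    have hr : (flipGraph (nN c F n)).Reachable ⟨(l1 c F n).toFinset, a2⟩
        ⟨(l2 c F n).toFinset, b2⟩ := (flipGraph_connected h3).preconnected _ _
    have h4 : Steps (nN c F n) ((flipGraph (nN c F n)).dist ⟨(l1 c F n).toFinset, a2⟩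
        ⟨(l2 c F n).toFinset, b2⟩) (l1 c F n).toFinset (l2 c F n).toFinset :=
      exists_steps_dist a2 b2 hr
    generalize (flipGraph (nN c F n)).dist ⟨(l1 c F n).toFinset, a2⟩
        ⟨(l2 c F n).toFinset, b2⟩ = d at h4 ⊢
    rw [hN] at h4
    obtain ⟨A, hA1, hA2, hA3⟩ := (gsys F n hn).lower (nM c F n) hA hB h4
    have h5 : (gsys F n hn).wt A + 1 ≤ W0 F n := by
      by_contra h6
      exact hs (sat_of_wt hn hA1 hA2 (by omega))
    have h6 : W0 F n ≤ 2 * nW F n := by
      have := W0_le (F := F) hn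
      rw [← hW] at this
      omega
    rw [← hW, ← hk] at hA3
    have h7 := arith_unsat (M := nM c F n) (W := nW F n) (E := nE F n) (w0 := W0 F n)
      (wA := (gsys F n hn).wt A) (d := d) (k2 := nk F n ^ 2 + 2 * nk F n) (R := nR c F n)
      (by omega) h5 h6 rfl
    have h8 : nR c F n ≤ d - nT c F n := by
      have h9 : nT c F n + nR c F n ≤ d := h7
      omega
    refine lt_of_lt_of_le ?_ (Nat.pow_le_pow_left h8 (c + 1))
    exact arith_gap hN' rfl rfl

end Pool.Agent.H72F
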