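import Pool.Agent.Lib.H72F.Basic
import Pool.Agent.Lib.H72F.Card

/-!
# CHUNK F3: reconfiguration with fixed diagonals
-/

set_option autoImplicit false

namespace Pool.Agent.H72F

variable {n : ℕ} {T T' F : Finset (ℕ × ℕ)}

theorem IsSide.lt_of_isTri {n : ℕ} {T : Finset (ℕ × ℕ)} (hT : IsTri n T) (hn : 2 ≤ n) {x y : ℕ}
    (h : IsSide n T x y) : x < y := by
  rcases h with h | h | h
  · have := (hT.1 _ h).1
    simp only at this
    omega
  · omega
  · omega

/-- nothing of the triangulation crosses a side -/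
theorem IsSide.not_cross {n : ℕ} {T : Finset (ℕ × ℕ)} (hT : IsTri n T) {x y : ℕ}
    (h : IsSide n T x y) {d : ℕ × ℕ} (hd : d ∈ T) : ¬ Cross d (x, y) := by
  rcases h with h | h | h
  · exact hT.2.1 _ hd _ h
  · intro hc
    rcases hc with hc | hc <;> simp only at hc <;> omega
  · have h2 := (hT.1 _ hd).2.1
    intro hc
    rcases hc with hc | hc <;> simp only at hc <;> omega

/-- The outer third vertex of an element of the triangulation. -/
theorem exists_outer {n : ℕ} {T : Finset (ℕ × ℕ)} (hT : IsTri n T) {p q : ℕ} (h : (p, q) ∈ T) :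
    (∃ w, w < p ∧ IsSide n T w p ∧ IsSide n T w q) ∨
      (∃ w, q < w ∧ w < n ∧ IsSide n T q w ∧ IsSide n T p w) := by
  classical
  have hd := hT.1 _ h
  have hd1 : p + 2 ≤ q := hd.1
  have hd2 : q < n := hd.2.1
  have hd3 : ¬ (p = 0 ∧ q + 1 = n) := hd.2.2
  -- the candidates
  have hex : ∃ k : ℕ, ∃ p' q' : ℕ, q' = p' + k ∧ q' < n ∧ IsSide n T p' q' ∧ p' ≤ p ∧ q ≤ q' ∧
      (p', q') ≠ (p, q) := by
    refine ⟨n - 1, 0, n - 1, by omega, by omega, Or.inr (Or.inr ⟨rfl, by omega⟩), Nat.zero_le _,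
      by omega, ?_⟩
    intro he
    simp only [Prod.mk.injEq] at he
    omega
  obtain ⟨p', q', hk, hq', hs, hp, hq, hne⟩ := Nat.find_spec hex
  have hmin : ∀ p1 q1 : ℕ, q1 < n → IsSide n T p1 q1 → p1 ≤ p → q ≤ q1 → p' ≤ p1 → q1 ≤ q' →
      (p1, q1) ≠ (p', q') → (p1, q1) = (p, q) := by
    intro p1 q1 h1 h2 h3 h4 h5 h6 h7
    by_contra h8
    have h9 : q1 - p1 < Nat.find hex := by
      have : ¬ (p1 = p' ∧ q1 = q') := by
        rintro ⟨rfl, rfl⟩
        exact h7 rfl
      omega
    exact Nat.find_min hex h9 ⟨p1, q1, by omega, h1, h2, h3, h4, h8⟩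
  obtain ⟨z, hz1, hz2, hz3, hz4⟩ := exists_third hT (x := p') (y := q') (by omega) hq' hs
  have hno := IsSide.not_cross hT hz3 h
  have hno2 := IsSide.not_cross hT hz4 h
  have hne' : ¬ (p' = p ∧ q' = q) := by
    rintro ⟨rfl, rfl⟩
    exact hne rfl
  have hzz : z ≤ p ∨ q ≤ z := by
    by_contra hcon
    push Not at hcon
    have : p' = p := by
      by_contra hpp
      apply hno
      right
      simp only
      omega
    have : q' = q := by
      by_contra hqq
      apply hno2
      left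
      simp only
      omega
    omega
  rcases hzz with hz | hz
  · have := hmin z q' hq' hz4 hz hq (by omega) le_rfl (by
      intro he
      simp only [Prod.mk.injEq] at he
      omega)
    simp only [Prod.mk.injEq] at this
    obtain ⟨rfl, rfl⟩ := this
    left
    exact ⟨p', hz1, hz3, hs⟩
  · have := hmin p' z (by omega) hz3 hp hz le_rfl (by omega) (by
      intro he
      simp only [Prod.mk.injEq] at he
      omega)
    simp only [Prod.mk.injEq] at this
    obtain ⟨rfl, rfl⟩ := this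
    right
    exact ⟨q', hz2, hq', hz4, hs⟩

/-- Flip of `(p, q)` with the inner third vertex `z`: the new diagonal has the endpoint `z`. -/
theorem exists_flip_at {n : ℕ} {T : Finset (ℕ × ℕ)} (hT : IsTri n T) {p q z : ℕ} (h : (p, q) ∈ T)
    (hz1 : p < z) (hz2 : z < q) (hz3 : IsSide n T p z) (hz4 : IsSide n T z q) :
    ∃ f : ℕ × ℕ, (f.1 = z ∨ f.2 = z) ∧ Flip n T (insert f (T.erase (p, q))) := by
  have hq : q < n := (hT.1 _ h).2.1
  rcases exists_outer hT h with ⟨w, hw1, hw2, hw3⟩ | ⟨w, hw1, hw2, hw3, hw4⟩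
  · exact ⟨(w, z), Or.inr rfl, w, p, z, q, hw1, hz1, hz2, hq, hw2, hz3, hz4, hw3,
      Or.inr ⟨h, rfl⟩⟩
  · exact ⟨(z, w), Or.inl rfl, p, z, q, w, hz1, hz2, hw1, hw2, hz3, hz4, hw3, hw4,
      Or.inl ⟨h, rfl⟩⟩

theorem not_cross_of_endpoint {f e : ℕ × ℕ} (h : f.1 = e.1 ∨ f.2 = e.1 ∨ f.1 = e.2 ∨ f.2 = e.2) :
    ¬ Cross f e := by
  intro hc
  rcases hc with hc | hc <;> omega

/-- One flip reduces the number of segments crossing a missing diagonal `e = (x, y)`; only segments
crossing `e` are removed. Proof: as `e ∉ T`, by maximality some element of `T` crosses `e`. The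
triangle of `T` at the vertex `x` that `e` enters has vertices `x, u, v` with `u < y < v` or
`v < x`, i.e. `(u, v)` (sorted) crosses `e`; flip `(u, v)`: the new diagonal has the endpoint `x`, so it
does not cross `e`. (To find the triangle: let `u` be the largest vertex in `(x, y)` with `IsSide` from
`x`, and `v` the next neighbour of `x` in cyclic order after `u`; it is not `y` since `e ∉ T`.) -/
theorem exists_flip_toward (hn : 4 ≤ n) (hT : IsTri n T) {e : ℕ × ℕ} (he : IsDiag n e)
    (heT : e ∉ T) :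
    ∃ T₁, Flip n T T₁ ∧ (T₁.filter (fun d => Cross d e)).card + 1 =
      (T.filter (fun d => Cross d e)).card ∧ ∀ d ∈ T, ¬ Cross d e → d ∈ T₁ := by
  classical
  -- it is enough to find a crossing segment whose inner third vertex is an endpoint of `e`
  have key : ∀ p q z : ℕ, (p, q) ∈ T → Cross (p, q) e → p < z → z < q → IsSide n T p z →
      IsSide n T z q → (z = e.1 ∨ z = e.2) →
      ∃ T₁, Flip n T T₁ ∧ (T₁.filter (fun d => Cross d e)).card + 1 =
        (T.filter (fun d => Cross d e)).card ∧ ∀ d ∈ T, ¬ Cross d e → d ∈ T₁ := by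
    intro p q z hpq hc h1 h2 h3 h4 hz
    obtain ⟨f, hf, hfl⟩ := exists_flip_at hT hpq h1 h2 h3 h4
    have hfe : ¬ Cross f e := by
      apply not_cross_of_endpoint
      rcases hf with hf | hf <;> rcases hz with hz | hz <;> omega
    refine ⟨_, hfl, ?_, ?_⟩
    · rw [Finset.filter_insert, if_neg hfe, Finset.filter_erase, Finset.card_erase_of_mem]
      · have : 0 < (T.filter (fun d => Cross d e)).card :=
          Finset.card_pos.2 ⟨(p, q), Finset.mem_filter.2 ⟨hpq, hc⟩⟩
        omega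
      · exact Finset.mem_filter.2 ⟨hpq, hc⟩
    · intro d hd hde
      refine Finset.mem_insert_of_mem (Finset.mem_erase.2 ⟨?_, hd⟩)
      rintro rfl
      exact hde hc
  -- some element of `T` crosses `e`
  have hex : ∃ d ∈ T, Cross d e := by
    by_contra hcon
    push Not at hcon
    exact heT (hT.2.2 e he hcon)
  obtain ⟨⟨p0, q0⟩, hd0, hc0⟩ := hex
  rcases hc0 with hc0 | hc0
  · -- type 1: `p < x < q < y`
    have hex : ∃ k : ℕ, ∃ p q : ℕ, q = p + k ∧ (p, q) ∈ T ∧ p < e.1 ∧ e.1 < q ∧ q < e.2 := by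
      simp only at hc0
      exact ⟨q0 - p0, p0, q0, by omega, hd0, hc0⟩
    obtain ⟨p, q, hk, hpq, h1, h2, h3⟩ := Nat.find_spec hex
    have hpq' := hT.1 _ hpq
    have hpq1 : p + 2 ≤ q := hpq'.1
    have hpq2 : q < n := hpq'.2.1
    obtain ⟨z, hz1, hz2, hz3, hz4⟩ := exists_third hT hpq1 hpq2 (Or.inl hpq)
    refine key p q z hpq (Or.inl ⟨h1, h2, h3⟩) hz1 hz2 hz3 hz4 (Or.inl ?_)
    by_contra hze
    rcases lt_or_gt_of_ne hze with hlt | hgt
    · rcases hz4 with hz4 | hz4 | hz4
      · exact Nat.find_min hex (m := q - z) (by omega) ⟨z, q, by omega, hz4, hlt, h2, h3⟩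
      · omega
      · omega
    · rcases hz3 with hz3 | hz3 | hz3
      · exact Nat.find_min hex (m := z - p) (by omega) ⟨p, z, by omega, hz3, h1, hgt, by omega⟩
      · omega
      · omega
  · -- type 2: `x < p < y < q`
    have hex : ∃ k : ℕ, ∃ p q : ℕ, q = p + k ∧ (p, q) ∈ T ∧ e.1 < p ∧ p < e.2 ∧ e.2 < q := by
      simp only at hc0
      exact ⟨q0 - p0, p0, q0, by omega, hd0, hc0⟩
    obtain ⟨p, q, hk, hpq, h1, h2, h3⟩ := Nat.find_spec hex
    have hpq' := hT.1 _ hpq
    have hpq1 : p + 2 ≤ q := hpq'.1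
    have hpq2 : q < n := hpq'.2.1
    obtain ⟨z, hz1, hz2, hz3, hz4⟩ := exists_third hT hpq1 hpq2 (Or.inl hpq)
    refine key p q z hpq (Or.inr ⟨h1, h2, h3⟩) hz1 hz2 hz3 hz4 (Or.inr ?_)
    by_contra hze
    rcases lt_or_gt_of_ne hze with hlt | hgt
    · rcases hz4 with hz4 | hz4 | hz4
      · exact Nat.find_min hex (m := q - z) (by omega) ⟨z, q, by omega, hz4, by omega, hlt, h3⟩
      · omega
      · omega
    · rcases hz3 with hz3 | hz3 | hz3
      · exact Nat.find_min hex (m := z - p) (by omega) ⟨p, z, by omega, hz3, h1, h2, hgt⟩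
      · omega
      · omega

theorem exists_insert_aux (hn : 4 ≤ n) {e : ℕ × ℕ} (he : IsDiag n e) (k : ℕ) :
    ∀ T : Finset (ℕ × ℕ), IsTri n T → (T.filter (fun d => Cross d e)).card = k →
      ∃ T₁, Steps n k T T₁ ∧ e ∈ T₁ ∧ ∀ d ∈ T, ¬ Cross d e → d ∈ T₁ := by
  induction k with
  | zero =>
    intro T hT hk
    refine ⟨T, Steps.refl hT, ?_, fun d hd _ => hd⟩
    refine hT.2.2 e he fun d hd hc => ?_
    have := Finset.card_eq_zero.1 hk
    have h2 : d ∈ T.filter (fun d => Cross d e) := Finset.mem_filter.2 ⟨hd, hc⟩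
    rw [this] at h2
    exact absurd h2 (Finset.notMem_empty d)
  | succ k ih =>
    intro T hT hk
    have heT : e ∉ T := by
      intro heT
      have : 0 < (T.filter (fun d => Cross d e)).card := by omega
      obtain ⟨d, hd⟩ := Finset.card_pos.1 this
      rw [Finset.mem_filter] at hd
      exact hT.2.1 _ hd.1 _ heT hd.2
    obtain ⟨T₂, hfl, hcard, hkeep⟩ := exists_flip_toward hn hT he heT
    have hT₂ := hfl.isTri hT
    obtain ⟨T₁, hs, he1, hkeep1⟩ := ih T₂ hT₂ (by omega)
    refine ⟨T₁, ?_, he1, fun d hd hde => hkeep1 d (hkeep d hd hde) hde⟩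
    have := (Steps.single hT hfl).trans hs
    rwa [add_comm] at this

/-- Insert the diagonal `e` by at most `T.card - F.card` flips, keeping all elements of `F` and
everything in `T` that does not cross `e`. (Iterate `exists_flip_toward`; the number of segments of
`T` crossing `e` is at most `T.card - F.card`.) -/
theorem exists_insert (hn : 4 ≤ n) (hT : IsTri n T) (hF : F ⊆ T) {e : ℕ × ℕ} (he : IsDiag n e)
    (heF : ∀ d ∈ F, ¬ Cross d e) :
    ∃ T₁ L, L + F.card ≤ T.card ∧ Steps n L T T₁ ∧ F ⊆ T₁ ∧ e ∈ T₁ ∧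
      ∀ d ∈ T, ¬ Cross d e → d ∈ T₁ := by
  classical
  obtain ⟨T₁, hs, he1, hkeep⟩ := exists_insert_aux hn he _ T hT rfl
  refine ⟨T₁, _, ?_, hs, fun d hd => hkeep d (hF hd) (heF d hd), he1, hkeep⟩
  rw [← Finset.card_union_of_disjoint]
  · exact Finset.card_le_card (Finset.union_subset (Finset.filter_subset _ _) hF)
  · rw [Finset.disjoint_left]
    intro d hd hdF
    exact heF d hdF (Finset.mem_filter.1 hd).2

theorem reconf_aux (hn : 4 ≤ n) (hT' : IsTri n T') (m : ℕ) :
    ∀ T F : Finset (ℕ × ℕ), IsTri n T → F ⊆ T → F ⊆ T' → F.card + m = T'.card →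
      ∃ L, L ≤ m ^ 2 ∧ Steps n L T T' := by
  classical
  have hc' := hT'.card (by omega)
  induction m with
  | zero =>
    intro T F hT hF hF' hm
    have hc := hT.card (by omega)
    have h1 : F = T' := Finset.eq_of_subset_of_card_le hF' (by omega)
    have h2 : F = T := Finset.eq_of_subset_of_card_le hF (by omega)
    subst h1
    subst h2
    exact ⟨0, by simp, Steps.refl hT⟩
  | succ m ih =>
    intro T F hT hF hF' hm
    have hc := hT.card (by omega)
    have hex : ∃ e ∈ T', e ∉ F := by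
      by_contra hcon
      push Not at hcon
      have : T'.card ≤ F.card := Finset.card_le_card hcon
      omega
    obtain ⟨e, heT', heF⟩ := hex
    obtain ⟨T₁, L, hL, hs, hF1, he1, -⟩ := exists_insert hn hT hF (hT'.1 e heT')
      (fun d hd => hT'.2.1 _ (hF' hd) _ heT')
    obtain ⟨L', hL', hs'⟩ := ih T₁ (insert e F) hs.isTri_right
      (Finset.insert_subset he1 hF1) (Finset.insert_subset heT' hF')
      (by rw [Finset.card_insert_of_notMem heF]; omega)
    refine ⟨L + L', ?_, hs.trans hs'⟩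
    have : L ≤ m + 1 := by omega
    nlinarith

/-- Two triangulations containing `F` have distance at most `(n - 3 - |F|)²`: insert the elements
of `T' \ F` one after the other. -/
theorem reconf (hn : 4 ≤ n) (hT : IsTri n T) (hT' : IsTri n T') (hF : F ⊆ T) (hF' : F ⊆ T') :
    ∃ L, L ≤ (n - 3 - F.card) ^ 2 ∧ Steps n L T T' := by
  have hc' := hT'.card (by omega)
  have := Finset.card_le_card hF'
  obtain ⟨L, hL, hs⟩ := reconf_aux hn hT' (n - 3 - F.card) T F hT hF hF' (by omega)
  exact ⟨L, hL, hs⟩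

/-- the flip graph is connected -/
theorem flipGraph_connected (hn : 3 ≤ n) : (flipGraph n).Connected := by
  classical
  obtain ⟨T₀, hT₀, -⟩ := exists_tri (n := n) (C := ∅) (by simp) (by simp)
  have hpre : (flipGraph n).Preconnected := by
    rintro ⟨T, hT⟩ ⟨T', hT'⟩
    rcases Nat.lt_or_ge n 4 with h | h
    · have h1 := hT.card hn
      have h2 := hT'.card hn
      have h3 : T = ∅ := Finset.card_eq_zero.1 (by omega)
      have h4 : T' = ∅ := Finset.card_eq_zero.1 (by omega)
      subst h3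
      subst h4
      exact SimpleGraph.Reachable.refl _
    · obtain ⟨L, -, hs⟩ := reconf h hT hT' (Finset.empty_subset T) (Finset.empty_subset T')
      exact (hs.dist_le hT hT').1
  have : Nonempty {T : Finset (ℕ × ℕ) // IsTri n T} := ⟨⟨T₀, hT₀⟩⟩
  exact ⟨hpre⟩

end Pool.Agent.H72F
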