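import Pool.Agent.Lib.H72F.PTInst
import Pool.Agent.Lib.H72F.Inst
import Pool.Agent.Lib.H72F.Reconf
import Pool.Agent.Lib.CookLevin.TMLocal

/-!
# CONVEX FLIP DISTANCE is NP-hard
-/

set_option autoImplicit false

namespace Pool.Agent.H72F

open Turing Pool.Agent.PolyTime Pool.Agent.Lib.CookLevin Pool.Agent.D3

theorem gap_hard (c : ℕ) {L : Word → Prop} (hL : InNP L) : ∃ f : Word → Word,
    Nonempty (TM2ComputableInPolyTime (id : Word → List Bool) (id : Word → List Bool) f) ∧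
    ∀ x, ∃ n k, 3 ≤ n ∧ ∃ (T T' : Tri n) (l l' : List (ℕ × ℕ)), Rep T l ∧ Rep T' l' ∧
      f x = enc n k l l' ∧ (L x → (flipGraph n).dist T T' ≤ k) ∧
      (¬ L x → n ^ c < ((flipGraph n).dist T T' - k) ^ (c + 1)) := by
  obtain ⟨g, hg, hg'⟩ := cnfSat_hard hL
  have h2 : PT fun x => instW c (ren (g x)) (nz (g x)) := (PT_instW c).comp hg
  refine ⟨fun x => instW c (ren (g x)) (nz (g x)), PT.tmRaw h2, fun x => ?_⟩
  obtain ⟨h3, T, T', h4, h5, h6, h7⟩ := inst_spec c (two_le_nz (g x)) (lt_nz (g x))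
  refine ⟨_, nT c (ren (g x)) (nz (g x)), h3, T, T', _, _, h4, h5, rfl, ?_, ?_⟩
  · intro h
    exact h6 ((cnfSat_ren _).2 ((hg' x).1 h))
  · intro h
    exact h7 fun h' => h ((hg' x).2 ((cnfSat_ren _).1 h'))

theorem npHard_convexFlip : NPHard ConvexFlipLang := by
  intro L hL
  obtain ⟨f, hf, hf'⟩ := gap_hard 0 hL
  refine ⟨f, hf, fun x => ?_⟩
  obtain ⟨n, k, hn, T, T', l, l', h1, h2, h3, h4, h5⟩ := hf' x
  rw [h3, mem_lang hn h1 h2]
  refine ⟨h4, fun h => ?_⟩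
  by_contra h6
  have := h5 h6
  rw [Nat.sub_eq_zero_of_le h] at this
  simp at this

end Pool.Agent.H72F
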