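import Pool.Agent.Lib.H72F.Geo2
import Pool.Agent.Lib.H72F.Reconf

/-!
# CHUNK S4: the three moves
-/

set_option autoImplicit false

namespace Pool.Agent.H72F

/-- state of an element: red fan, hidden fan, blue fan -/
inductive St : Type
  | A | H | B
  deriving DecidableEq

namespace Sys

variable {ι : Type} [DecidableEq ι] (S : Sys ι) (M : ℕ)

/-- the fan of `i` in the state `s` -/
def fan (s : St) (i : ι) : Finset (ℕ × ℕ) :=
  match s with
  | .A => S.fanA M i
  | .H => S.fanH M i
  | .B => S.fanB M i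

/-- all fans of a vector of states -/
def fans (st : ι → St) : Finset (ℕ × ℕ) := S.els.biUnion fun i => S.fan M (st i) i

/-- no red chord of an element in the state `A` crosses a blue chord of an element in the state `B` -/
def Ok (st : ι → St) : Prop := ∀ i ∈ S.els, ∀ j ∈ S.els, st i = .A → st j = .B → ¬ S.Arc i j

/-! ### Segments between the blocks of two points -/

private theorem cross_comm (d e : ℕ × ℕ) : Cross d e ↔ Cross e d := by
  unfold Cross
  exact or_comm

private theorem nc_share (x y z : ℕ) : ¬ Cross (pr x y) (pr x z) := by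
  unfold Cross pr
  simp only
  omega

/-- `d` joins a vertex of the point `x` with a vertex of the point `y` -/
private def Bet (x y : ℕ) (d : ℕ × ℕ) : Prop :=
  ∃ s t, s < S.size M x ∧ t < S.size M y ∧ d = pr (S.start M x + s) (S.start M y + t)

private theorem Bet.symm {x y : ℕ} {d : ℕ × ℕ} (h : S.Bet M x y d) : S.Bet M y x d := by
  obtain ⟨s, t, hs, ht, rfl⟩ := h
  exact ⟨t, s, ht, hs, pr_comm _ _⟩

private theorem Bet.nc {x y u v : ℕ} {d e : ℕ × ℕ} (hd : S.Bet M x y d) (he : S.Bet M u v e)
    (hxy : x ≠ y) (huv : u ≠ v) (hxu : x ≠ u) (hxv : x ≠ v) (hyu : y ≠ u) (hyv : y ≠ v)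
    (h : ¬ Cross (pr x y) (pr u v)) : ¬ Cross d e := by
  obtain ⟨s, t, hs, ht, rfl⟩ := hd
  obtain ⟨s', t', hs', ht', rfl⟩ := he
  rwa [S.cross_iff M hxy huv hxu hxv hyu hyv hs ht hs' ht']

/-- vertices of different points are separated -/
private theorem sep {x u s : ℕ} (hxu : x ≠ u) (hs : s < S.size M x) :
    S.start M x + s < S.start M u ∨ S.start M u + S.size M u ≤ S.start M x + s := by
  rcases lt_or_gt_of_ne hxu with h | h
  · exact Or.inl (S.start_lt M h hs)
  · right
    have := S.start_mono M (Nat.succ_le_of_lt h)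
    rw [Nat.succ_eq_add_one, start_succ] at this
    omega

private theorem Bet.nc_block {x y u : ℕ} {d e : ℕ × ℕ} (hd : S.Bet M x y d) (he : S.Bet M u u e)
    (hxu : x ≠ u) (hyu : y ≠ u) : ¬ Cross d e := by
  obtain ⟨s, t, hs, ht, rfl⟩ := hd
  obtain ⟨s', t', hs', ht', rfl⟩ := he
  have h1 := S.sep M hxu hs
  have h2 := S.sep M hyu ht
  unfold Cross pr
  simp only
  omega

private theorem Bet.ne {x y u v : ℕ} {d e : ℕ × ℕ} (hd : S.Bet M x y d) (he : S.Bet M u v e)
    (hxu : x ≠ u) (hyu : y ≠ u) : d ≠ e := by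
  obtain ⟨s, t, hs, ht, rfl⟩ := hd
  obtain ⟨s', t', hs', ht', rfl⟩ := he
  have h1 := S.sep M hxu hs
  have h2 := S.sep M hyu ht
  intro h
  unfold pr at h
  simp only [Prod.mk.injEq] at h
  omega

private theorem Bet.lt {x y : ℕ} {d : ℕ × ℕ} (hd : S.Bet M x y d) (hxy : x ≠ y) (hx : x < S.K)
    (hy : y < S.K) : d.1 < d.2 ∧ d.2 < S.nn M := by
  obtain ⟨s, t, hs, ht, rfl⟩ := hd
  have h1 := S.sep M hxy hs
  have h2 := S.vertex_lt M hx hs
  have h3 := S.vertex_lt M hy ht
  unfold pr
  simp only
  omega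

/-- the apex of the fan -/
private def apx (s : St) (i : ι) : ℕ :=
  match s with
  | .A => S.a i
  | .H => S.p i
  | .B => S.b i

private theorem bet_fan {i : ι} (hi : i ∈ S.els) (s : St) :
    ∀ d ∈ S.fan M s i, S.Bet M (S.apx s i) (S.p i) d := by
  intro d hd
  have hp := S.size_p M hi
  have ha := S.size_a M hi
  have hb := S.size_b M hi
  cases s
  · simp only [fan, fanA, Finset.mem_image, Finset.mem_range] at hd
    obtain ⟨t, ht, rfl⟩ := hd
    exact ⟨0, t + 1, by simp only [apx]; omega, by omega, by simp only [apx, add_zero]⟩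
  · simp only [fan, fanH, Finset.mem_image, Finset.mem_range] at hd
    obtain ⟨t, ht, rfl⟩ := hd
    refine ⟨0, t + 2, by simp only [apx]; omega, by omega, ?_⟩
    simp only [apx, add_zero, pr, Prod.mk.injEq]
    omega
  · simp only [fan, fanB, Finset.mem_image, Finset.mem_range] at hd
    obtain ⟨t, ht, rfl⟩ := hd
    exact ⟨0, t + 1, by simp only [apx]; omega, by omega, by simp only [apx, add_zero]⟩

private theorem fan_isDiag {i : ι} (hi : i ∈ S.els) (s : St) :
    ∀ d ∈ S.fan M s i, IsDiag (S.nn M) d := by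
  cases s
  · exact S.fanA_isDiag M hi
  · exact S.fanH_isDiag M hi
  · exact S.fanB_isDiag M hi

private theorem card_fan {i : ι} (hi : i ∈ S.els) (s : St) :
    (S.fan M s i).card = M * S.w i := by
  cases s
  · exact S.card_fanA M hi
  · exact S.card_fanH M hi
  · exact S.card_fanB M hi

private theorem mem_fans {st : ι → St} {d : ℕ × ℕ} :
    d ∈ S.fans M st ↔ ∃ i ∈ S.els, d ∈ S.fan M (st i) i := by
  simp only [fans, Finset.mem_biUnion]

private theorem fans_isDiag {st : ι → St} : ∀ d ∈ S.fans M st, IsDiag (S.nn M) d := by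
  intro d hd
  obtain ⟨i, hi, hd⟩ := (S.mem_fans M).1 hd
  exact S.fan_isDiag M hi _ d hd

/-- the points of different elements are different -/
private theorem pts_ne {i j : ι} (hi : i ∈ S.els) (hj : j ∈ S.els) (hij : i ≠ j) (s s' : St) :
    S.apx s i ≠ S.p j ∧ S.p i ≠ S.apx s' j ∧ S.p i ≠ S.p j ∧ S.apx s i ≠ S.apx s' j := by
  have h1 : S.p i ≠ S.p j := fun h => hij (S.p_inj i hi j hj h)
  have h2 : S.a i ≠ S.a j := fun h => hij (S.a_inj i hi j hj h)
  have h3 : S.b i ≠ S.b j := fun h => hij (S.b_inj i hi j hj h)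
  have h4 := S.p_ne_a i hi j hj
  have h5 := S.p_ne_b i hi j hj
  have h6 := S.a_ne_b i hi j hj
  have h4' := (S.p_ne_a j hj i hi).symm
  have h5' := (S.p_ne_b j hj i hi).symm
  have h6' := (S.a_ne_b j hj i hi).symm
  cases s <;> cases s' <;> simp only [apx] <;> refine ⟨?_, ?_, ?_, ?_⟩ <;> assumption

private theorem disj_fan {i j : ι} (hi : i ∈ S.els) (hj : j ∈ S.els) (hij : i ≠ j) (s s' : St) :
    ∀ d ∈ S.fan M s i, ∀ e ∈ S.fan M s' j, d ≠ e := by
  intro d hd e he
  have h := S.pts_ne hj hi hij.symm s' s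
  have h' := S.pts_ne hi hj hij s s'
  exact (S.bet_fan M hi s d hd).ne S M ((S.bet_fan M hj s' e he).symm S M) h'.1 h'.2.2.1

/-- the chords of different elements do not cross -/
private theorem bet_nc {i j : ι} (hi : i ∈ S.els) (hj : j ∈ S.els) (hij : i ≠ j) (s s' : St)
    (h1 : s = .A → s' = .B → ¬ S.Arc i j) (h2 : s = .B → s' = .A → ¬ S.Arc j i) {d e : ℕ × ℕ}
    (hd : S.Bet M (S.apx s i) (S.p i) d) (he : S.Bet M (S.apx s' j) (S.p j) e) :
    ¬ Cross d e := by
  have h := S.pts_ne hi hj hij s s'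
  have h' := S.pts_ne hj hi hij.symm s' s
  by_cases hs : s = .H
  · subst hs
    rw [cross_comm]
    exact he.nc_block S M hd h'.1 h'.2.2.1
  by_cases hs' : s' = .H
  · subst hs'
    exact hd.nc_block S M he h.1 h.2.2.1
  have e1 : S.apx s i ≠ S.p i := by
    cases s
    · exact (S.p_ne_a i hi i hi).symm
    · exact absurd rfl hs
    · exact (S.p_ne_b i hi i hi).symm
  have e2 : S.apx s' j ≠ S.p j := by
    cases s'
    · exact (S.p_ne_a j hj j hj).symm
    · exact absurd rfl hs'
    · exact (S.p_ne_b j hj j hj).symm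
  refine hd.nc S M he e1 e2 h.2.2.2 h.1 h.2.1 h.2.2.1 ?_
  cases s
  · cases s'
    · simp only [apx]
      rw [pr_comm, pr_comm (S.a j)]
      exact S.red i hi j hj
    · exact absurd rfl hs'
    · simp only [apx]
      rw [pr_comm, pr_comm (S.b j)]
      exact h1 rfl rfl
  · exact absurd rfl hs
  · cases s'
    · simp only [apx]
      rw [pr_comm, pr_comm (S.a j), cross_comm]
      exact h2 rfl rfl
    · exact absurd rfl hs'
    · simp only [apx]
      rw [pr_comm, pr_comm (S.b j)]
      exact S.blue i hi j hj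

private theorem fan_nc_self {i : ι} (hi : i ∈ S.els) (s : St) :
    ∀ d ∈ S.fan M s i, ∀ e ∈ S.fan M s i, ¬ Cross d e := by
  cases s
  · exact S.fanA_fanA M hi hi
  · intro d hd e he
    simp only [fan, fanH, Finset.mem_image, Finset.mem_range] at hd he
    obtain ⟨t, ht, rfl⟩ := hd
    obtain ⟨t', ht', rfl⟩ := he
    unfold Cross
    simp only
    omega
  · exact S.fanB_fanB M hi hi

private theorem mem_of_isSide {n : ℕ} {T : Finset (ℕ × ℕ)} {d : ℕ × ℕ} (hd : IsDiag n d)
    (h : IsSide n T d.1 d.2) : d ∈ T := by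
  obtain ⟨h1, h2, h3⟩ := hd
  rcases h with h | h | h
  · exact h
  · omega
  · exact absurd h h3

private theorem update_fans {st : ι → St} {i : ι} {s : St} {T : Finset (ℕ × ℕ)}
    (h1 : S.fan M s i ⊆ T) (h2 : ∀ j ∈ S.els, j ≠ i → S.fan M (st j) j ⊆ T) :
    S.fans M (Function.update st i s) ⊆ T := by
  intro d hd
  obtain ⟨j, hj, hd⟩ := (S.mem_fans M).1 hd
  by_cases hji : j = i
  · subst hji
    rw [Function.update_self] at hd
    exact h1 hd
  · rw [Function.update_of_ne hji] at hd
    exact h2 j hj hji hd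

/-- `|fans| = M W` -/
theorem card_fans (st : ι → St) : (S.fans M st).card = M * S.wt S.els := by
  unfold fans wt
  rw [Finset.card_biUnion, Finset.mul_sum]
  · exact Finset.sum_congr rfl fun i hi => S.card_fan M hi _
  · intro i hi j hj hij
    refine Finset.disjoint_left.2 fun d hd hd' => ?_
    exact S.disj_fan M hi hj hij _ _ d hd d hd' rfl

/-- fans of an admissible vector of states do not cross -/
theorem fans_nc {st : ι → St} (h : S.Ok st) :
    ∀ d ∈ S.fans M st, ∀ e ∈ S.fans M st, ¬ Cross d e := by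
  intro d hd e he
  obtain ⟨i, hi, hd⟩ := (S.mem_fans M).1 hd
  obtain ⟨j, hj, he⟩ := (S.mem_fans M).1 he
  by_cases hij : i = j
  · subst hij
    exact S.fan_nc_self M hi _ d hd e he
  · exact S.bet_nc M hi hj hij (st i) (st j) (h i hi j hj) (fun h1 h2 => h j hj i hi h2 h1)
      (S.bet_fan M hi _ d hd) (S.bet_fan M hj _ e he)

/-- reconfiguration of the core -/
theorem core_reconf {st : ι → St} {T T' : Finset (ℕ × ℕ)} (hT : IsTri (S.nn M) T)
    (hT' : IsTri (S.nn M) T') (h : S.fans M st ⊆ T) (h' : S.fans M st ⊆ T') :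
    ∃ L, L ≤ (S.K + S.els.card) ^ 2 ∧ Steps (S.nn M) L T T' := by
  have hn : 4 ≤ S.nn M := by
    rw [S.nn_eq M]
    have := S.four_le
    omega
  obtain ⟨L, hL, hs⟩ := reconf hn hT hT' h h'
  refine ⟨L, hL.trans (Nat.pow_le_pow_left ?_ 2), hs⟩
  rw [S.card_fans M st, S.nn_eq M]
  omega

/-- the fans together with further segments are contained in a triangulation -/
private theorem exists_tri_fans {st : ι → St} (h : S.Ok st) (D : Finset (ℕ × ℕ))
    (hD1 : ∀ d ∈ D, d.1 < d.2 ∧ d.2 < S.nn M) (hD2 : ∀ d ∈ D, ∀ e ∈ D, ¬ Cross d e)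
    (hD3 : ∀ d ∈ D, ∀ j ∈ S.els, ∀ e ∈ S.fan M (st j) j, ¬ Cross d e) :
    ∃ T, IsTri (S.nn M) T ∧ S.fans M st ⊆ T ∧ ∀ d ∈ D, IsSide (S.nn M) T d.1 d.2 := by
  have h1 : ∀ d ∈ S.fans M st ∪ D, d.1 < d.2 ∧ d.2 < S.nn M := by
    intro d hd
    rcases Finset.mem_union.1 hd with hd | hd
    · have := S.fans_isDiag M d hd
      exact ⟨by have := this.1; omega, this.2.1⟩
    · exact hD1 d hd
  have h2 : ∀ d ∈ S.fans M st ∪ D, ∀ e ∈ S.fans M st ∪ D, ¬ Cross d e := by
    intro d hd e he
    rcases Finset.mem_union.1 hd with hd | hd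
    · rcases Finset.mem_union.1 he with he | he
      · exact S.fans_nc M h d hd e he
      · obtain ⟨j, hj, hd⟩ := (S.mem_fans M).1 hd
        rw [cross_comm]
        exact hD3 e he j hj d hd
    · rcases Finset.mem_union.1 he with he | he
      · obtain ⟨j, hj, he⟩ := (S.mem_fans M).1 he
        exact hD3 d hd j hj e he
      · exact hD2 d hd e he
  obtain ⟨T, hT, hs⟩ := exists_tri h1 h2
  refine ⟨T, hT, ?_, fun d hd => hs d (Finset.mem_union_right _ hd)⟩
  intro d hd
  exact mem_of_isSide (S.fans_isDiag M d hd) (hs d (Finset.mem_union_left _ hd))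

private theorem cycOrd_chain {i : ι} (hi : i ∈ S.els) {x : ℕ} (hx : x ≠ S.p i) :
    CycOrd (S.start M (S.p i) + 1) (M * S.w i) (S.start M x) (S.start M (S.p i)) := by
  have h1 := S.sep M hx (s := 0) (S.size_pos M x)
  have h2 := S.size_p M hi
  unfold CycOrd
  omega

/-- switching between an open fan and the hidden fan -/
private theorem toH {st : ι → St} (h : S.Ok st) {i : ι} (hi : i ∈ S.els) (hst : st i ≠ .H) :
    ∃ T₁ T₂, IsTri (S.nn M) T₁ ∧ S.fans M st ⊆ T₁ ∧ Steps (S.nn M) (M * S.w i) T₁ T₂ ∧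
      S.fans M (Function.update st i .H) ⊆ T₂ := by
  have hp := S.size_p M hi
  have hpK := S.p_lt i hi
  -- the apex
  have hxne : S.apx (st i) i ≠ S.p i := by
    rcases hs : st i with _ | _ | _
    · exact (S.p_ne_a i hi i hi).symm
    · exact absurd hs hst
    · exact (S.p_ne_b i hi i hi).symm
  have hxK : S.apx (st i) i < S.K := by
    rcases hs : st i with _ | _ | _
    · exact S.a_lt i hi
    · exact S.p_lt i hi
    · exact S.b_lt i hi
  have hbet : ∀ t < M * S.w i + 2, S.Bet M (S.apx (st i) i) (S.p i)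
      (pr (S.start M (S.apx (st i) i)) (S.start M (S.p i) + t)) := by
    intro t ht
    exact ⟨0, t, S.size_pos M _, by omega, by rw [add_zero]⟩
  have hfan : S.fan M (st i) i = (Finset.range (M * S.w i)).image fun t =>
      pr (S.start M (S.apx (st i) i)) (S.start M (S.p i) + (t + 1)) := by
    rcases hs : st i with _ | _ | _
    · rfl
    · exact absurd hs hst
    · rfl
  generalize hx : S.apx (st i) i = x at *
  obtain ⟨T₁, hT₁, hf, hD⟩ := S.exists_tri_fans M h
    ((Finset.range (M * S.w i + 2)).image fun t => pr (S.start M x) (S.start M (S.p i) + t))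
    (by
      intro d hd
      simp only [Finset.mem_image, Finset.mem_range] at hd
      obtain ⟨t, ht, rfl⟩ := hd
      exact (hbet t ht).lt S M hxne hxK hpK)
    (by
      intro d hd e he
      simp only [Finset.mem_image, Finset.mem_range] at hd he
      obtain ⟨t, ht, rfl⟩ := hd
      obtain ⟨t', ht', rfl⟩ := he
      exact nc_share _ _ _)
    (by
      intro d hd j hj e he
      simp only [Finset.mem_image, Finset.mem_range] at hd
      obtain ⟨t, ht, rfl⟩ := hd
      by_cases hij : j = i
      · subst hij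
        rw [hfan] at he
        simp only [Finset.mem_image, Finset.mem_range] at he
        obtain ⟨t', ht', rfl⟩ := he
        exact nc_share _ _ _
      · have hb := hbet t ht
        rw [← hx] at hb ⊢
        exact S.bet_nc M hi hj (Ne.symm hij) (st i) (st j) (h i hi j hj)
          (fun h1 h2 => h j hj i hi h2 h1) hb (S.bet_fan M hj _ e he))
  have hD' : ∀ t < M * S.w i + 2, IsS (S.nn M) T₁ (S.start M x) (S.start M (S.p i) + t) := by
    intro t ht
    exact hD _ (Finset.mem_image.2 ⟨t, Finset.mem_range.2 ht, rfl⟩)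
  have hlast := S.vertex_lt M hpK (s := M * S.w i + 1) (by omega)
  have hxn := S.vertex_lt M hxK (s := 0) (S.size_pos M x)
  obtain ⟨T₂, hst₂, hS, -, -, hkeep⟩ := fan_switch (n := S.nn M) (s := S.start M (S.p i) + 1)
    (r := M * S.w i) (a := S.start M x) (b := S.start M (S.p i)) hT₁ (by omega) (by omega)
    (by omega) (S.cycOrd_chain M hi hxne)
    (by
      intro t ht
      have := hD' (t + 1) (by omega)
      rwa [add_comm t 1, ← add_assoc] at this)
    (by
      have := hD' 0 (by omega)
      rwa [add_zero] at this)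
    (by
      right; left
      simp only [pr]
      omega)
  refine ⟨T₁, T₂, hT₁, hf, hst₂, S.update_fans M ?_ ?_⟩
  · intro d hd
    have hdi := S.fan_isDiag M hi _ d hd
    simp only [fan, fanH, Finset.mem_image, Finset.mem_range] at hd
    obtain ⟨t, ht, rfl⟩ := hd
    have h1 := hS (t + 1) (by omega)
    have h2 : pr (S.start M (S.p i)) (S.start M (S.p i) + 1 + (t + 1)) =
        (S.start M (S.p i), S.start M (S.p i) + (t + 2)) := by
      simp only [pr, Prod.mk.injEq]
      omega
    unfold IsS at h1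
    rw [h2] at h1
    exact mem_of_isSide hdi h1
  · intro j hj hji d hd
    refine hkeep d (hf ((S.mem_fans M).2 ⟨j, hj, hd⟩)) ?_
    intro t ht hc
    refine S.disj_fan M hj hi hji _ (st i) d hd _ ?_ hc
    rw [hfan, Finset.mem_image]
    exact ⟨t, Finset.mem_range.2 ht, by rw [add_comm t 1, ← add_assoc]⟩

/-- From the red fan to the hidden fan. By `exists_tri` there is a triangulation containing all fans
and the segments from `start (a i)` to all `M * w i + 2` vertices of the chain of `i` (as sides or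
diagonals); go there by `core_reconf` and apply `fan_switch` with the chain
`start (p i) + 1, …, start (p i) + M * w i + 1` and the apices `start (a i)`, `start (p i)`. -/
theorem move_AH {st : ι → St} (h : S.Ok st) {i : ι} (hi : i ∈ S.els) (hst : st i = .A)
    {T : Finset (ℕ × ℕ)} (hT : IsTri (S.nn M) T) (hf : S.fans M st ⊆ T) :
    ∃ T' L, L ≤ (S.K + S.els.card) ^ 2 + M * S.w i ∧ Steps (S.nn M) L T T' ∧
      S.fans M (Function.update st i .H) ⊆ T' := by
  obtain ⟨T₁, T₂, hT₁, hf₁, hs, hf₂⟩ := S.toH M h hi (by rw [hst]; exact fun h => nomatch h)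
  obtain ⟨L, hL, hs'⟩ := S.core_reconf M hT hT₁ hf hf₁
  exact ⟨T₂, L + M * S.w i, by omega, hs'.trans hs, hf₂⟩

/-- From the hidden fan to the blue fan: the same backwards. -/
theorem move_HB {st : ι → St} {i : ι} (h : S.Ok (Function.update st i .B)) (hi : i ∈ S.els)
    (hst : st i = .H) {T : Finset (ℕ × ℕ)} (hT : IsTri (S.nn M) T) (hf : S.fans M st ⊆ T) :
    ∃ T' L, L ≤ (S.K + S.els.card) ^ 2 + M * S.w i ∧ Steps (S.nn M) L T T' ∧
      S.fans M (Function.update st i .B) ⊆ T' := by
  obtain ⟨T₁, T₂, hT₁, hf₁, hs, hf₂⟩ := S.toH M h hi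
    (by rw [Function.update_self]; exact fun h => nomatch h)
  rw [Function.update_idem, ← hst, Function.update_eq_self] at hf₂
  obtain ⟨L, hL, hs'⟩ := S.core_reconf M hT hs.isTri_right hf hf₂
  exact ⟨T₁, L + M * S.w i, by omega, hs'.trans hs.symm, hf₁⟩

/-- a chord which does not cross two sides of a triangle `p, a, b` does not cross the third one -/
private theorem triangle_nc {p a b u v : ℕ} (hpu : p ≠ u) (hpv : p ≠ v) (hpa : p ≠ a)
    (hpb : p ≠ b) (hab : a ≠ b) (hua : u ≠ a) (hub : u ≠ b) (hva : v ≠ a) (hvb : v ≠ b)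
    (h1 : ¬ Cross (pr p a) (pr u v)) (h2 : ¬ Cross (pr p b) (pr u v)) :
    ¬ Cross (pr a b) (pr u v) := by
  unfold Cross pr at *
  simp only at *
  omega

/-- Directly from the red fan to the blue fan. There is a triangulation containing all fans of `st`,
the segments from `start (a i)` to all vertices of the chain of `i`, the segment from
`start (a i)` to `start (b i)` and the one from `start (b i)` to the first (orientation `p, a, b`) or last
(orientation `p, b, a`) vertex of the chain: a segment crossing the chord `a i — b i` but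
neither `p i — a i` nor `p i — b i` would end in `p i`. Then use `fan_switch` or `fan_switch_back` with the
whole chain (`M * w i + 1` flips). -/
theorem move_AB {st : ι → St} {i : ι} (h : S.Ok st) (h' : S.Ok (Function.update st i .B))
    (hi : i ∈ S.els) (hst : st i = .A) {T : Finset (ℕ × ℕ)} (hT : IsTri (S.nn M) T)
    (hf : S.fans M st ⊆ T) :
    ∃ T' L, L ≤ (S.K + S.els.card) ^ 2 + M * S.w i + 1 ∧ Steps (S.nn M) L T T' ∧
      S.fans M (Function.update st i .B) ⊆ T' := by
  have hp := S.size_p M hi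
  have hsa := S.size_a M hi
  have hsb := S.size_b M hi
  have hpK := S.p_lt i hi
  have haK := S.a_lt i hi
  have hbK := S.b_lt i hi
  have hpa := S.p_ne_a i hi i hi
  have hpb := S.p_ne_b i hi i hi
  have hab := S.a_ne_b i hi i hi
  -- the vertex of the chain which is joined with `b i`
  obtain ⟨c, hc, ho⟩ : ∃ c < M * S.w i + 2,
      (c = 0 ∧ CycOrd (S.start M (S.p i)) (M * S.w i + 1) (S.start M (S.a i))
        (S.start M (S.b i))) ∨
      (c = M * S.w i + 1 ∧ CycOrd (S.start M (S.p i)) (M * S.w i + 1) (S.start M (S.b i))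
        (S.start M (S.a i))) := by
    have h1 := S.sep M hpa.symm (s := 0) (by omega)
    have h2 := S.sep M hpb.symm (s := 0) (by omega)
    have h3 := S.sep M hab (s := 0) (by omega)
    have h4 : S.start M (S.a i) < S.start M (S.b i) ∨ S.start M (S.b i) < S.start M (S.a i) := by
      omega
    unfold CycOrd
    by_cases h5 : (S.start M (S.p i) + (M * S.w i + 1) < S.start M (S.a i) ∧
        S.start M (S.a i) < S.start M (S.b i)) ∨ (S.start M (S.b i) < S.start M (S.p i) ∧
        S.start M (S.p i) + (M * S.w i + 1) < S.start M (S.a i)) ∨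
        (S.start M (S.a i) < S.start M (S.b i) ∧ S.start M (S.b i) < S.start M (S.p i))
    · exact ⟨0, by omega, Or.inl ⟨rfl, h5⟩⟩
    · exact ⟨M * S.w i + 1, by omega, Or.inr ⟨rfl, by omega⟩⟩
  have hbetA : ∀ t < M * S.w i + 2, S.Bet M (S.a i) (S.p i)
      (pr (S.start M (S.a i)) (S.start M (S.p i) + t)) := by
    intro t ht
    exact ⟨0, t, S.size_pos M _, by omega, by rw [add_zero]⟩
  have hbetB : S.Bet M (S.b i) (S.p i) (pr (S.start M (S.b i)) (S.start M (S.p i) + c)) :=
    ⟨0, c, S.size_pos M _, by omega, by rw [add_zero]⟩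
  have hbetAB : S.Bet M (S.a i) (S.b i) (pr (S.start M (S.a i)) (S.start M (S.b i))) :=
    ⟨0, 0, S.size_pos M _, S.size_pos M _, by rw [add_zero, add_zero]⟩
  -- crossing properties with the other elements
  have hA : ∀ j ∈ S.els, j ≠ i → ∀ e ∈ S.fan M (st j) j, ∀ d, S.Bet M (S.a i) (S.p i) d →
      ¬ Cross d e := by
    intro j hj hji e he d hd
    refine S.bet_nc M hi hj (Ne.symm hji) .A (st j) (fun _ h2 => h i hi j hj hst h2)
      (fun h1 => nomatch h1) hd (S.bet_fan M hj _ e he)
  have hB : ∀ j ∈ S.els, j ≠ i → ∀ e ∈ S.fan M (st j) j, ∀ d, S.Bet M (S.b i) (S.p i) d →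
      ¬ Cross d e := by
    intro j hj hji e he d hd
    refine S.bet_nc M hi hj (Ne.symm hji) .B (st j) (fun h1 => nomatch h1)
      (fun _ h2 => h' j hj i hi (by rw [Function.update_of_ne hji]; exact h2)
        (Function.update_self _ _ _)) hd (S.bet_fan M hj _ e he)
  have hAB : ∀ j ∈ S.els, j ≠ i → ∀ e ∈ S.fan M (st j) j, ∀ d, S.Bet M (S.a i) (S.b i) d →
      ¬ Cross d e := by
    intro j hj hji e he d hd
    have hbe := S.bet_fan M hj _ e he
    have n1 := S.pts_ne hi hj (Ne.symm hji) .A (st j)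
    have n2 := S.pts_ne hi hj (Ne.symm hji) .B (st j)
    simp only [apx] at n1 n2
    by_cases hH : st j = .H
    · rw [hH] at hbe
      exact hd.nc_block S M hbe n1.1 n2.1
    have hne : S.apx (st j) j ≠ S.p j := by
      rcases hs : st j with _ | _ | _
      · exact (S.p_ne_a j hj j hj).symm
      · exact absurd hs hH
      · exact (S.p_ne_b j hj j hj).symm
    refine hd.nc S M hbe hab hne n1.2.2.2 n1.1 n2.2.2.2 n2.1 ?_
    refine triangle_nc n1.2.1 n1.2.2.1 hpa hpb hab n1.2.2.2.symm n2.2.2.2.symm n1.1.symm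
      n2.1.symm ?_ ?_
    · rcases hs : st j with _ | _ | _
      · simp only [apx]
        rw [pr_comm (S.a j)]
        exact S.red i hi j hj
      · exact absurd hs hH
      · simp only [apx]
        rw [pr_comm (S.b j)]
        exact h i hi j hj hst hs
    · rcases hs : st j with _ | _ | _
      · simp only [apx]
        rw [pr_comm (S.a j), cross_comm]
        exact h' j hj i hi (by rw [Function.update_of_ne hji]; exact hs)
          (Function.update_self _ _ _)
      · exact absurd hs hH
      · simp only [apx]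
        rw [pr_comm (S.b j)]
        exact S.blue i hi j hj
  -- the three additional segments
  have hin : ∀ t < M * S.w i + 2, ¬ Cross (pr (S.start M (S.b i)) (S.start M (S.p i) + c))
      (pr (S.start M (S.a i)) (S.start M (S.p i) + t)) := by
    intro t ht
    unfold CycOrd at ho
    unfold Cross pr
    simp only
    omega
  have hin' : ∀ t < M * S.w i + 2, ¬ Cross (pr (S.start M (S.a i)) (S.start M (S.p i) + t))
      (pr (S.start M (S.b i)) (S.start M (S.p i) + c)) := by
    intro t ht
    rw [cross_comm]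
    exact hin t ht
  have hsh : ∀ y t u : ℕ, ¬ Cross (pr (S.start M (S.a i)) (S.start M y + t))
      (pr (S.start M (S.a i)) u) := fun _ _ _ => nc_share _ _ _
  have hsh' : ∀ v, ¬ Cross (pr (S.start M (S.b i)) v)
      (pr (S.start M (S.a i)) (S.start M (S.b i))) := by
    intro v
    rw [pr_comm (S.start M (S.a i))]
    exact nc_share _ _ _
  have hsh'' : ∀ v, ¬ Cross (pr (S.start M (S.a i)) (S.start M (S.b i)))
      (pr (S.start M (S.b i)) v) := by
    intro v
    rw [cross_comm]
    exact hsh' v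
  obtain ⟨T₁, hT₁, hf₁, hD⟩ := S.exists_tri_fans M h
    (insert (pr (S.start M (S.a i)) (S.start M (S.b i)))
      (insert (pr (S.start M (S.b i)) (S.start M (S.p i) + c))
        ((Finset.range (M * S.w i + 2)).image fun t =>
          pr (S.start M (S.a i)) (S.start M (S.p i) + t))))
    (by
      intro d hd
      simp only [Finset.mem_insert, Finset.mem_image, Finset.mem_range] at hd
      rcases hd with rfl | rfl | ⟨t, ht, rfl⟩
      · exact hbetAB.lt S M hab haK hbK
      · exact hbetB.lt S M hpb.symm hbK hpK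
      · exact (hbetA t ht).lt S M hpa.symm haK hpK)
    (by
      intro d hd e he
      simp only [Finset.mem_insert, Finset.mem_image, Finset.mem_range] at hd he
      rcases hd with rfl | rfl | ⟨t, ht, rfl⟩ <;> rcases he with rfl | rfl | ⟨t', ht', rfl⟩
      · exact nc_share _ _ _
      · exact hsh'' _
      · exact nc_share _ _ _
      · exact hsh' _
      · exact nc_share _ _ _
      · exact hin t' ht'
      · exact nc_share _ _ _
      · exact hin' t ht
      · exact nc_share _ _ _)
    (by
      intro d hd j hj e he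
      simp only [Finset.mem_insert, Finset.mem_image, Finset.mem_range] at hd
      by_cases hji : j = i
      · subst hji
        rw [hst] at he
        simp only [fan, fanA, Finset.mem_image, Finset.mem_range] at he
        obtain ⟨t', ht', rfl⟩ := he
        rcases hd with rfl | rfl | ⟨t, ht, rfl⟩
        · exact nc_share _ _ _
        · exact hin (t' + 1) (by omega)
        · exact nc_share _ _ _
      · rcases hd with rfl | rfl | ⟨t, ht, rfl⟩
        · exact hAB j hj hji e he _ hbetAB
        · exact hB j hj hji e he _ hbetB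
        · exact hA j hj hji e he _ (hbetA t ht))
  have hD1 : IsS (S.nn M) T₁ (S.start M (S.a i)) (S.start M (S.b i)) :=
    hD _ (Finset.mem_insert_self _ _)
  have hD2 : IsS (S.nn M) T₁ (S.start M (S.b i)) (S.start M (S.p i) + c) :=
    hD _ (Finset.mem_insert_of_mem (Finset.mem_insert_self _ _))
  have hD3 : ∀ t < M * S.w i + 2, IsS (S.nn M) T₁ (S.start M (S.a i)) (S.start M (S.p i) + t) := by
    intro t ht
    exact hD _ (Finset.mem_insert_of_mem (Finset.mem_insert_of_mem
      (Finset.mem_image.2 ⟨t, Finset.mem_range.2 ht, rfl⟩)))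
  have hlast := S.vertex_lt M hpK (s := M * S.w i + 1) (by omega)
  have han := S.vertex_lt M haK (s := 0) (S.size_pos M _)
  have hbn := S.vertex_lt M hbK (s := 0) (S.size_pos M _)
  obtain ⟨L, hL, hs'⟩ := S.core_reconf M hT hT₁ hf hf₁
  -- the switch
  obtain ⟨T₂, hs₂, hS, hkeep⟩ : ∃ T₂, Steps (S.nn M) (M * S.w i + 1) T₁ T₂ ∧
      (∀ t ≤ M * S.w i + 1, IsS (S.nn M) T₂ (S.start M (S.b i)) (S.start M (S.p i) + t)) ∧
      ∀ d ∈ T₁, (∀ t < M * S.w i + 2, d ≠ pr (S.start M (S.a i)) (S.start M (S.p i) + t)) →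
        d ∈ T₂ := by
    rcases ho with ⟨rfl, ho⟩ | ⟨rfl, ho⟩
    · obtain ⟨T₂, h1, h2, -, -, h5⟩ := fan_switch hT₁ hlast (by omega) (by omega) ho
        (fun t ht => hD3 t (by omega)) hD1 (by rwa [add_zero] at hD2)
      exact ⟨T₂, h1, h2, fun d hd hd' => h5 d hd fun t ht => hd' t (by omega)⟩
    · obtain ⟨T₂, h1, h2, -, -, h5⟩ := fan_switch_back hT₁ hlast (by omega) (by omega) ho
        (fun t ht => hD3 t (by omega)) (by unfold IsS; rw [pr_comm]; exact hD1) hD2
      exact ⟨T₂, h1, h2, fun d hd hd' => h5 d hd fun t ht => hd' (t + 1) (by omega)⟩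
  refine ⟨T₂, L + (M * S.w i + 1), by omega, hs'.trans hs₂, S.update_fans M ?_ ?_⟩
  · intro d hd
    have hdi := S.fan_isDiag M hi _ d hd
    simp only [fan, fanB, Finset.mem_image, Finset.mem_range] at hd
    obtain ⟨t, ht, rfl⟩ := hd
    exact mem_of_isSide hdi (hS (t + 1) (by omega))
  · intro j hj hji d hd
    refine hkeep d (hf₁ ((S.mem_fans M).2 ⟨j, hj, hd⟩)) ?_
    intro t ht
    have n := S.pts_ne hi hj (Ne.symm hji) .A .A
    simp only [apx] at n
    exact ((hbetA t ht).ne S M ((S.bet_fan M hj _ d hd).symm S M) n.1 n.2.2.1).symm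

end Sys

end Pool.Agent.H72F
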