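import Pool.Agent.Lib.H72F.PTa

/-!
# CHUNK P3: the greedy completion in polynomial time
-/

set_option autoImplicit false

namespace Pool.Agent.H72F

open Pool.Agent.PolyTime Pool.Agent.Lib.CookLevin Pool.Agent.D3

private theorem sz_gstep (n : ℕ) (acc : List (ℕ × ℕ)) (d : ℕ × ℕ) :
    sz (gstep n acc d) ≤ sz d + sz acc + 1 := by
  unfold gstep
  split
  · rw [sz_cons]
  · omega

private theorem sz_foldl (n : ℕ) : ∀ (l s : List (ℕ × ℕ)),
    sz (l.foldl (gstep n) s) ≤ sz l + sz s
  | [], s => by simp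
  | d :: l, s => by
    rw [List.foldl_cons, sz_cons]
    have h1 := sz_foldl n l (gstep n s d)
    have h2 := sz_gstep n s d
    omega

private theorem PT_gstep : PT fun p : ℕ × List (ℕ × ℕ) × (ℕ × ℕ) => gstep p.1 p.2.1 p.2.2 := by
  unfold gstep
  have hc : PT fun q : (ℕ × List (ℕ × ℕ) × (ℕ × ℕ)) × (ℕ × ℕ) => decide (Cross q.2 q.1.2.2) := by
    unfold Cross
    refine PT.decide_or (PT.decide_and ?_ (PT.decide_and ?_ ?_))
      (PT.decide_and ?_ (PT.decide_and ?_ ?_)) <;> exact PT.decide_lt (by fun_prop) (by fun_prop)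
  refine PT.ite (PT.decide_and ?_ (PT.decide_and ?_ ?_)) (by fun_prop) (by fun_prop)
  · unfold IsDiag
    refine PT.decide_and (PT.decide_le (by fun_prop) (by fun_prop)) (PT.decide_and
      (PT.decide_lt (by fun_prop) (by fun_prop)) (PT.decide_not (PT.decide_and
        (PT.decide_eq (by fun_prop) (by fun_prop)) (PT.decide_eq (by fun_prop) (by fun_prop)))))
  · exact PT.decide_not (p := fun p : ℕ × List (ℕ × ℕ) × (ℕ × ℕ) => p.2.2 ∈ p.2.1)
      ((PT.mem (f := fun p : ℕ × List (ℕ × ℕ) × (ℕ × ℕ) => p.2.2)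
        (l := fun p : ℕ × List (ℕ × ℕ) × (ℕ × ℕ) => p.2.1) (by fun_prop) (by fun_prop)).congr
          fun _ => decide_eq_decide.2 Iff.rfl)
  · refine (PT.all (f := fun (q : ℕ × List (ℕ × ℕ) × (ℕ × ℕ)) (e : ℕ × ℕ) =>
      !decide (Cross e q.2.2)) (l := fun q => q.2.1) (PT.not hc) (by fun_prop)).congr fun a => ?_
    simp

/-- `sz (l.foldl (gstep n) s) ≤ sz l + sz s` gives the bound needed for `PT.foldl` -/
theorem PT_greedy {α : Type*} [Enc α] {n : α → ℕ} {l : α → List (ℕ × ℕ)} (hn : PL n) (hl : PT l) :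
    PT fun a => greedy (n a) (l a) := by
  have hP : PT fun a => (List.range (n a)) ×ˢ (List.range (n a)) := PT.product hn.range hn.range
  unfold greedy
  refine PT.foldl (g := fun (a : α) (s : List (ℕ × ℕ)) (d : ℕ × ℕ) => gstep (n a) s d)
    (s := l) (l := fun a => (List.range (n a)) ×ˢ (List.range (n a))) ?_ hl hP
    (B := fun a => sz ((List.range (n a)) ×ˢ (List.range (n a))) + sz (l a) + 1)
    (((PT.bdd hP).add (PT.bdd hl)).add (PBd.const 1)) ?_
  · have hn' := hn.pt
    exact PT.comp (g := fun p : ℕ × List (ℕ × ℕ) × (ℕ × ℕ) => gstep p.1 p.2.1 p.2.2) PT_gstep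
      (f := fun p : α × List (ℕ × ℕ) × (ℕ × ℕ) => (n p.1, p.2.1, p.2.2)) (by fun_prop)
  · intro a l1 l2 h
    have h1 := sz_foldl (n a) l1 (l a)
    have h2 := sz_append l1 l2
    rw [← h] at h2
    have h3 := one_le_sz l2
    have h4 : sz (l1.foldl (fun (s : List (ℕ × ℕ)) (d : ℕ × ℕ) => gstep (n a) s d) (l a)) =
      sz (l1.foldl (gstep (n a)) (l a)) := rfl
    omega

/-- all numbers in the two lists are smaller than `n` if this holds for the starting list -/
theorem greedy_lt {n : ℕ} {l : List (ℕ × ℕ)} (h : ∀ d ∈ l, IsDiag n d) :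
    ∀ d ∈ greedy n l, d.1 < n ∧ d.2 < n := by
  have key : ∀ (P s : List (ℕ × ℕ)), (∀ d ∈ s, IsDiag n d) → ∀ d ∈ P.foldl (gstep n) s,
      IsDiag n d := by
    intro P
    induction P with
    | nil => intro s hs; exact hs
    | cons e P ih =>
      intro s hs
      rw [List.foldl_cons]
      refine ih _ ?_
      unfold gstep
      split
      · rename_i h1
        intro d hd
        rcases List.mem_cons.1 hd with rfl | hd
        · exact h1.1
        · exact hs d hd
      · exact hs
  intro d hd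
  have := key _ _ h d hd
  unfold IsDiag at this
  omega

end Pool.Agent.H72F
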