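import Pool.Agent.Lib.H72F.PTa
import Pool.Agent.Lib.H72F.Geo

/-!
# CHUNK P4: the numbers
-/

set_option autoImplicit false

namespace Pool.Agent.H72F

open Pool.Agent.PolyTime Pool.Agent.Lib.CookLevin Pool.Agent.D3

section P4

variable {α : Type*} [Enc α]

theorem P4_pow {f : α → ℕ} (hf : PL f) (c : ℕ) : PL fun a => f a ^ c := by
  induction c with
  | zero => exact (PL.const 1).congr fun a => by rw [pow_zero]
  | succ c ih => exact (ih.mul hf).congr fun a => by rw [pow_succ]

theorem P4_nz : PL fun F : List (List (ℕ × Bool)) => nz F := PL_nv_ren.add (PL.const 1)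

theorem P4_len : PL fun F : List (List (ℕ × Bool)) => (ren F).length := PL.length PT_ren

theorem P4_quads : PT fun F : List (List (ℕ × Bool)) => quads (ren F) (nz F) :=
  PT_quads PT_ren P4_nz

theorem P4_nK : PL fun F : List (List (ℕ × Bool)) => nK (ren F) (nz F) := by
  unfold nK Zw
  exact P4_nz.mul (((PL.const 11).mul (((PL.const 2).mul P4_len).add (PL.const 2))).add
    ((PL.const 4).mul P4_len))

theorem P4_nk : PL fun F : List (List (ℕ × Bool)) => nk (ren F) (nz F) := PL.length P4_quads

theorem P4_nW : PL fun F : List (List (ℕ × Bool)) => nW (ren F) (nz F) := by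
  have h : PT fun F : List (List (ℕ × Bool)) => (quads (ren F) (nz F)).flatMap
      fun e => List.replicate (Nat.min e.2.2.2 2) () := by
    refine PT.flatMap (f := fun (_ : List (List (ℕ × Bool))) (e : Quad) =>
      List.replicate (Nat.min e.2.2.2 2) ()) ?_ P4_quads
    exact PL.replicate (n := fun p : List (List (ℕ × Bool)) × Quad => Nat.min p.2.2.2.2 2)
      (PL.min (m := fun p : List (List (ℕ × Bool)) × Quad => p.2.2.2.2) (by fun_prop)
        (PL.const 2)) (PT.const ())
  refine (PL.length h).congr fun F => ?_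
  rw [List.length_flatMap]
  unfold nW
  congr 1
  refine List.map_congr_left fun e he => ?_
  rw [List.length_replicate]
  exact Nat.min_eq_left (quads_w_le e he)

theorem P4_nE : PL fun F : List (List (ℕ × Bool)) => nE (ren F) (nz F) := by
  unfold nE
  exact P4_nk.add ((((PL.const 2).mul P4_nk).add (PL.const 1)).mul (P4_pow (P4_nK.add P4_nk) 2))

theorem P4_nD : PL fun F : List (List (ℕ × Bool)) => nD (ren F) (nz F) := by
  unfold nD
  exact ((P4_pow P4_nk 2).add ((PL.const 2).mul P4_nk)).add P4_nE

theorem P4_nR (c : ℕ) : PL fun F : List (List (ℕ × Bool)) => nR c (ren F) (nz F) := by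
  unfold nR
  exact (P4_nD.add (P4_pow ((PL.const 2).mul ((P4_nK.add P4_nk).add P4_nW)) c)).add (PL.const 1)

end P4

/-- `PL` for the numbers: closure under sums, products, powers with constant exponent; for
differences and `nW` use `PL.of_le`. -/
theorem PL_nM (c : ℕ) : PL fun F : List (List (ℕ × Bool)) => nM c (ren F) (nz F) := by
  unfold nM
  exact P4_nD.add (P4_nR c)

theorem PL_nT (c : ℕ) : PL fun F : List (List (ℕ × Bool)) => nT c (ren F) (nz F) := by
  have h1 : PL fun F : List (List (ℕ × Bool)) => 2 * nM c (ren F) (nz F) * nW (ren F) (nz F) +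
      nE (ren F) (nz F) := (((PL.const 2).mul (PL_nM c)).mul P4_nW).add P4_nE
  have h2 : PL fun F : List (List (ℕ × Bool)) => 6 * (ren F).length - 1 := by
    refine PL.of_le ?_ ((PL.const 6).mul P4_len) fun F => Nat.sub_le _ _
    exact PT.sub ((PL.const 6).mul P4_len).pt (PT.const 1)
  have h3 : PL fun F : List (List (ℕ × Bool)) => W0 (ren F) (nz F) := by
    unfold W0
    exact (((PL.const 2).mul P4_nz).mul P4_len).add (P4_nz.mul h2)
  have h4 : PL fun F : List (List (ℕ × Bool)) => nM c (ren F) (nz F) * W0 (ren F) (nz F) :=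
    (PL_nM c).mul h3
  unfold nT
  exact PL.of_le (PT.sub h1.pt h4.pt) h1 fun F => Nat.sub_le _ _

/-- use `startL_eq`, `Sys.nn_eq`, `quads_length`, `quads_weight` -/
theorem PL_nN (c : ℕ) : PL fun F : List (List (ℕ × Bool)) => nN c (ren F) (nz F) := by
  refine ((P4_nK.add P4_nk).add ((PL_nM c).mul P4_nW)).congr fun F => ?_
  have hn := two_le_nz F
  unfold nN
  rw [startL_eq hn]
  have h := (gsys (ren F) (nz F) hn).nn_eq (nM c (ren F) (nz F))
  unfold Sys.nn at h
  unfold nk nW
  rw [quads_length hn, quads_weight hn]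
  exact h.symm

end Pool.Agent.H72F
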