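import Pool.Agent.Lib.H72F.PTb
import Pool.Agent.Lib.H72F.PTc
import Pool.Agent.Lib.H72F.PTd
import Pool.Agent.Lib.H72F.FanL

/-!
# CHUNK P5: the instances are computed in polynomial time
-/

set_option autoImplicit false

namespace Pool.Agent.H72F

open Pool.Agent.PolyTime Pool.Agent.Lib.CookLevin Pool.Agent.D3

private theorem PT_una {α : Type*} [Enc α] {n : α → ℕ} (hn : PL n) :
    PT fun a => H72F.una (n a) := by
  unfold H72F.una
  exact PT.append (hn.replicate (PT.const true)) (PT.const _)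

/-- compare `PT_enc` in `Pool.Agent.Lib.H50D3.GenPT` -/
theorem PT_instW (c : ℕ) : PT fun F : List (List (ℕ × Bool)) => instW c (ren F) (nz F) := by
  have hz : PL nz := by
    unfold nz
    exact PL_nv_ren.add (PL.const 1)
  have hq : PT fun F => quads (ren F) (nz F) := PT_quads PT_ren hz
  have hw : ∀ F : List (List (ℕ × Bool)), ∀ e ∈ quads (ren F) (nz F), e.2.2.2 ≤ 2 :=
    fun F => quads_w_le
  have hM := PL_nM c
  have hN := PL_nN c
  have h1 : PT fun F => l1 c (ren F) (nz F) := PT_greedy hN (PT_redL hq hM hw)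
  have h2 : PT fun F => l2 c (ren F) (nz F) := PT_greedy hN (PT_blueL hq hM hw)
  have h3 : PT fun F => (l1 c (ren F) (nz F) ++ l2 c (ren F) (nz F)).flatMap fun p =>
      H72F.una (Nat.min p.1 (nN c (ren F) (nz F))) ++
        H72F.una (Nat.min p.2 (nN c (ren F) (nz F))) := by
    refine PT.flatMap (f := fun (F : List (List (ℕ × Bool))) (p : ℕ × ℕ) =>
      H72F.una (Nat.min p.1 (nN c (ren F) (nz F))) ++
        H72F.una (Nat.min p.2 (nN c (ren F) (nz F)))) ?_ (PT.append h1 h2)
    have hN' : PL fun q : List (List (ℕ × Bool)) × (ℕ × ℕ) => nN c (ren q.1) (nz q.1) :=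
      hN.comp (f := fun q : List (List (ℕ × Bool)) × (ℕ × ℕ) => q.1) (by fun_prop)
    exact PT.append
      (PT_una (PL.min (m := fun q : List (List (ℕ × Bool)) × (ℕ × ℕ) => q.2.1) (by fun_prop) hN'))
      (PT_una (PL.min (m := fun q : List (List (ℕ × Bool)) × (ℕ × ℕ) => q.2.2) (by fun_prop) hN'))
  refine (PT.append (PT.append (PT_una hN) (PT_una (PL_nT c))) h3).congr fun F => ?_
  unfold instW H72F.enc
  congr 1
  refine List.flatMap_congr ?_
  intro p hp
  have hn := two_le_nz F
  have hNe : nN c (ren F) (nz F) = (gsys (ren F) (nz F) hn).nn (nM c (ren F) (nz F)) :=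
    startL_eq hn _ _
  have h4 : p.1 < nN c (ren F) (nz F) ∧ p.2 < nN c (ren F) (nz F) := by
    rcases List.mem_append.1 hp with h | h
    · refine greedy_lt (fun d hd => ?_) p h
      obtain ⟨e, he, h⟩ := (mem_redL hn _ d).1 hd
      rw [hNe]
      exact (gsys _ _ hn).fanA_isDiag _ he d h
    · refine greedy_lt (fun d hd => ?_) p h
      obtain ⟨e, he, h⟩ := (mem_blueL hn _ d).1 hd
      rw [hNe]
      exact (gsys _ _ hn).fanB_isDiag _ he d h
  have h5 : Nat.min p.1 (nN c (ren F) (nz F)) = p.1 := Nat.min_eq_left h4.1.le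
  have h6 : Nat.min p.2 (nN c (ren F) (nz F)) = p.2 := Nat.min_eq_left h4.2.le
  rw [h5, h6]

end Pool.Agent.H72F
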