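import Pool.Agent.Lib.H72F.InstDef
import Pool.Agent.Lib.H50D3.GenPT

/-!
# CHUNK P1: the list of quadruples in polynomial time
-/

set_option autoImplicit false

namespace Pool.Agent.H72F

open Pool.Agent.PolyTime Pool.Agent.Lib.CookLevin Pool.Agent.D3

/-- the number of zones for the formula with renamed variables -/
def nz (F : List (List (ℕ × Bool))) : ℕ := nv (ren F) + 1

private theorem pta_one_le (l : List ℕ) : 1 ≤ l.foldr max 1 := by
  induction l with
  | nil => exact le_rfl
  | cons a l ih => exact le_trans ih (le_max_right _ _)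

private theorem pta_le_foldr {l : List ℕ} {x : ℕ} (h : x ∈ l) : x ≤ l.foldr max 1 := by
  induction l with
  | nil => exact absurd h List.not_mem_nil
  | cons a l ih =>
    rw [List.foldr_cons]
    rcases List.mem_cons.1 h with rfl | h
    · exact le_max_left _ _
    · exact le_trans (ih h) (le_max_right _ _)

theorem two_le_nz (F : List (List (ℕ × Bool))) : 2 ≤ nz F := by
  have h := pta_one_le ((ren F).flatten.map fun l => l.1 + 1)
  unfold nz nv
  omega

theorem lt_nz (F : List (List (ℕ × Bool))) : ∀ C ∈ ren F, ∀ l ∈ C, l.1 < nz F := by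
  intro C hC l hl
  have h1 : l.1 + 1 ∈ (ren F).flatten.map fun l => l.1 + 1 :=
    List.mem_map.2 ⟨l, List.mem_flatten.2 ⟨C, hC, hl⟩, rfl⟩
  have h2 := pta_le_foldr h1
  unfold nz nv
  omega

theorem PT_pr {α : Type*} [Enc α] {f g : α → ℕ} (hf : PT f) (hg : PT g) :
    PT fun a => pr (f a) (g a) := by
  unfold pr
  exact PT.pair (PT.min hf hg) (PT.max hf hg)

section

variable {α : Type*} [Enc α]

theorem PT_Zw {m : α → ℕ} (hm : PT m) : PT fun a => Zw (m a) := by
  unfold Zw
  fun_prop

theorem PT_pos {m i k r : α → ℕ} (hm : PT m) (hi : PT i) (hk : PT k) (hr : PT r) :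
    PT fun a => pos (m a) (i a) (k a) (r a) := by
  unfold pos
  have := PT_Zw hm
  fun_prop

theorem PT_zpos {m i j r : α → ℕ} (hm : PT m) (hi : PT i) (hj : PT j) (hr : PT r) :
    PT fun a => zpos (m a) (i a) (j a) (r a) := by
  unfold zpos
  have := PT_Zw hm
  fun_prop

theorem PT_bit {F : α → List (List (ℕ × Bool))} {i j : α → ℕ} (s : Bool) (hF : PT F)
    (hi : PT i) (hj : PT j) : PT fun a => bit (F a) (i a) (j a) s := by
  unfold bit
  refine PT.ite ?_ (PT.const 1) (PT.const 0)
  exact (PT.mem (f := fun a => (i a, s)) (l := fun a => (F a).getD (j a) []) (by fun_prop)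
    (PT.getD hF hj (PT.const []))).congr fun _ => decide_eq_decide.2 Iff.rfl

theorem PT_slot {F : α → List (List (ℕ × Bool))} {i j : α → ℕ} (hF : PT F)
    (hi : PT i) (hj : PT j) : PT fun a => slot (F a) (i a) (j a) := by
  unfold slot
  have := PT_bit true hF hi hj
  fun_prop

theorem PT_gap {F : α → List (List (ℕ × Bool))} {i j : α → ℕ} (hF : PT F)
    (hi : PT i) (hj : PT j) : PT fun a => gap (F a) (i a) (j a) := by
  unfold gap
  have := PT_bit false hF hi hj
  fun_prop

theorem PT_prv {n i : α → ℕ} (hn : PT n) (hi : PT i) : PT fun a => prv (n a) (i a) := by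
  unfold prv
  exact PT.ite (PT.decide_eq hi (PT.const 0)) (by fun_prop) (by fun_prop)

theorem PT_quads1 {F : α → List (List (ℕ × Bool))} {i k : α → ℕ} (hF : PT F) (hi : PT i)
    (hk : PT k) : PT fun a =>
      [(pos (F a).length (i a) (k a + 1) 2, pos (F a).length (i a) (k a + 1) 9,
          pos (F a).length (i a) (k a) 6, if k a = 0 then 1 else 2),
        (pos (F a).length (i a) (k a + 1) 10, pos (F a).length (i a) (k a + 1) 1,
          pos (F a).length (i a) (k a + 1) 7, 2),
        (pos (F a).length (i a) (k a + 1) 5, pos (F a).length (i a) (k a + 1) 8,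
          pos (F a).length (i a) (k a + 1 + 1) 3,
          if k a + 1 = 2 * (F a).length then 1 else 2)] := by
  have hm : PT fun a => (F a).length := PT.length hF
  have hp : ∀ r : ℕ, ∀ f : α → ℕ, PT f → PT fun a => pos (F a).length (i a) (f a) r :=
    fun r f hf => PT_pos hm hi hf (PT.const r)
  refine PT.cons (PT.pair (hp 2 _ (by fun_prop)) (PT.pair (hp 9 _ (by fun_prop))
    (PT.pair (hp 6 _ hk) ?_))) (PT.cons (PT.pair (hp 10 _ (by fun_prop))
    (PT.pair (hp 1 _ (by fun_prop)) (PT.pair (hp 7 _ (by fun_prop)) (PT.const 2))))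
    (PT.cons (PT.pair (hp 5 _ (by fun_prop)) (PT.pair (hp 8 _ (by fun_prop))
    (PT.pair (hp 3 _ (by fun_prop)) ?_))) (PT.const [])))
  · exact PT.ite (PT.decide_eq hk (PT.const 0)) (PT.const 1) (PT.const 2)
  · exact PT.ite (PT.decide_eq (by fun_prop) (by fun_prop)) (PT.const 1) (PT.const 2)

theorem PT_quads2 {F : α → List (List (ℕ × Bool))} {n i j : α → ℕ} (hF : PT F) (hn : PT n)
    (hi : PT i) (hj : PT j) : PT fun a =>
      [(zpos (F a).length (i a) (j a) 0, zpos (F a).length (i a) (j a) 2,
          pos (F a).length (i a) (slot (F a) (i a) (j a)) 4, 1),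
        (zpos (F a).length (prv (n a) (i a)) (j a) 3,
          pos (F a).length (i a) (gap (F a) (i a) (j a)) 0,
          zpos (F a).length (prv (n a) (i a)) (j a) 1, 1)] := by
  have hm : PT fun a => (F a).length := PT.length hF
  exact PT.cons (PT.pair (PT_zpos hm hi hj (PT.const 0)) (PT.pair (PT_zpos hm hi hj (PT.const 2))
    (PT.pair (PT_pos hm hi (PT_slot hF hi hj) (PT.const 4)) (PT.const 1))))
    (PT.cons (PT.pair (PT_zpos hm (PT_prv hn hi) hj (PT.const 3))
    (PT.pair (PT_pos hm hi (PT_gap hF hi hj) (PT.const 0))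
    (PT.pair (PT_zpos hm (PT_prv hn hi) hj (PT.const 1)) (PT.const 1)))) (PT.const []))

end

theorem PT_quads {α : Type*} [Enc α] {F : α → List (List (ℕ × Bool))} {n : α → ℕ} (hF : PT F)
    (hn : PL n) : PT fun a => quads (F a) (n a) := by
  unfold quads
  refine PT.flatMap (f := fun (a : α) (i : ℕ) =>
    ((List.range (2 * (F a).length)).flatMap fun k =>
      [(pos (F a).length i (k + 1) 2, pos (F a).length i (k + 1) 9, pos (F a).length i k 6,
          if k = 0 then 1 else 2),
        (pos (F a).length i (k + 1) 10, pos (F a).length i (k + 1) 1,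
          pos (F a).length i (k + 1) 7, 2),
        (pos (F a).length i (k + 1) 5, pos (F a).length i (k + 1) 8,
          pos (F a).length i (k + 1 + 1) 3,
          if k + 1 = 2 * (F a).length then 1 else 2)]) ++
      (List.range (F a).length).flatMap fun j =>
        [(zpos (F a).length i j 0, zpos (F a).length i j 2,
            pos (F a).length i (slot (F a) i j) 4, 1),
          (zpos (F a).length (prv (n a) i) j 3, pos (F a).length i (gap (F a) i j) 0,
            zpos (F a).length (prv (n a) i) j 1, 1)]) ?_ hn.range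
  have hF1 : PT fun p : α × ℕ => F p.1 := PT.comp hF (by fun_prop)
  refine PT.append ?_ ?_
  · refine PT.flatMap (f := fun (p : α × ℕ) (k : ℕ) =>
      [(pos (F p.1).length p.2 (k + 1) 2, pos (F p.1).length p.2 (k + 1) 9,
          pos (F p.1).length p.2 k 6, if k = 0 then 1 else 2),
        (pos (F p.1).length p.2 (k + 1) 10, pos (F p.1).length p.2 (k + 1) 1,
          pos (F p.1).length p.2 (k + 1) 7, 2),
        (pos (F p.1).length p.2 (k + 1) 5, pos (F p.1).length p.2 (k + 1) 8,
          pos (F p.1).length p.2 (k + 1 + 1) 3,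
          if k + 1 = 2 * (F p.1).length then 1 else 2)]) ?_
      ((PL.const 2).mul (PL.length hF1)).range
    exact PT_quads1 (F := fun q : (α × ℕ) × ℕ => F q.1.1) (i := fun q => q.1.2)
      (k := fun q => q.2) (PT.comp hF (by fun_prop)) (by fun_prop) (by fun_prop)
  · refine PT.flatMap (f := fun (p : α × ℕ) (j : ℕ) =>
      [(zpos (F p.1).length p.2 j 0, zpos (F p.1).length p.2 j 2,
          pos (F p.1).length p.2 (slot (F p.1) p.2 j) 4, 1),
        (zpos (F p.1).length (prv (n p.1) p.2) j 3,
          pos (F p.1).length p.2 (gap (F p.1) p.2 j) 0,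
          zpos (F p.1).length (prv (n p.1) p.2) j 1, 1)]) ?_ (PL.length hF1).range
    exact PT_quads2 (F := fun q : (α × ℕ) × ℕ => F q.1.1) (n := fun q => n q.1.1)
      (i := fun q => q.1.2) (j := fun q => q.2) (PT.comp hF (by fun_prop))
      (PT.comp hn.pt (by fun_prop)) (by fun_prop) (by fun_prop)

end Pool.Agent.H72F
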