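import Pool.Agent.Lib.H72F.PTa

/-!
# CHUNK P2: the fans in polynomial time
-/

set_option autoImplicit false

namespace Pool.Agent.H72F

open Pool.Agent.PolyTime Pool.Agent.Lib.CookLevin Pool.Agent.D3

private theorem size_add_le (a b : ℕ) : (a + b).size ≤ a.size + b.size + 1 := by
  rw [Nat.size_le]
  have h1 : a < 2 ^ a.size := Nat.lt_size_self a
  have h2 : b < 2 ^ b.size := Nat.lt_size_self b
  have h3 : 2 ^ a.size ≤ 2 ^ (a.size + b.size) := Nat.pow_le_pow_right (by norm_num) (by omega)
  have h4 : 2 ^ b.size ≤ 2 ^ (a.size + b.size) := Nat.pow_le_pow_right (by norm_num) (by omega)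
  rw [pow_succ]
  omega

private theorem size_le_sz (a : ℕ) : a.size ≤ sz a := by
  rw [sz_nat, ← Nat.size_eq_bits_len]
  exact (length_lt_sz _).le

private theorem size_foldl_add : ∀ (l : List ℕ) (s : ℕ),
    (l.foldl (fun s b => s + b) s).size ≤ s.size + sz l
  | [], s => by simp
  | d :: l, s => by
    rw [List.foldl_cons, sz_cons]
    have h1 := size_foldl_add l (s + d)
    have h2 := size_add_le s d
    have h3 := size_le_sz d
    omega

private theorem PT_sum {α : Type*} [Enc α] {l : α → List ℕ} (hl : PT l) :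
    PT fun a => (l a).sum := by
  have h := PT.foldl (g := fun (_ : α) (s : ℕ) (b : ℕ) => s + b) (s := fun _ => 0) (l := l)
    (by fun_prop) (PT.const 0) hl (B := fun a => 4 * sz (l a) + 1)
    (((PBd.const 4).mul (PT.bdd hl)).add (PBd.const 1)) (by
      intro a l1 l2 h
      have h1 := size_foldl_add l1 0
      have h2 := sz_nat_le (l1.foldl (fun s b => s + b) 0)
      have h3 := sz_append l1 l2
      rw [← h] at h3
      have h4 := one_le_sz l2
      have h5 : Nat.size 0 = 0 := rfl
      show sz (l1.foldl (fun s b => s + b) 0) ≤ _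
      omega)
  refine h.congr fun a => ?_
  rw [List.sum_eq_foldl]

theorem PT_startL {α : Type*} [Enc α] {q : α → List Quad} {M x : α → ℕ} (hq : PT q) (hM : PT M)
    (hx : PT x) : PT fun a => startL (q a) (M a) (x a) := by
  unfold startL
  refine PT.add hx (PT_sum ?_)
  refine PT.map (f := fun (a : α) (e : Quad) => M a * e.2.2.2 + 1)
    (l := fun a => (q a).filter fun e => decide (e.1 < x a)) ?_ ?_
  · fun_prop
  · exact PT.filter (f := fun (a : α) (e : Quad) => decide (e.1 < x a))
      (PT.decide_lt (by fun_prop) (by fun_prop)) hq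

/-- the fans; `c` selects the apex -/
private theorem PT_fanL {α : Type*} [Enc α] {q : α → List Quad} {M : α → ℕ} {c : Quad → ℕ}
    (hc : PT c) (hq : PT q) (hM : PL M) (hw : ∀ a, ∀ e ∈ q a, e.2.2.2 ≤ 2) :
    PT fun a => (q a).flatMap fun e => (List.range (M a * e.2.2.2)).map fun t =>
      pr (startL (q a) (M a) (c e)) (startL (q a) (M a) e.1 + (t + 1)) := by
  have hM' := hM.pt
  have h1 : PT fun a => (q a).flatMap fun e => (List.range (M a * Nat.min e.2.2.2 2)).map fun t =>
      pr (startL (q a) (M a) (c e)) (startL (q a) (M a) e.1 + (t + 1)) := by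
    refine PT.flatMap (f := fun (a : α) (e : Quad) =>
      (List.range (M a * Nat.min e.2.2.2 2)).map fun t =>
      pr (startL (q a) (M a) (c e)) (startL (q a) (M a) e.1 + (t + 1))) ?_ hq
    have hr : PT fun p : α × Quad => List.range (M p.1 * Nat.min p.2.2.2.2 2) := by
      refine PL.range (PL.mul (hM.comp (f := fun p : α × Quad => p.1) (by fun_prop)) ?_)
      exact PL.min (m := fun p : α × Quad => p.2.2.2.2) (by fun_prop) (PL.const 2)
    refine PT.map (f := fun (p : α × Quad) (t : ℕ) =>
      pr (startL (q p.1) (M p.1) (c p.2)) (startL (q p.1) (M p.1) p.2.1 + (t + 1))) ?_ hr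
    refine PT_pr ?_ (PT.add ?_ (by fun_prop))
    · exact PT_startL (q := fun r : (α × Quad) × ℕ => q r.1.1) (M := fun r => M r.1.1)
        (x := fun r => c r.1.2) (by fun_prop) (by fun_prop) (by fun_prop)
    · exact PT_startL (q := fun r : (α × Quad) × ℕ => q r.1.1) (M := fun r => M r.1.1)
        (x := fun r => r.1.2.1) (by fun_prop) (by fun_prop) (by fun_prop)
  refine h1.congr fun a => ?_
  refine List.flatMap_congr ?_
  intro e he
  have : Nat.min e.2.2.2 2 = e.2.2.2 := Nat.min_eq_left (hw a e he)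
  rw [this]

theorem PT_redL {α : Type*} [Enc α] {q : α → List Quad} {M : α → ℕ} (hq : PT q) (hM : PL M)
    (hw : ∀ a, ∀ e ∈ q a, e.2.2.2 ≤ 2) : PT fun a => redL (q a) (M a) :=
  PT_fanL (c := fun e => e.2.1) (by fun_prop) hq hM hw

theorem PT_blueL {α : Type*} [Enc α] {q : α → List Quad} {M : α → ℕ} (hq : PT q) (hM : PL M)
    (hw : ∀ a, ∀ e ∈ q a, e.2.2.2 ≤ 2) : PT fun a => blueL (q a) (M a) :=
  PT_fanL (c := fun e => e.2.2.1) (by fun_prop) hq hM hw

end Pool.Agent.H72F
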