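import Mathlib

/-!
# CHUNK W: independent sets of a path with the degrees as weights

The path is `V 1, Y 1, U 1, V 2, Y 2, U 2, …, V M, Y M, U M`; `V k`, `Y k`, `U k` are 0 or 1 (the
indicators). The weights are 1 for the two ends and 2 otherwise, so that the total weight is the sum over the
`3 M - 1` edges of the number of chosen endpoints, and every edge has at most one chosen endpoint.
-/

set_option autoImplicit false

namespace Pool.Agent.H72F

/-- the weight of the path -/
def pathW (M : ℕ) (V Y U : ℕ → ℕ) : ℕ :=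
  ∑ k ∈ Finset.range M, ((if k = 0 then 1 else 2) * V (k + 1) + 2 * Y (k + 1) +
    (if k + 1 = M then 1 else 2) * U (k + 1))

private theorem pathW_one (V Y U : ℕ → ℕ) : pathW 1 V Y U = V 1 + 2 * Y 1 + U 1 := by
  simp [pathW]

private theorem pathW_add (M : ℕ) (V Y U : ℕ → ℕ) : pathW (M + 1) V Y U + U (M + 1) =
    ∑ k ∈ Finset.range (M + 1), ((if k = 0 then 1 else 2) * V (k + 1) + 2 * Y (k + 1) +
      2 * U (k + 1)) := by
  unfold pathW
  rw [Finset.sum_range_succ, Finset.sum_range_succ (n := M)]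
  have : ∑ k ∈ Finset.range M, ((if k = 0 then 1 else 2) * V (k + 1) + 2 * Y (k + 1) +
      (if k + 1 = M + 1 then 1 else 2) * U (k + 1)) =
      ∑ k ∈ Finset.range M, ((if k = 0 then 1 else 2) * V (k + 1) + 2 * Y (k + 1) +
      2 * U (k + 1)) := by
    refine Finset.sum_congr rfl fun k hk => ?_
    rw [Finset.mem_range] at hk
    rw [if_neg (show ¬ k + 1 = M + 1 by omega)]
  rw [this, if_pos rfl]
  ring

private theorem pathW_succ {M : ℕ} (hM : 1 ≤ M) (V Y U : ℕ → ℕ) : pathW (M + 1) V Y U =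
    pathW M V Y U + U M + 2 * V (M + 1) + 2 * Y (M + 1) + U (M + 1) := by
  obtain ⟨m, rfl⟩ : ∃ m, M = m + 1 := ⟨M - 1, by omega⟩
  have h1 := pathW_add m V Y U
  have h2 := pathW_add (m + 1) V Y U
  rw [Finset.sum_range_succ, ← h1, if_neg (show ¬ m + 1 = 0 by omega)] at h2
  omega

theorem pathW_le {M : ℕ} {V Y U : ℕ → ℕ} (hM : 1 ≤ M)
    (h1 : ∀ k, 1 ≤ k → k ≤ M → V k + Y k ≤ 1) (h2 : ∀ k, 1 ≤ k → k ≤ M → Y k + U k ≤ 1)
    (h3 : ∀ k, 1 ≤ k → k < M → U k + V (k + 1) ≤ 1) : pathW M V Y U + 1 ≤ 3 * M := by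
  induction M, hM using Nat.le_induction with
  | base =>
    rw [pathW_one]
    have a1 := h1 1 le_rfl le_rfl
    have a2 := h2 1 le_rfl le_rfl
    omega
  | succ M hM ih =>
    have := ih (fun k a b => h1 k a (by omega)) (fun k a b => h2 k a (by omega))
      (fun k a b => h3 k a (by omega))
    rw [pathW_succ hM]
    have a1 := h1 (M + 1) (by omega) le_rfl
    have a2 := h2 (M + 1) (by omega) le_rfl
    have a3 := h3 M hM (by omega)
    omega

/-- equality -/
theorem of_pathW {M : ℕ} {V Y U : ℕ → ℕ} (hM : 1 ≤ M)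
    (h1 : ∀ k, 1 ≤ k → k ≤ M → V k + Y k ≤ 1) (h2 : ∀ k, 1 ≤ k → k ≤ M → Y k + U k ≤ 1)
    (h3 : ∀ k, 1 ≤ k → k < M → U k + V (k + 1) ≤ 1) (h : 3 * M ≤ pathW M V Y U + 1) :
    (∀ k, 1 ≤ k → k ≤ M → V k = k % 2 ∧ Y k = 1 - k % 2 ∧ U k = k % 2) ∨
      (∀ k, 1 ≤ k → k ≤ M → V k = 1 - k % 2 ∧ Y k = k % 2 ∧ U k = 1 - k % 2) := by
  induction M, hM using Nat.le_induction with
  | base =>
    rw [pathW_one] at h
    have a1 := h1 1 le_rfl le_rfl
    have a2 := h2 1 le_rfl le_rfl
    rcases Nat.eq_zero_or_pos (Y 1) with h0 | h0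
    · left
      intro k hk hk'
      obtain rfl : k = 1 := by omega
      omega
    · right
      intro k hk hk'
      obtain rfl : k = 1 := by omega
      omega
  | succ M hM ih =>
    have g1 : ∀ k, 1 ≤ k → k ≤ M → V k + Y k ≤ 1 := fun k a b => h1 k a (by omega)
    have g2 : ∀ k, 1 ≤ k → k ≤ M → Y k + U k ≤ 1 := fun k a b => h2 k a (by omega)
    have g3 : ∀ k, 1 ≤ k → k < M → U k + V (k + 1) ≤ 1 := fun k a b => h3 k a (by omega)
    have hle := pathW_le hM g1 g2 g3
    rw [pathW_succ hM] at h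
    have a1 := h1 (M + 1) (by omega) le_rfl
    have a2 := h2 (M + 1) (by omega) le_rfl
    have a3 := h3 M hM (by omega)
    rcases ih g1 g2 g3 (by omega) with h' | h'
    · left
      intro k hk hk'
      rcases Nat.lt_or_ge k (M + 1) with h4 | h4
      · exact h' k hk (by omega)
      · obtain rfl : k = M + 1 := by omega
        have := h' M hM le_rfl
        omega
    · right
      intro k hk hk'
      rcases Nat.lt_or_ge k (M + 1) with h4 | h4
      · exact h' k hk (by omega)
      · obtain rfl : k = M + 1 := by omega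
        have := h' M hM le_rfl
        omega

/-- the two extremal sets -/
theorem pathW_eq {M : ℕ} {V Y U : ℕ → ℕ} (hM : 1 ≤ M)
    (h : (∀ k, 1 ≤ k → k ≤ M → V k = k % 2 ∧ Y k = 1 - k % 2 ∧ U k = k % 2) ∨
      (∀ k, 1 ≤ k → k ≤ M → V k = 1 - k % 2 ∧ Y k = k % 2 ∧ U k = 1 - k % 2)) :
    pathW M V Y U + 1 = 3 * M := by
  induction M, hM using Nat.le_induction with
  | base =>
    rw [pathW_one]
    rcases h with h | h
    · have := h 1 le_rfl le_rfl
      omega
    · have := h 1 le_rfl le_rfl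
      omega
  | succ M hM ih =>
    rw [pathW_succ hM]
    rcases h with h | h
    · have := ih (Or.inl fun k a b => h k a (by omega))
      have b1 := h M hM (by omega)
      have b2 := h (M + 1) (by omega) le_rfl
      omega
    · have := ih (Or.inr fun k a b => h k a (by omega))
      have b1 := h M hM (by omega)
      have b2 := h (M + 1) (by omega) le_rfl
      omega

end Pool.Agent.H72F
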