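import Pool.Agent.Lib.H72F.GadSys
import Pool.Agent.Lib.H72F.Greedy

/-!
# CHUNK I2a: the system as a list of quadruples; lists of the fans
-/

set_option autoImplicit false

namespace Pool.Agent.H72F

/-- `(p, a, b, w)` -/
abbrev Quad : Type := ℕ × ℕ × ℕ × ℕ

def quad (F : List (List (ℕ × Bool))) (n : ℕ) (e : El) : Quad := (gp F n e, ga F e, gb F n e, gw F e)

/-- the list of the quadruples of a formula -/
def quads (F : List (List (ℕ × Bool))) (n : ℕ) : List Quad :=
  (List.range n).flatMap fun i =>
    ((List.range (2 * F.length)).flatMap fun k =>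
      [(pos F.length i (k + 1) 2, pos F.length i (k + 1) 9, pos F.length i k 6,
          if k = 0 then 1 else 2),
        (pos F.length i (k + 1) 10, pos F.length i (k + 1) 1, pos F.length i (k + 1) 7, 2),
        (pos F.length i (k + 1) 5, pos F.length i (k + 1) 8, pos F.length i (k + 1 + 1) 3,
          if k + 1 = 2 * F.length then 1 else 2)]) ++
      (List.range F.length).flatMap fun j =>
        [(zpos F.length i j 0, zpos F.length i j 2, pos F.length i (slot F i j) 4, 1),
          (zpos F.length (prv n i) j 3, pos F.length i (gap F i j) 0,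
            zpos F.length (prv n i) j 1, 1)]

theorem quads_eq (F : List (List (ℕ × Bool))) (n : ℕ) :
    quads F n = (gels F n).map (quad F n) := by
  unfold quads gels
  rw [List.map_flatMap]
  congr 1
  funext i
  rw [List.map_append, List.map_flatMap, List.map_flatMap]
  congr 1
  congr 1
  funext k
  simp only [List.map_cons, List.map_nil, quad, gp, ga, gb, gw, Nat.add_sub_cancel,
    Nat.add_eq_right]

/-- first vertex of a point -/
def startL (q : List Quad) (M x : ℕ) : ℕ :=
  x + ((q.filter fun e => decide (e.1 < x)).map fun e => M * e.2.2.2 + 1).sum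

/-- the red fans -/
def redL (q : List Quad) (M : ℕ) : List (ℕ × ℕ) :=
  q.flatMap fun e => (List.range (M * e.2.2.2)).map fun t =>
    pr (startL q M e.2.1) (startL q M e.1 + (t + 1))

/-- the blue fans -/
def blueL (q : List Quad) (M : ℕ) : List (ℕ × ℕ) :=
  q.flatMap fun e => (List.range (M * e.2.2.2)).map fun t =>
    pr (startL q M e.2.2.1) (startL q M e.1 + (t + 1))

variable {F : List (List (ℕ × Bool))} {n : ℕ}

theorem startL_eq (hn : 2 ≤ n) (M x : ℕ) :
    startL (quads F n) M x = (gsys F n hn).start M x := by
  unfold startL Sys.start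
  congr 1
  show _ = ∑ e ∈ (gels F n).toFinset with gp F n e < x, (M * gw F e + 1)
  rw [quads_eq, List.filter_map, List.map_map]
  have h1 : ((gels F n).toFinset.filter fun e => gp F n e < x) =
      ((gels F n).filter fun e => decide (gp F n e < x)).toFinset := by
    rw [List.toFinset_filter]
    simp
  rw [h1, List.sum_toFinset _ (nodup_gels.filter _)]
  rfl

theorem quads_length (hn : 2 ≤ n) : (quads F n).length = (gsys F n hn).els.card := by
  rw [quads_eq, List.length_map]
  exact (List.toFinset_card_of_nodup nodup_gels).symm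

theorem quads_weight (hn : 2 ≤ n) :
    ((quads F n).map fun e => e.2.2.2).sum = (gsys F n hn).wt (gsys F n hn).els := by
  show _ = ∑ e ∈ (gels F n).toFinset, gw F e
  rw [quads_eq, List.map_map, List.sum_toFinset _ nodup_gels]
  rfl

/-- all weights are at most 2 -/
theorem quads_w_le : ∀ e ∈ quads F n, e.2.2.2 ≤ 2 := by
  intro e he
  rw [quads_eq, List.mem_map] at he
  obtain ⟨x, _, rfl⟩ := he
  show gw F x ≤ 2
  cases x <;> simp only [gw] <;> (try split) <;> omega

end Pool.Agent.H72F
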