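import Pool.Agent.Lib.H72F.SatWt

/-!
# CHUNK SA: the set of a satisfying assignment is acyclic
-/

set_option autoImplicit false

namespace Pool.Agent.H72F

open Pool.Agent.Lib.CookLevin

variable {F : List (List (ℕ × Bool))} {n : ℕ}

/-- offset of the clause `j` -/
def off (F : List (List (ℕ × Bool))) (n j : ℕ) : ℕ := (F.length - 1 - j) * (4 * n + 4) + 2

def rkG (F : List (List (ℕ × Bool))) (n : ℕ) (c : ℕ → ℕ) (i j : ℕ) : ℕ :=
  off F n j + 4 * ((i + (n - c j)) % n)

def rkH (F : List (List (ℕ × Bool))) (n : ℕ) (c : ℕ → ℕ) (i j : ℕ) : ℕ :=
  off F n j + 4 * ((i + (n - 1) + (n - c j)) % n) + 1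

/-- the rank; `c j` is a variable which satisfies the clause `j` -/
def rk (F : List (List (ℕ × Bool))) (n : ℕ) (c : ℕ → ℕ) : El → ℕ
  | .y _ _ => 0
  | .u _ _ => F.length * (4 * n + 4) + 10
  | .g i j => rkG F n c i j
  | .h i j => rkH F n c i j
  | .v i k => if gap F i ((k - 1) / 2) = k then rkH F n c i ((k - 1) / 2) + 1
      else if slot F i ((k - 1) / 2) = k then rkG F n c i ((k - 1) / 2) - 1 else 1

private theorem SA_mod {n i c : ℕ} (hi : i < n) (hc : c < n) (h : i ≠ c) :
    (i + (n - c)) % n = (i + (n - 1) + (n - c)) % n + 1 := by
  rcases Nat.lt_or_ge i c with h1 | h1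
  · have e1 : i + (n - 1) + (n - c) = (i + (n - 1) - c) + n := by omega
    rw [e1, Nat.add_mod_right, Nat.mod_eq_of_lt (show i + (n - c) < n by omega),
      Nat.mod_eq_of_lt (show i + (n - 1) - c < n by omega)]
    omega
  · have e1 : i + (n - 1) + (n - c) = (i - c - 1) + n + n := by omega
    have e2 : i + (n - c) = (i - c) + n := by omega
    rw [e1, Nat.add_mod_right, Nat.add_mod_right, e2, Nat.add_mod_right,
      Nat.mod_eq_of_lt (show i - c - 1 < n by omega), Nat.mod_eq_of_lt (show i - c < n by omega)]
    omega

private theorem SA_prv {n i c : ℕ} (hn : 2 ≤ n) :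
    (prv n i + (n - c)) % n = (i + (n - 1) + (n - c)) % n := by
  unfold prv
  split
  · rename_i h
    subst h
    rw [Nat.zero_add]
  · have : i + (n - 1) + (n - c) = i - 1 + (n - c) + n := by omega
    rw [this, Nat.add_mod_right]

private theorem SA_off {F : List (List (ℕ × Bool))} {n j j' : ℕ} (h : j' < j)
    (hj : j < F.length) : off F n j + (4 * n + 4) ≤ off F n j' := by
  unfold off
  have h1 : F.length - 1 - j + 1 ≤ F.length - 1 - j' := by omega
  have := Nat.mul_le_mul_right (4 * n + 4) h1
  rw [Nat.succ_mul] at this
  omega

private theorem SA_off_le {F : List (List (ℕ × Bool))} {n j : ℕ} (hj : j < F.length) :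
    off F n j + (4 * n + 4) ≤ F.length * (4 * n + 4) + 2 := by
  unfold off
  have h1 : F.length - 1 - j + 1 ≤ F.length := by omega
  have := Nat.mul_le_mul_right (4 * n + 4) h1
  rw [Nat.succ_mul] at this
  omega

/-- **The set of a satisfying assignment is acyclic.** For every clause `j` choose a variable
`c j < n` of a literal `(c j, σ (c j)) ∈ F[j]`; the rank `rk F n c` works. Go through the cases of
`arcSpec`; because of the parities only the following arcs are left: `v k → u k`,
`v k → g j` (`slot = k`), `y k → v (k+1)`, `y k → u (k-1)`, `y k → g j`, `g i j → h (i+1) j`,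
`h i j → v i (gap)`, `h i j → u`, `h i j → g i j'` (`slot i j' < gap i j`: `j' < j`, or `j' = j` and the
variable `i` does not occur in the clause `j`, so `i ≠ c j`), `h i j → g (i-1) j'` (`j' < j`). For `i ≠ c j`
we have `rkG i j = rkH i j + 3`, and `rkH (i+1) j = rkG i j + 1`. If `gap i j = slot i j = k` and `v i k` is in
the set then the literal is not satisfied, hence `i ≠ c j`. -/
theorem acyc_aset (hn : 2 ≤ n) (hF : ∀ C ∈ F, ∀ l ∈ C, l.1 < n) {σ : ℕ → Bool}
    (hσ : ∀ C ∈ F, ∃ l ∈ C, σ l.1 = l.2) : (gsys F n hn).Acyc (aset F n σ) := by
  have hex : ∀ j, ∃ c, j < F.length → c < n ∧ (c, σ c) ∈ F.getD j [] := by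
    intro j
    by_cases hj : j < F.length
    · have hC : F.getD j [] ∈ F := by
        rw [List.getD_eq_getElem _ _ hj]
        exact List.getElem_mem hj
      obtain ⟨l, hl, hl2⟩ := hσ _ hC
      refine ⟨l.1, fun _ => ⟨hF _ hC l hl, ?_⟩⟩
      rw [hl2]
      exact hl
    · exact ⟨0, fun h => absurd h hj⟩
  choose c hc using hex
  have hcl : ∀ j, j < F.length → c j < n := fun j hj => (hc j hj).1
  have hcb : ∀ j, j < F.length → bit F (c j) j (σ (c j)) = 1 := by
    intro j hj
    unfold bit
    rw [if_pos (hc j hj).2]
  have hGH : ∀ i j, i < n → j < F.length → i ≠ c j →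
      rkG F n c i j = rkH F n c i j + 3 := by
    intro i j hi hj hne
    have := SA_mod hi (hcl j hj) hne
    unfold rkG rkH
    omega
  have hpos : 0 < n := by omega
  have hHle : ∀ i j, rkH F n c i j + 3 ≤ off F n j + 4 * n := by
    intro i j
    have := Nat.mod_lt (i + (n - 1) + (n - c j)) hpos
    unfold rkH
    omega
  have hGle : ∀ i j, rkG F n c i j + 4 ≤ off F n j + 4 * n := by
    intro i j
    have := Nat.mod_lt (i + (n - c j)) hpos
    unfold rkG
    omega
  have hoff2 : ∀ j, 2 ≤ off F n j := by
    intro j
    unfold off
    omega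
  have hGge : ∀ i j, off F n j ≤ rkG F n c i j := by
    intro i j
    unfold rkG
    omega
  -- ranks of `v`
  have hvle : ∀ i k, k ≤ 2 * F.length → 1 ≤ k →
      rk F n c (.v i k) < F.length * (4 * n + 4) + 10 := by
    intro i k hk hk1
    have hj : (k - 1) / 2 < F.length := by omega
    have o1 := SA_off_le (n := n) hj
    have o2 := hHle i ((k - 1) / 2)
    have o3 := hGle i ((k - 1) / 2)
    simp only [rk]
    split
    · omega
    · split
      · omega
      · omega
  have hvpos : ∀ i k, 0 < rk F n c (.v i k) := by
    intro i k
    simp only [rk]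
    split
    · omega
    · split
      · have := hGge i ((k - 1) / 2)
        have := hoff2 ((k - 1) / 2)
        omega
      · omega
  refine ⟨rk F n c, ?_⟩
  intro e he e' he' harc
  rw [aset, Finset.mem_filter] at he he'
  obtain ⟨he1, he2⟩ := he
  obtain ⟨he'1, he'2⟩ := he'
  have hg : gin F n e := mem_gels.1 (List.mem_toFinset.1 he1)
  have hg' : gin F n e' := mem_gels.1 (List.mem_toFinset.1 he'1)
  rw [arc_iff hn hg hg'] at harc
  have par : ∀ {a b : ℕ} {s : Bool}, (decide (a % 2 = 1) == s) = true →
      (decide (b % 2 = 1) == s) = true → a % 2 = b % 2 := by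
    intro a b s h1 h2
    cases s
    · have h3 : ¬ (a % 2 = 1) := by simpa using h1
      have h4 : ¬ (b % 2 = 1) := by simpa using h2
      omega
    · have h3 : a % 2 = 1 := by simpa using h1
      have h4 : b % 2 = 1 := by simpa using h2
      omega
  have par2 : ∀ {a b : ℕ} {s : Bool}, (decide (a % 2 = 1) == s) = true →
      (!(decide (b % 2 = 1) == s)) = true → a % 2 ≠ b % 2 := by
    intro a b s h1 h2
    cases s
    · have h3 : ¬ (a % 2 = 1) := by simpa using h1
      have h4 : b % 2 = 1 := by simpa using h2
      omega
    · have h3 : a % 2 = 1 := by simpa using h1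
      have h4 : ¬ (b % 2 = 1) := by simpa using h2
      omega
  cases e with
  | v i k =>
    obtain ⟨hi, hk1, hk2⟩ := hg
    simp only [asg] at he2
    cases e' with
    | v i' k' =>
      obtain ⟨rfl, rfl⟩ := harc
      have := par he2 he'2
      omega
    | y i' k' =>
      obtain ⟨rfl, rfl⟩ := harc
      have := par2 he2 he'2
      omega
    | u i' k' =>
      obtain ⟨rfl, hk⟩ := harc
      exact hvle i' k hk2 hk1
    | g i' j =>
      obtain ⟨rfl, rfl⟩ := harc
      obtain ⟨_, hj⟩ := hg'
      have hs := slot_spec F i' j
      have hjj : (slot F i' j - 1) / 2 = j := by omega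
      show rk F n c (.v i' (slot F i' j)) < rkG F n c i' j
      simp only [rk, hjj]
      split
      · rename_i hgap
        have hne : i' ≠ c j := by
          rintro h
          have h1 := hcb j hj
          rw [← h] at h1
          have b1 := bit_le F i' j true
          have b2 := bit_le F i' j false
          simp only [gap, slot] at hgap
          rcases hsi : σ i' with _ | _
          · rw [hsi] at h1 he2
            have h3 : ¬ (slot F i' j % 2 = 1) := by simpa using he2
            simp only [slot] at h3
            omega
          · rw [hsi] at h1 he2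
            have h3 : slot F i' j % 2 = 1 := by simpa using he2
            simp only [slot] at h3
            omega
        have := hGH i' j hi hj hne
        omega
      · rw [if_pos trivial]
        have := hGge i' j
        have := hoff2 j
        omega
    | h i' j => exact harc.elim
  | y i k =>
    simp only [asg] at he2
    cases e' with
    | v i' k' => exact hvpos i' k'
    | y i' k' => exact harc.elim
    | u i' k' =>
      show 0 < F.length * (4 * n + 4) + 10
      omega
    | g i' j =>
      show 0 < rkG F n c i' j
      have := hGge i' j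
      have := hoff2 j
      omega
    | h i' j => exact harc.elim
  | u i k =>
    simp only [asg] at he2
    cases e' with
    | v i' k' =>
      obtain ⟨rfl, rfl⟩ := harc
      have := par he2 he'2
      omega
    | y i' k' =>
      obtain ⟨rfl, rfl⟩ := harc
      have := par2 he2 he'2
      omega
    | u i' k' => exact harc.elim
    | g i' j => exact harc.elim
    | h i' j => exact harc.elim
  | g i j =>
    cases e' with
    | v i' k' => exact harc.elim
    | y i' k' => exact harc.elim
    | u i' k' => exact harc.elim
    | g i' j' => exact harc.elim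
    | h i' j' =>
      obtain ⟨rfl, rfl⟩ := harc
      show rkG F n c (prv n i') j' < rkH F n c i' j'
      unfold rkG rkH
      rw [SA_prv hn]
      omega
  | h i j =>
    obtain ⟨hi, hj⟩ := hg
    cases e' with
    | v i' k' =>
      obtain ⟨rfl, rfl⟩ := harc
      have hs := gap_spec F i' j
      have hjj : (gap F i' j - 1) / 2 = j := by omega
      show rkH F n c i' j < rk F n c (.v i' (gap F i' j))
      simp only [rk, hjj]
      rw [if_pos trivial]
      omega
    | y i' k' => exact harc.elim
    | u i' k' =>
      show rkH F n c i j < F.length * (4 * n + 4) + 10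
      have o1 := SA_off_le (n := n) hj
      have o2 := hHle i j
      omega
    | g i' j' =>
      show rkH F n c i j < rkG F n c i' j'
      obtain ⟨_, hj'⟩ := hg'
      have key : j' < j → rkH F n c i j < rkG F n c i' j' := by
        intro hlt
        have o1 := SA_off (n := n) hlt hj
        have o2 := hHle i j
        have o3 := hGge i' j'
        omega
      rcases harc with ⟨rfl, hlt⟩ | ⟨_, hlt⟩
      · have s1 := slot_spec F i' j'
        have s2 := gap_spec F i' j
        rcases Nat.lt_or_ge j' j with h1 | h1
        · exact key h1
        · obtain rfl : j' = j := by omega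
          have hne : i' ≠ c j' := by
            rintro h
            have h1 := hcb j' hj'
            rw [← h] at h1
            have b1 := bit_le F i' j' true
            have b2 := bit_le F i' j' false
            simp only [gap, slot] at hlt
            rcases hsi : σ i' with _ | _
            · rw [hsi] at h1
              omega
            · rw [hsi] at h1
              omega
          have := hGH i' j' hi hj hne
          omega
      · exact key hlt
    | h i' j' => exact harc.elim

end Pool.Agent.H72F
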