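import Pool.Agent.Lib.H72F.Arcs
import Pool.Agent.Lib.H72F.PathW
import Pool.Agent.Lib.CookLevin.ThreeCol

/-!
# CHUNK W1: the weight of the set of an assignment
-/

set_option autoImplicit false

namespace Pool.Agent.H72F

open Pool.Agent.Lib.CookLevin

variable {F : List (List (ℕ × Bool))} {n : ℕ}

/-- the elements chosen by an assignment -/
def asg (σ : ℕ → Bool) : El → Bool
  | .v i k => decide (k % 2 = 1) == σ i
  | .y i k => !(decide (k % 2 = 1) == σ i)
  | .u i k => decide (k % 2 = 1) == σ i
  | .g _ _ => true
  | .h _ _ => true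

/-- the set of an assignment -/
def aset (F : List (List (ℕ × Bool))) (n : ℕ) (σ : ℕ → Bool) : Finset El :=
  (gels F n).toFinset.filter fun e => asg σ e = true

/-- the indicator function of a set of elements -/
def W1ind (A : Finset El) (e : El) : ℕ := if e ∈ A then 1 else 0

theorem W1_wt (hn : 2 ≤ n) {A : Finset El} (hA : A ⊆ (gels F n).toFinset) :
    (gsys F n hn).wt A = ∑ i ∈ Finset.range n,
      (pathW (2 * F.length) (fun k => W1ind A (.v i k)) (fun k => W1ind A (.y i k))
        (fun k => W1ind A (.u i k)) +
        ∑ j ∈ Finset.range F.length, (W1ind A (.g i j) + W1ind A (.h i j))) := by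
  have h1 : (gsys F n hn).wt A = ∑ e ∈ (gels F n).toFinset, W1ind A e * gw F e := by
    show ∑ e ∈ A, gw F e = _
    rw [← Finset.sum_subset hA (f := fun e => W1ind A e * gw F e)]
    · refine Finset.sum_congr rfl fun e he => ?_
      simp [W1ind, he]
    · intro e _ he
      simp [W1ind, he]
  rw [h1, sum_gels]
  refine Finset.sum_congr rfl fun i _ => ?_
  congr 1
  · unfold pathW
    refine Finset.sum_congr rfl fun k _ => ?_
    simp only [gw, Nat.add_eq_right]
    ring
  · refine Finset.sum_congr rfl fun j _ => ?_
    simp only [gw]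
    ring

/-- The weight of the set of an assignment (`sum_gels`, `pathW_eq`; for `F = []` there are no
elements). -/
theorem wt_aset (hn : 2 ≤ n) (σ : ℕ → Bool) : (gsys F n hn).wt (aset F n σ) = W0 F n := by
  rw [W1_wt hn (A := aset F n σ) (Finset.filter_subset _ _)]
  rcases Nat.eq_zero_or_pos F.length with h0 | h0
  · simp [W0, h0, pathW]
  have hpath : ∀ i ∈ Finset.range n,
      (pathW (2 * F.length) (fun k => W1ind (aset F n σ) (.v i k))
        (fun k => W1ind (aset F n σ) (.y i k)) (fun k => W1ind (aset F n σ) (.u i k)) +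
        ∑ j ∈ Finset.range F.length, (W1ind (aset F n σ) (.g i j) + W1ind (aset F n σ) (.h i j)))
      = (6 * F.length - 1) + 2 * F.length := by
    intro i hi
    rw [Finset.mem_range] at hi
    have hv : ∀ k, 1 ≤ k → k ≤ 2 * F.length → W1ind (aset F n σ) (.v i k) =
        if (decide (k % 2 = 1) == σ i) = true then 1 else 0 := by
      intro k h1 h2
      have : El.v i k ∈ (gels F n).toFinset := List.mem_toFinset.2 (mem_gels.2 ⟨hi, h1, h2⟩)
      simp only [W1ind, aset, Finset.mem_filter, this, true_and, asg]
    have hu : ∀ k, 1 ≤ k → k ≤ 2 * F.length → W1ind (aset F n σ) (.u i k) =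
        if (decide (k % 2 = 1) == σ i) = true then 1 else 0 := by
      intro k h1 h2
      have : El.u i k ∈ (gels F n).toFinset := List.mem_toFinset.2 (mem_gels.2 ⟨hi, h1, h2⟩)
      simp only [W1ind, aset, Finset.mem_filter, this, true_and, asg]
    have hy : ∀ k, 1 ≤ k → k ≤ 2 * F.length → W1ind (aset F n σ) (.y i k) =
        if (!(decide (k % 2 = 1) == σ i)) = true then 1 else 0 := by
      intro k h1 h2
      have : El.y i k ∈ (gels F n).toFinset := List.mem_toFinset.2 (mem_gels.2 ⟨hi, h1, h2⟩)
      simp only [W1ind, aset, Finset.mem_filter, this, true_and, asg]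
    have e1 := pathW_eq (M := 2 * F.length) (V := fun k => W1ind (aset F n σ) (.v i k))
        (Y := fun k => W1ind (aset F n σ) (.y i k)) (U := fun k => W1ind (aset F n σ) (.u i k))
        (by omega) (by
          rcases hs : σ i with _ | _
          · right
            intro k h1 h2
            rw [hv k h1 h2, hu k h1 h2, hy k h1 h2, hs]
            rcases Nat.mod_two_eq_zero_or_one k with h | h <;> simp [h]
          · left
            intro k h1 h2
            rw [hv k h1 h2, hu k h1 h2, hy k h1 h2, hs]
            rcases Nat.mod_two_eq_zero_or_one k with h | h <;> simp [h])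
    have e2 : ∑ j ∈ Finset.range F.length,
        (W1ind (aset F n σ) (.g i j) + W1ind (aset F n σ) (.h i j)) = 2 * F.length := by
      have : ∀ j ∈ Finset.range F.length,
          (W1ind (aset F n σ) (.g i j) + W1ind (aset F n σ) (.h i j)) = 2 := by
        intro j hj
        rw [Finset.mem_range] at hj
        have a1 : El.g i j ∈ (gels F n).toFinset := List.mem_toFinset.2 (mem_gels.2 ⟨hi, hj⟩)
        have a2 : El.h i j ∈ (gels F n).toFinset := List.mem_toFinset.2 (mem_gels.2 ⟨hi, hj⟩)
        simp only [W1ind, aset, Finset.mem_filter, a1, a2, true_and, asg, if_true]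
      rw [Finset.sum_congr rfl this]
      simp [mul_comm]
    rw [e2]
    omega
  rw [Finset.sum_congr rfl hpath, Finset.sum_const, Finset.card_range, smul_eq_mul, W0]
  ring

end Pool.Agent.H72F
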