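import Pool.Agent.Lib.H72F.Fan

/-!
# Systems of points and chords, and their blow-up

A system consists of `K` points on a line and finitely many elements `i`; the element `i` has three
points `p i`, `a i`, `b i` and a weight `w i ≥ 1`. The red chords `p i — a i` are pairwise
non-crossing, the blue chords `p i — b i` too. `Arc i j`: the red chord of `i` crosses the blue chord
of `j` (then `i` must be treated before `j`).

Blow-up: the point `p i` is replaced by `M * w i + 2` consecutive vertices
`start (p i), …, start (p i) + M * w i + 1`, every other point by one vertex.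
-/

set_option autoImplicit false

namespace Pool.Agent.H72F

structure Sys (ι : Type) [DecidableEq ι] where
  /-- number of points -/
  K : ℕ
  /-- the elements -/
  els : Finset ι
  /-- the points of the elements -/
  p : ι → ℕ
  /-- end of the red chord -/
  a : ι → ℕ
  /-- end of the blue chord -/
  b : ι → ℕ
  /-- weights -/
  w : ι → ℕ
  four_le : 4 ≤ K
  p_lt : ∀ i ∈ els, p i < K
  a_lt : ∀ i ∈ els, a i < K
  b_lt : ∀ i ∈ els, b i < K
  w_pos : ∀ i ∈ els, 1 ≤ w i
  p_inj : ∀ i ∈ els, ∀ j ∈ els, p i = p j → i = j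
  a_inj : ∀ i ∈ els, ∀ j ∈ els, a i = a j → i = j
  b_inj : ∀ i ∈ els, ∀ j ∈ els, b i = b j → i = j
  p_ne_a : ∀ i ∈ els, ∀ j ∈ els, p i ≠ a j
  p_ne_b : ∀ i ∈ els, ∀ j ∈ els, p i ≠ b j
  a_ne_b : ∀ i ∈ els, ∀ j ∈ els, a i ≠ b j
  red : ∀ i ∈ els, ∀ j ∈ els, ¬ Cross (pr (p i) (a i)) (pr (p j) (a j))
  blue : ∀ i ∈ els, ∀ j ∈ els, ¬ Cross (pr (p i) (b i)) (pr (p j) (b j))

namespace Sys

variable {ι : Type} [DecidableEq ι] (S : Sys ι)

/-- the red chord of `i` crosses the blue chord of `j` -/
def Arc (i j : ι) : Prop := Cross (pr (S.p i) (S.a i)) (pr (S.p j) (S.b j))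

/-- the arcs between elements of `A` go upwards for some numbering: no directed cycles in `A` -/
def Acyc (A : Finset ι) : Prop := ∃ r : ι → ℕ, ∀ i ∈ A, ∀ j ∈ A, S.Arc i j → r i < r j

/-- the total weight of a set of elements -/
def wt (A : Finset ι) : ℕ := ∑ i ∈ A, S.w i

/-- the first vertex of the point `x` in the blow-up -/
def start (M x : ℕ) : ℕ := x + ∑ i ∈ S.els with S.p i < x, (M * S.w i + 1)

/-- the number of vertices of the blow-up -/
def nn (M : ℕ) : ℕ := S.start M S.K

/-- the number of vertices of the point `x` -/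
def size (M x : ℕ) : ℕ := S.start M (x + 1) - S.start M x

/-- the red fan of `i` -/
def fanA (M : ℕ) (i : ι) : Finset (ℕ × ℕ) :=
  (Finset.range (M * S.w i)).image fun t => pr (S.start M (S.a i)) (S.start M (S.p i) + (t + 1))

/-- the blue fan of `i` -/
def fanB (M : ℕ) (i : ι) : Finset (ℕ × ℕ) :=
  (Finset.range (M * S.w i)).image fun t => pr (S.start M (S.b i)) (S.start M (S.p i) + (t + 1))

/-- the hidden fan of `i`: apex at the first vertex of the chain -/
def fanH (M : ℕ) (i : ι) : Finset (ℕ × ℕ) :=
  (Finset.range (M * S.w i)).image fun t => (S.start M (S.p i), S.start M (S.p i) + (t + 2))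

/-- the error term of the upper bound -/
def err : ℕ := S.els.card + (2 * S.els.card + 1) * (S.K + S.els.card) ^ 2

end Sys

end Pool.Agent.H72F
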